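import Mathlib

/-!
# Averages of periodic functions over complete residue systems
-/

namespace Pool.Agent.H78.OM

open Finset

/-- shift invariance of the sum of an `N`-periodic function over a period -/
theorem sum_range_shift {N : ℕ} {f : ℕ → ℝ} (hf : ∀ k, f (k + N) = f k) (s : ℕ) :
    ∑ k ∈ range N, f (k + s) = ∑ k ∈ range N, f k := by
  induction s with
  | zero => simp
  | succ s ih =>
    have h1 : ∑ k ∈ range (N + 1), f (k + s) = ∑ k ∈ range N, f (k + s) + f (N + s) :=
      sum_range_succ _ _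
    have h2 : ∑ k ∈ range (N + 1), f (k + s) = ∑ k ∈ range N, f (k + 1 + s) + f (0 + s) :=
      sum_range_succ' _ _
    have h3 : f (N + s) = f (0 + s) := by
      rw [zero_add, add_comm N s]; exact hf s
    have h4 : ∑ k ∈ range N, f (k + 1 + s) = ∑ k ∈ range N, f (k + (s + 1)) :=
      sum_congr rfl fun k _ => by ring_nf
    rw [← h4]; rw [h1, h3] at h2; linarith

theorem periodic_mod {N : ℕ} {f : ℕ → ℝ} (hf : ∀ k, f (k + N) = f k) (k : ℕ) :
    f (k % N) = f k := by
  have h : ∀ q r, f (r + q * N) = f r := by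
    intro q
    induction q with
    | zero => intro r; simp
    | succ q ih =>
      intro r
      have : r + (q + 1) * N = (r + q * N) + N := by ring
      rw [this, hf, ih]
  conv_rhs => rw [← Nat.mod_add_div k N, mul_comm N (k / N)]
  rw [h]

/-- two coprime periods are independent -/
theorem sum_range_mul_of_coprime {N M : ℕ} (hN : 0 < N) (hM : 0 < M) (hc : Nat.Coprime N M)
    {f g : ℕ → ℝ} (hf : ∀ k, f (k + N) = f k) (hg : ∀ k, g (k + M) = g k) :
    ∑ k ∈ range (N * M), f k * g k = (∑ k ∈ range N, f k) * ∑ k ∈ range M, g k := by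
  rw [sum_mul_sum, ← sum_product']
  refine sum_bij (fun k _ => (k % N, k % M)) ?_ ?_ ?_ ?_
  · intro k _
    simp [Nat.mod_lt _ hN, Nat.mod_lt _ hM]
  · intro a ha b hb h
    simp only [Prod.mk.injEq] at h
    have h1 : a ≡ b [MOD N] := h.1
    have h2 : a ≡ b [MOD M] := h.2
    have h3 : a ≡ b [MOD N * M] := (Nat.modEq_and_modEq_iff_modEq_mul hc).mp ⟨h1, h2⟩
    exact Nat.ModEq.eq_of_lt_of_lt h3 (mem_range.mp ha) (mem_range.mp hb)
  · rintro ⟨a, b⟩ hab
    simp only [mem_product, mem_range] at hab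
    let c := Nat.chineseRemainder hc a b
    refine ⟨(c : ℕ) % (N * M), mem_range.mpr (Nat.mod_lt _ (Nat.mul_pos hN hM)), ?_⟩
    have h1 : (c : ℕ) ≡ a [MOD N] := c.2.1
    have h2 : (c : ℕ) ≡ b [MOD M] := c.2.2
    have e1 : (c : ℕ) % N = a := by
      have h := h1
      unfold Nat.ModEq at h
      rw [h, Nat.mod_eq_of_lt hab.1]
    have e2 : (c : ℕ) % M = b := by
      have h := h2
      unfold Nat.ModEq at h
      rw [h, Nat.mod_eq_of_lt hab.2]
    ext
    · simp only [Nat.mod_mul_right_mod]
      exact e1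
    · simp only [Nat.mod_mul_left_mod]
      exact e2
  · intro k _
    simp only [periodic_mod hf, periodic_mod hg]

theorem sum_range_mul_period {N M : ℕ} {f : ℕ → ℝ} (hf : ∀ k, f (k + N) = f k) :
    ∑ k ∈ range (N * M), f k = M * ∑ k ∈ range N, f k := by
  induction M with
  | zero => simp
  | succ M ih =>
    have h : N * (M + 1) = N * M + N := by ring
    rw [h, sum_range_add, ih]
    have h2 : ∑ x ∈ range N, f (N * M + x) = ∑ k ∈ range N, f k := by
      rw [← sum_range_shift hf (N * M)]
      exact sum_congr rfl fun k _ => by rw [add_comm]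
    rw [h2]; push_cast; ring

theorem prod_period {ι : Type*} [DecidableEq ι] (S : Finset ι) (P : ι → ℕ) (g : ι → ℕ → ℝ)
    (hg : ∀ i ∈ S, ∀ k, g i (k + P i) = g i k) (k : ℕ) :
    ∏ i ∈ S, g i (k + ∏ i ∈ S, P i) = ∏ i ∈ S, g i k := by
  refine prod_congr rfl fun i hi => ?_
  obtain ⟨c, hc⟩ : P i ∣ ∏ j ∈ S, P j := dvd_prod_of_mem P hi
  rw [hc]
  have h : ∀ c k, g i (k + P i * c) = g i k := by
    intro c
    induction c with
    | zero => intro k; simp
    | succ c ih =>
      intro k
      have : k + P i * (c + 1) = (k + P i * c) + P i := by ring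
      rw [this, hg i hi, ih]
  exact h c k

/-- pairwise coprime periods are independent -/
theorem sum_range_prod {ι : Type*} [DecidableEq ι] (S : Finset ι) (P : ι → ℕ)
    (hP : ∀ i ∈ S, 0 < P i) (hc : ∀ i ∈ S, ∀ j ∈ S, i ≠ j → Nat.Coprime (P i) (P j))
    (g : ι → ℕ → ℝ) (hg : ∀ i ∈ S, ∀ k, g i (k + P i) = g i k) :
    ∑ k ∈ range (∏ i ∈ S, P i), ∏ i ∈ S, g i k = ∏ i ∈ S, ∑ k ∈ range (P i), g i k := by
  induction S using Finset.induction_on with
  | empty => simp
  | insert a S ha ih =>
    have hcop : Nat.Coprime (P a) (∏ i ∈ S, P i) := by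
      apply Nat.Coprime.prod_right
      intro i hi
      exact hc a (mem_insert_self a S) i (mem_insert_of_mem hi) (fun h => ha (h ▸ hi))
    rw [prod_insert ha, prod_insert ha]
    have hpos : 0 < ∏ i ∈ S, P i := prod_pos fun i hi => hP i (mem_insert_of_mem hi)
    simp only [prod_insert ha]
    rw [sum_range_mul_of_coprime (hP a (mem_insert_self a S)) hpos hcop
      (hg a (mem_insert_self a S)) (fun k => prod_period S P g
        (fun i hi => hg i (mem_insert_of_mem hi)) k)]
    rw [ih (fun i hi => hP i (mem_insert_of_mem hi))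
      (fun i hi j hj => hc i (mem_insert_of_mem hi) j (mem_insert_of_mem hj))
      (fun i hi => hg i (mem_insert_of_mem hi))]

end Pool.Agent.H78.OM
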