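import Pool.Agent.H78.OM.Defs

/-!
# The residue classes of the three sides
-/

namespace Pool.Agent.H78.OM

open Finset

/-- base primes and roots of `-1` -/
structure BP (M0 : ℕ) where
  q : ℕ → ℕ
  ρ : ℕ → ℕ
  hM : 0 < M0
  h4 : 4 ∣ M0
  hq : ∀ l, (q l).Prime
  hqM : ∀ l, q l ≡ 1 [MOD M0]
  hinj : Function.Injective q
  hρ : ∀ l, q l ∣ ρ l ^ 2 + 1

theorem exists_BP {M0 : ℕ} (hM : 0 < M0) (h4 : 4 ∣ M0) : Nonempty (BP M0) := by
  have hinf : {p : ℕ | p.Prime ∧ p ≡ 1 [MOD M0]}.Infinite := by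
    have := Nat.infinite_setOfPred_prime_modEq_one (k := M0) hM.ne'
    exact this
  let f := hinf.natEmbedding
  have hroot : ∀ l, ∃ r : ℕ, (f l : ℕ) ∣ r ^ 2 + 1 := by
    intro l
    obtain ⟨h1, h2⟩ := (f l).2
    have : Fact (f l : ℕ).Prime := ⟨h1⟩
    have h3 : (f l : ℕ) % 4 = 1 := by simpa [Nat.ModEq] using h2.of_dvd h4
    obtain ⟨y, hy⟩ := (ZMod.exists_sq_eq_neg_one_iff (p := (f l : ℕ))).mpr (by omega)
    have : NeZero (f l : ℕ) := ⟨h1.ne_zero⟩
    refine ⟨y.val, ?_⟩
    rw [← ZMod.natCast_eq_zero_iff]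
    push_cast
    rw [ZMod.natCast_zmod_val, pow_two, ← hy]; ring
  choose ρ hρ using hroot
  exact ⟨{
    q := fun l => f l
    ρ := ρ
    hM := hM
    h4 := h4
    hq := fun l => (f l).2.1
    hqM := fun l => (f l).2.2
    hinj := fun a b h => f.injective (Subtype.ext h)
    hρ := hρ }⟩

namespace BP

variable {M0 : ℕ} (B : BP M0) (L : ℕ)

theorem hq4 (l : ℕ) : B.q l % 4 = 1 := by
  have := (B.hqM l).of_dvd B.h4
  simpa [Nat.ModEq] using this

theorem five_le (l : ℕ) : 5 ≤ B.q l := by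
  have h1 := (B.hq l).two_le
  have h2 := B.hq4 l
  omega

/-- the base modulus -/
def Qs : ℕ := (2 * M0) * ∏ l ∈ range L, B.q l ^ 2

theorem Qs_pos : 0 < B.Qs L := Nat.mul_pos (Nat.mul_pos (by norm_num) B.hM)
  (prod_pos fun l _ => Nat.pow_pos (B.hq l).pos)

/-- the conditions on the representative of side `i` and subset `T` -/
def IsE (R i : ℕ) (T : Finset ℕ) (e : ℕ) : Prop :=
  e ≡ i + 1 [MOD 2 * M0] ∧
  (∀ l < L, e ≡ (if l ∈ T then B.ρ l + i * B.q l else B.ρ l + i + 1) [MOD B.q l ^ 2]) ∧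
  ∀ r, r.Prime → r ∣ R → ¬ r ∣ B.Qs L → e ≡ i [MOD r]

theorem coprime_q {l l' : ℕ} (h : l ≠ l') : Nat.Coprime (B.q l) (B.q l') :=
  (Nat.coprime_primes (B.hq l) (B.hq l')).mpr fun h' => h (B.hinj h')

theorem coprime_two (l : ℕ) : Nat.Coprime 2 (B.q l) := by
  rw [Nat.coprime_two_left]
  exact (B.hq l).odd_of_ne_two (by have := B.five_le l; omega)

theorem coprime_M (l : ℕ) : Nat.Coprime M0 (B.q l) := by
  apply Nat.Coprime.symm
  rw [Nat.Prime.coprime_iff_not_dvd (B.hq l)]
  intro h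
  have h6 : B.q l ≡ 1 [MOD B.q l] := (B.hqM l).of_dvd h
  have h7 : B.q l ∣ 1 := (Nat.ModEq.dvd_iff h6 (dvd_refl _)).mp (dvd_refl _)
  exact (B.hq l).one_lt.ne' (Nat.dvd_one.mp h7)

theorem coprime_8 (l : ℕ) : Nat.Coprime (2 * M0) (B.q l ^ 2) :=
  Nat.Coprime.pow_right 2 (Nat.Coprime.mul_left (B.coprime_two l) (B.coprime_M l))

theorem exists_base (i : ℕ) (T : Finset ℕ) : ∃ e, e ≡ i + 1 [MOD 2 * M0] ∧
    (∀ l < L, e ≡ (if l ∈ T then B.ρ l + i * B.q l else B.ρ l + i + 1) [MOD B.q l ^ 2]) := by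
  have h1 := Nat.chineseRemainderOfFinset
    (fun l => if l = L then i + 1 else if l ∈ T then B.ρ l + i * B.q l else B.ρ l + i + 1)
    (fun l => if l = L then 2 * M0 else B.q l ^ 2) (range (L + 1))
    (by
      intro l _
      split_ifs
      · have := B.hM
        omega
      · exact (Nat.pow_pos (B.hq l).pos).ne')
    (by
      intro l hl l' hl' hne
      simp only [Function.onFun]
      split_ifs with h1 h2 h2
      · exact absurd (h1.trans h2.symm) hne
      · exact B.coprime_8 l'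
      · exact (B.coprime_8 l).symm
      · exact Nat.Coprime.pow 2 2 (B.coprime_q hne))
  obtain ⟨e, he⟩ := h1
  refine ⟨e, ?_, ?_⟩
  · have := he L (mem_range.mpr (Nat.lt_succ_self L))
    simpa using this
  · intro l hl
    have := he l (mem_range.mpr (by omega))
    have hne : l ≠ L := by omega
    simpa only [hne, if_false] using this

theorem coprime_Qs_of {r : ℕ} (hr : r.Prime) (h : ¬ r ∣ B.Qs L) : Nat.Coprime (B.Qs L) r :=
  ((Nat.Prime.coprime_iff_not_dvd hr).mpr h).symm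

theorem exists_e (R i : ℕ) (T : Finset ℕ) (hR : 0 < R) (base : ℕ)
    (hb : base ≡ i + 1 [MOD 2 * M0] ∧
    (∀ l < L, base ≡ (if l ∈ T then B.ρ l + i * B.q l else B.ρ l + i + 1) [MOD B.q l ^ 2])) :
    ∃ e, B.IsE L R i T e ∧ e ≡ base [MOD B.Qs L] := by
  set R2 : ℕ := ∏ r ∈ R.primeFactors.filter (fun r => ¬ r ∣ B.Qs L), r with hR2
  have hcop : Nat.Coprime (B.Qs L) R2 := by
    apply Nat.Coprime.prod_right
    intro r hr
    rw [mem_filter] at hr
    exact B.coprime_Qs_of L (Nat.prime_of_mem_primeFactors hr.1) hr.2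
  let c := Nat.chineseRemainder hcop base i
  have hc1 : (c : ℕ) ≡ base [MOD B.Qs L] := c.2.1
  have hc2 : (c : ℕ) ≡ i [MOD R2] := c.2.2
  refine ⟨c, ⟨?_, ?_, ?_⟩, hc1⟩
  · exact (hc1.of_dvd (Dvd.intro _ rfl)).trans hb.1
  · intro l hl
    have h1 : B.q l ^ 2 ∣ B.Qs L := by
      unfold Qs
      exact dvd_mul_of_dvd_right (dvd_prod_of_mem (fun l => B.q l ^ 2) (mem_range.mpr hl)) _
    exact (hc1.of_dvd h1).trans (hb.2 l hl)
  · intro r hr hrR hrQ
    have h1 : r ∣ R2 := by
      rw [hR2]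
      apply dvd_prod_of_mem (fun r => r)
      rw [mem_filter, Nat.mem_primeFactors]
      exact ⟨⟨hr, hrR, hR.ne'⟩, hrQ⟩
    exact hc2.of_dvd h1

theorem prime_dvd_Qs {r : ℕ} (hr : r.Prime) (h : r ∣ B.Qs L) : r ∣ M0 ∨ ∃ l < L, r = B.q l := by
  unfold Qs at h
  rcases (Nat.Prime.dvd_mul hr).mp h with h | h
  · left
    rcases (Nat.Prime.dvd_mul hr).mp h with h | h
    · rw [(Nat.prime_dvd_prime_iff_eq hr Nat.prime_two).mp h]
      exact (show 2 ∣ 4 by norm_num).trans B.h4
    · exact h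
  · right
    obtain ⟨l, hl, hrl⟩ := (Prime.dvd_finsetProd_iff hr.prime _).mp h
    exact ⟨l, mem_range.mp hl, (Nat.prime_dvd_prime_iff_eq hr (B.hq l)).mp
      (hr.dvd_of_dvd_pow hrl)⟩

theorem prod_q_mod (A : Finset ℕ) : (∏ l ∈ A, B.q l) ≡ 1 [MOD M0] := by
  induction A using Finset.induction_on with
  | empty => rfl
  | insert a A ha ih =>
    rw [prod_insert ha]
    exact (B.hqM a).mul ih

theorem adm_prod (A : Finset ℕ) : Adm M0 (∏ l ∈ A, B.q l) := by
  intro r hr h
  obtain ⟨l, _, hrl⟩ := (Prime.dvd_finsetProd_iff hr.prime _).mp h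
  right
  rw [(Nat.prime_dvd_prime_iff_eq hr (B.hq l)).mp hrl]
  exact B.hqM l

theorem v_prod {m : ℕ} (π : Par m) (hπ : π.M0 = M0) (A : Finset ℕ) :
    π.v (∏ l ∈ A, B.q l) = A.card := by
  have h1 : π.v 1 = 0 := by
    have := π.mul 1 1 one_ne_zero one_ne_zero
    simpa using this
  induction A using Finset.induction_on with
  | empty => simp [h1]
  | insert a A ha ih =>
    have h1 : ∏ l ∈ A, B.q l ≠ 0 := (prod_pos fun l _ => (B.hq l).pos).ne'
    rw [prod_insert ha, π.mul _ _ (B.hq a).ne_zero h1, ih,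
      π.one _ (B.hq a) (by rw [hπ]; exact B.hqM a), card_insert_of_notMem ha]
    push_cast; ring

/-- constant of a pair of sides -/
def cst {m : ℕ} (π : Par m) (g : ℕ) : ZMod m := if g = 2 then π.v 2 else 0

/-- the data of a pair of classes -/
theorem pair_data {m : ℕ} (π : Par m) (hπ : π.M0 = M0) {R i g : ℕ} {S T : Finset ℕ} {e e' : ℕ}
    (hR : 0 < R) (hQR : B.Qs L ∣ R)
    (hg1 : 1 ≤ g) (hig : i + g ≤ 2) (hS : S ⊆ range L) (hT : T ⊆ range L)
    (he : B.IsE L R i S e) (he' : B.IsE L R (i + g) T e') :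
    ∃ D a : ℕ, 0 < D ∧ D ∣ B.Qs L ∧ Adm M0 D ∧ D ∣ e ^ 2 + 1 ∧
      π.v D = (S ∩ T).card + cst π g ∧
      a.Coprime R ∧ a ≡ 1 [MOD M0] ∧ D * a + e ≡ e' [MOD R] := by
  obtain ⟨he1, he2, he3⟩ := he
  obtain ⟨he1', he2', he3'⟩ := he'
  have hg2 : g = 1 ∨ g = 2 := by omega
  set D' : ℕ := ∏ l ∈ S ∩ T, B.q l with hD'
  have hD'pos : 0 < D' := prod_pos fun l _ => (B.hq l).pos
  set δ : ℤ := (e' : ℤ) - e with hδ
  -- congruences for δ
  have h8 : (2 * (M0 : ℤ)) ∣ δ - g := by
    have h1 := (Nat.modEq_iff_dvd.mp he1)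
    have h2 := (Nat.modEq_iff_dvd.mp he1')
    push_cast at h1 h2
    have : δ - g = ((i + 1 : ℤ) - e) - ((i + g + 1 : ℤ) - e') := by rw [hδ]; ring
    rw [this]
    exact dvd_sub h1 h2
  have hl : ∀ l ∈ S ∩ T, ((B.q l : ℤ) ^ 2) ∣ δ - g * B.q l := by
    intro l hl
    rw [mem_inter] at hl
    have h1 := Nat.modEq_iff_dvd.mp (he2 l (mem_range.mp (hS hl.1)))
    have h2 := Nat.modEq_iff_dvd.mp (he2' l (mem_range.mp (hT hl.2)))
    rw [if_pos hl.1] at h1
    rw [if_pos hl.2] at h2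
    push_cast at h1 h2
    have : δ - g * B.q l = ((B.ρ l + i * B.q l : ℤ) - e) - ((B.ρ l + (i + g) * B.q l : ℤ) - e') := by
      rw [hδ]; ring
    rw [this]
    exact dvd_sub h1 h2
  have hlq : ∀ l ∈ S ∩ T, (B.q l : ℤ) ∣ δ := by
    intro l hl'
    have h1 : (B.q l : ℤ) ∣ δ - g * B.q l := (dvd_pow_self _ two_ne_zero).trans (hl l hl')
    have h2 : (B.q l : ℤ) ∣ g * B.q l := Dvd.intro_left _ rfl
    have := dvd_add h1 h2
    simpa using this
  have hgδ : (g : ℤ) ∣ δ := by
    have h1 : (g : ℤ) ∣ 2 * (M0 : ℤ) := by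
      rcases hg2 with h | h <;> rw [h]
      · exact one_dvd _
      · exact Dvd.intro _ rfl
    have := dvd_add (h1.trans h8) (dvd_refl (g : ℤ))
    simpa using this
  have hD'δ : (D' : ℤ) ∣ δ := by
    rw [hD']
    push_cast
    apply Finset.prod_dvd_of_coprime
    · intro l _ l' _ hne
      exact Nat.isCoprime_iff_coprime.mpr (B.coprime_q hne)
    · exact hlq
  have hcopgD : Nat.Coprime g D' := by
    rcases hg2 with h | h
    · rw [h]; exact Nat.coprime_one_left _
    · rw [h]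
      apply Nat.Coprime.prod_right
      intro l _
      exact B.coprime_two l
  have hDδ : ((g * D' : ℕ) : ℤ) ∣ δ := by
    push_cast
    exact IsCoprime.mul_dvd (Nat.isCoprime_iff_coprime.mpr hcopgD) hgδ hD'δ
  obtain ⟨a', ha'⟩ := hDδ
  push_cast at ha'
  -- `a' ≡ 1 mod M0`
  have hD'M : (M0 : ℤ) ∣ (D' : ℤ) - 1 := by
    have := Nat.modEq_iff_dvd.mp (B.prod_q_mod (S ∩ T)).symm
    exact_mod_cast this
  have haM : (M0 : ℤ) ∣ a' - 1 := by
    obtain ⟨z, hz⟩ := h8
    have h1 : (M0 : ℤ) ∣ D' * a' - 1 := by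
      rcases hg2 with h | h
      · rw [h] at hz ha'
        push_cast at hz ha'
        exact ⟨2 * z, by linarith⟩
      · rw [h] at hz ha'
        push_cast at hz ha'
        exact ⟨z, by linarith⟩
    have h3 : a' - 1 = (D' * a' - 1) - a' * (D' - 1) := by ring
    rw [h3]
    exact dvd_sub h1 (dvd_mul_of_dvd_right hD'M _)
  have hMR : (M0 : ℤ) ∣ R := by
    have h1 : M0 ∣ B.Qs L := by
      unfold Qs
      exact ⟨2 * ∏ l ∈ range L, B.q l ^ 2, by ring⟩
    exact_mod_cast h1.trans hQR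
  -- `a'` coprime to `R`
  have hcop : ∀ r : ℕ, r.Prime → r ∣ R → ¬ (r : ℤ) ∣ a' := by
    intro r hr hrR hra
    have hrδ : (r : ℤ) ∣ δ := by rw [ha']; exact dvd_mul_of_dvd_right hra _
    by_cases hrQ : r ∣ B.Qs L
    · rcases B.prime_dvd_Qs L hr hrQ with hrM | ⟨l, hlL, rfl⟩
      · have h1 : (r : ℤ) ∣ a' - 1 := (show (r : ℤ) ∣ M0 by exact_mod_cast hrM).trans haM
        have h2 := dvd_sub hra h1
        have h3 : a' - (a' - 1) = 1 := by ring
        rw [h3] at h2
        have h4 : r ∣ 1 := by exact_mod_cast h2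
        exact hr.one_lt.ne' (Nat.dvd_one.mp h4)
      · have h5 := B.five_le l
        have h5' : (5 : ℤ) ≤ B.q l := by exact_mod_cast h5
        by_cases hST : l ∈ S ∩ T
        · -- `q²` divides δ
          have h1 : (B.q l : ℤ) ∣ D' := by
            have : B.q l ∣ D' := dvd_prod_of_mem B.q hST
            exact_mod_cast this
          have h2 : (B.q l : ℤ) ^ 2 ∣ δ := by
            rw [ha', pow_two]
            exact mul_dvd_mul (dvd_mul_of_dvd_right h1 _) hra
          have h3 : (B.q l : ℤ) ^ 2 ∣ g * B.q l := by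
            have := dvd_sub h2 (hl l hST)
            simpa using this
          rw [pow_two] at h3
          have hq0 : (B.q l : ℤ) ≠ 0 := by exact_mod_cast (B.hq l).ne_zero
          have h6 : (B.q l : ℤ) ∣ g := Int.dvd_of_mul_dvd_mul_right hq0 h3
          have h7 := Int.le_of_dvd (by exact_mod_cast hg1) h6
          have : (g : ℤ) ≤ 2 := by exact_mod_cast (by omega : g ≤ 2)
          omega
        · have h1 := Nat.modEq_iff_dvd.mp ((he2 l hlL).of_dvd (dvd_pow_self _ two_ne_zero))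
          have h2 := Nat.modEq_iff_dvd.mp ((he2' l hlL).of_dvd (dvd_pow_self _ two_ne_zero))
          have hsub := dvd_sub h1 h2
          have key : ∀ z : ℤ, (B.q l : ℤ) ∣ z → 0 < z → z ≤ 3 → False := by
            intro z hz h0 h3
            have := Int.le_of_dvd h0 hz
            omega
          have hqq : (B.q l : ℤ) ∣ (i : ℤ) * B.q l := Dvd.intro_left _ rfl
          have hqq' : (B.q l : ℤ) ∣ ((i : ℤ) + g) * B.q l := Dvd.intro_left _ rfl
          by_cases hlS : l ∈ S
          · have hlT : l ∉ T := fun h => hST (mem_inter.mpr ⟨hlS, h⟩)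
            rw [if_pos hlS, if_neg hlT] at hsub
            push_cast at hsub
            -- `δ ≡ i + g + 1`
            have h6 := dvd_sub (dvd_sub hrδ hsub) (dvd_neg.mpr hqq)
            apply key ((i : ℤ) + g + 1) _ (by omega) (by omega)
            have e1 : (e' : ℤ) - e - ((B.ρ l + i * B.q l : ℤ) - e - ((B.ρ l + (i + g) + 1 : ℤ) - e')) -
                -((i : ℤ) * B.q l) = i + g + 1 := by ring
            rw [hδ, e1] at h6
            exact h6
          · by_cases hlT : l ∈ T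
            · rw [if_neg hlS, if_pos hlT] at hsub
              push_cast at hsub
              have h6 := dvd_sub (dvd_sub hsub hrδ) (dvd_neg.mpr hqq')
              apply key ((i : ℤ) + 1) _ (by omega) (by omega)
              have e1 : ((B.ρ l + i + 1 : ℤ) - e - ((B.ρ l + (i + g) * B.q l : ℤ) - e')) -
                  ((e' : ℤ) - e) - -(((i : ℤ) + g) * B.q l) = i + 1 := by ring
              rw [hδ, e1] at h6
              exact h6
            · rw [if_neg hlS, if_neg hlT] at hsub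
              push_cast at hsub
              have h6 := dvd_sub hrδ hsub
              apply key (g : ℤ) _ (by omega) (by omega)
              have e1 : (e' : ℤ) - e - ((B.ρ l + i + 1 : ℤ) - e - ((B.ρ l + (i + g) + 1 : ℤ) - e')) =
                  g := by ring
              rw [hδ, e1] at h6
              exact h6
    · have h1 := Nat.modEq_iff_dvd.mp (he3 r hr hrR hrQ)
      have h2 := Nat.modEq_iff_dvd.mp (he3' r hr hrR hrQ)
      have hsub := dvd_sub hrδ (dvd_sub h1 h2)
      push_cast at hsub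
      have e1 : (e' : ℤ) - e - ((i : ℤ) - e - ((i + g : ℤ) - e')) = g := by ring
      rw [hδ, e1] at hsub
      have hr3 : 3 ≤ r := by
        have h2' := hr.two_le
        rcases Nat.lt_or_ge 2 r with h | h
        · exact h
        · exfalso
          have : r = 2 := by omega
          apply hrQ
          rw [this]
          unfold Qs
          exact ⟨M0 * ∏ l ∈ range L, B.q l ^ 2, by ring⟩
      have h7 := Int.le_of_dvd (by exact_mod_cast hg1) hsub
      have : (g : ℤ) ≤ 2 := by exact_mod_cast (by omega : g ≤ 2)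
      have : (3 : ℤ) ≤ r := by exact_mod_cast hr3
      omega
  have hRZ : (0 : ℤ) < R := by exact_mod_cast hR
  refine ⟨g * D', (a' % R).toNat, Nat.mul_pos (by omega) hD'pos, ?_, ?_, ?_, ?_, ?_, ?_, ?_⟩
  · -- D ∣ Qs
    unfold Qs
    apply Nat.mul_dvd_mul
    · rcases hg2 with h | h <;> rw [h]
      · exact one_dvd _
      · exact Dvd.intro _ rfl
    · rw [hD']
      calc ∏ l ∈ S ∩ T, B.q l ∣ ∏ l ∈ range L, B.q l :=
            prod_dvd_prod_of_subset _ _ _ (inter_subset_left.trans hS)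
        _ ∣ ∏ l ∈ range L, B.q l ^ 2 := prod_dvd_prod_of_dvd _ _ fun l _ =>
            dvd_pow_self _ two_ne_zero
  · -- admissible
    intro r hr hrd
    rcases (Nat.Prime.dvd_mul hr).mp hrd with h | h
    · left
      rcases hg2 with h2 | h2 <;> rw [h2] at h
      · exact absurd (Nat.dvd_one.mp h) hr.one_lt.ne'
      · exact (Nat.prime_dvd_prime_iff_eq hr Nat.prime_two).mp h
    · exact B.adm_prod _ r hr h
  · -- D ∣ e² + 1
    apply Nat.Coprime.mul_dvd_of_dvd_of_dvd hcopgD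
    · rcases hg2 with h | h
      · rw [h]; exact one_dvd _
      · have hi : i = 0 := by omega
        rw [hi] at he1
        rw [h]
        have h1 := he1.of_dvd (show 2 ∣ 2 * M0 from Dvd.intro _ rfl)
        have h2 : e % 2 = 1 := by simpa [Nat.ModEq] using h1
        have h3 : (e ^ 2 + 1) % 2 = 0 := by
          rw [Nat.add_mod, Nat.pow_mod, h2]
        exact Nat.dvd_of_mod_eq_zero h3
    · rw [hD']
      apply Finset.prod_dvd_of_isRelPrime
      · intro l _ l' _ hne
        exact Nat.coprime_iff_isRelPrime.mp (B.coprime_q hne)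
      · intro l hl'
        rw [mem_inter] at hl'
        have h1 := he2 l (mem_range.mp (hS hl'.1))
        rw [if_pos hl'.1] at h1
        have h2 : e ≡ B.ρ l [MOD B.q l] := by
          have h3 := h1.of_dvd (dvd_pow_self _ two_ne_zero)
          have h4 : B.ρ l + i * B.q l ≡ B.ρ l + 0 [MOD B.q l] :=
            Nat.ModEq.add_left _ (Nat.modEq_zero_iff_dvd.mpr (Dvd.intro_left _ rfl))
          exact h3.trans h4
        have h3 : e ^ 2 + 1 ≡ B.ρ l ^ 2 + 1 [MOD B.q l] := by gcongr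
        exact (Nat.ModEq.dvd_iff h3 (dvd_refl _)).mpr (B.hρ l)
  · -- value
    unfold cst
    rcases hg2 with h | h
    · rw [h, one_mul, hD', B.v_prod π hπ, if_neg (by norm_num), add_zero]
    · rw [h, π.mul _ _ (by norm_num) hD'pos.ne', hD', B.v_prod π hπ, if_pos rfl, add_comm]
  · -- coprime
    apply Nat.coprime_of_dvd
    intro r hr hra hrR
    apply hcop r hr hrR
    have h1 : ((a' % R).toNat : ℤ) = a' % R := Int.toNat_of_nonneg (Int.emod_nonneg _ hRZ.ne')
    have h2 : a' % R = a' - R * (a' / R) := Int.emod_def _ _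
    have h3 : (r : ℤ) ∣ ((a' % R).toNat : ℤ) := by exact_mod_cast hra
    have h4 : (r : ℤ) ∣ R := by exact_mod_cast hrR
    have h5 : a' = ((a' % R).toNat : ℤ) + R * (a' / R) := by rw [h1, h2]; ring
    rw [h5]
    exact dvd_add h3 (dvd_mul_of_dvd_left h4 _)
  · -- mod M0
    have h1 : ((a' % R).toNat : ℤ) = a' % R := Int.toNat_of_nonneg (Int.emod_nonneg _ hRZ.ne')
    have h2 : a' % R = a' - R * (a' / R) := Int.emod_def _ _
    apply Nat.ModEq.symm
    rw [Nat.modEq_iff_dvd, h1, h2]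
    have h3 : a' - R * (a' / R) - ((1 : ℕ) : ℤ) = (a' - 1) - R * (a' / R) := by push_cast; ring
    rw [h3]
    exact dvd_sub haM (dvd_mul_of_dvd_left hMR _)
  · -- congruence
    rw [Nat.modEq_iff_dvd]
    have h1 : ((a' % R).toNat : ℤ) = a' % R := Int.toNat_of_nonneg (Int.emod_nonneg _ hRZ.ne')
    have h2 : a' % R = a' - R * (a' / R) := Int.emod_def _ _
    push_cast
    rw [h1, h2]
    refine ⟨g * D' * (a' / R), ?_⟩
    have : (e' : ℤ) = e + g * D' * a' := by
      have : (e' : ℤ) - e = g * D' * a' := by rw [← hδ, ha']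
      linarith
    rw [this]; ring

end BP

end Pool.Agent.H78.OM
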