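import Pool.Agent.H78.OM.Counts

/-!
# The bilinear estimate
-/

namespace Pool.Agent.H78.OM

open Finset

section bil

variable {H : ℕ} {𝒬 : Finset ℕ} {ρ : ℕ → ℕ} {D R0 a0 : ℕ} {𝒩 : Finset ℕ} {w ψ : ℕ → ℝ}

theorem cls_shift_self (q ρ b s : ℕ) (h : q ∣ s) : cls q ρ (b + s) = cls q ρ b := cls_period h ρ b

theorem cls_shift (q ρ b s t : ℕ) (hρ : ρ < q) (h : s ≡ t [MOD q]) :
    cls q ((ρ + t) % q) (b + s) = cls q ρ b := by
  have hiff : (b + s) % q = (ρ + t) % q ↔ b % q = ρ := by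
    constructor
    · intro h1
      have h2 : b + s ≡ ρ + t [MOD q] := h1
      have h3 : b ≡ ρ [MOD q] := Nat.ModEq.add_right_cancel h h2
      have h4 : b % q = ρ % q := h3
      rw [h4, Nat.mod_eq_of_lt hρ]
    · intro h1
      have h3 : b ≡ ρ [MOD q] := by
        show b % q = ρ % q
        rw [h1, Nat.mod_eq_of_lt hρ]
      exact Nat.ModEq.add h3 h
  unfold cls
  simp only [hiff]

theorem off_diag (hρ : ∀ q ∈ 𝒬, ρ q < q) (hd : ∀ q ∈ 𝒬, q ∣ H)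
    (hq0 : ∀ q ∈ 𝒬, q ∣ R0) (h𝒩 : ∀ n ∈ 𝒩, n ≡ a0 [MOD R0])
    (hψ : ∀ b, ψ (b + H) = ψ b) (hψ1 : ∀ b, |ψ b| ≤ 1) {εo : ℝ}
    (hoff : ∀ q ∈ 𝒬, ∀ q' ∈ 𝒬, q < q' → ∀ f : ℕ → ℝ, (∀ b, |f b| ≤ 1) →
      |∑ n ∈ 𝒩, w n * ∑ c ∈ range H, f c * ψ (c + (D * (q' - q)) * n)| ≤ εo * H)
    {q q' : ℕ} (hq : q ∈ 𝒬) (hq' : q' ∈ 𝒬) (hlt : q < q') :
    ∑ n ∈ 𝒩, w n * ∑ b ∈ range H, (cls q (ρ q) b * ψ (b + D * q * n)) *
      (cls q' (ρ q') b * ψ (b + D * q' * n)) ≤ εo * H := by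
  let f : ℕ → ℝ := fun c => cls q (ρ q) c * cls q' ((ρ q' + D * q * a0) % q') c * ψ c
  have hf : ∀ c, |f c| ≤ 1 := by
    intro c
    simp only [f]
    rw [abs_mul, abs_mul, abs_of_nonneg (cls_nonneg _ _ _), abs_of_nonneg (cls_nonneg _ _ _)]
    have h1 := cls_le_one q (ρ q) c
    have h2 := cls_le_one q' ((ρ q' + D * q * a0) % q') c
    have h3 := cls_nonneg q (ρ q) c
    have h4 := cls_nonneg q' ((ρ q' + D * q * a0) % q') c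
    have h5 := hψ1 c
    have h6 := abs_nonneg (ψ c)
    have h7 : cls q (ρ q) c * cls q' ((ρ q' + D * q * a0) % q') c ≤ 1 := mul_le_one₀ h1 h4 h2
    exact mul_le_one₀ h7 h6 h5
  refine le_trans (le_of_eq ?_) ((le_abs_self _).trans (hoff q hq q' hq' hlt f hf))
  refine sum_congr rfl fun n hn => ?_
  congr 1
  let Φ : ℕ → ℝ := fun c => f c * ψ (c + (D * (q' - q)) * n)
  have hΦ : ∀ c, Φ (c + H) = Φ c := by
    intro c
    simp only [Φ, f]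
    have e : c + H + D * (q' - q) * n = c + D * (q' - q) * n + H := by ring
    rw [cls_period (hd q hq), cls_period (hd q' hq'), hψ, e, hψ]
  rw [← sum_range_shift hΦ (D * q * n)]
  refine sum_congr rfl fun b _ => ?_
  simp only [Φ, f]
  have e1 : b + D * q * n + D * (q' - q) * n = b + D * q' * n := by
    obtain ⟨s, rfl⟩ := Nat.exists_eq_add_of_lt hlt
    have : q + s + 1 - q = s + 1 := by omega
    rw [this]; ring
  have e2 : cls q' ((ρ q' + D * q * a0) % q') (b + D * q * n) = cls q' (ρ q') b := by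
    apply cls_shift _ _ _ _ _ (hρ q' hq')
    exact ((h𝒩 n hn).of_dvd (hq0 q' hq')).mul_left _
  have e3 : cls q (ρ q) (b + D * q * n) = cls q (ρ q) b := by
    apply cls_shift_self
    exact ⟨D * n, by ring⟩
  rw [e1, e2, e3]
  ring

/-- the main bilinear estimate -/
theorem bilinear (hρ : ∀ q ∈ 𝒬, ρ q < q) (hd : ∀ q ∈ 𝒬, q ∣ H)
    (hq0 : ∀ q ∈ 𝒬, q ∣ R0) (h𝒩 : ∀ n ∈ 𝒩, n ≡ a0 [MOD R0]) (hw : ∀ n, 0 ≤ w n)
    (hψ : ∀ b, ψ (b + H) = ψ b) (hψ1 : ∀ b, |ψ b| ≤ 1) {εo A : ℝ} (hεo : 0 ≤ εo)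
    (hA : ∑ n ∈ 𝒩, w n ≤ A)
    (hoff : ∀ q ∈ 𝒬, ∀ q' ∈ 𝒬, q < q' → ∀ f : ℕ → ℝ, (∀ b, |f b| ≤ 1) →
      |∑ n ∈ 𝒩, w n * ∑ c ∈ range H, f c * ψ (c + (D * (q' - q)) * n)| ≤ εo * H) :
    ∑ n ∈ 𝒩, w n * ∑ b ∈ range H, (∑ q ∈ 𝒬, cls q (ρ q) b * ψ (b + D * q * n)) ^ 2 ≤
      (A * recip 𝒬 + (𝒬.card : ℝ) ^ 2 * εo) * H := by
  have h1 : ∀ n b, (∑ q ∈ 𝒬, cls q (ρ q) b * ψ (b + D * q * n)) ^ 2 =
      ∑ q ∈ 𝒬, ∑ q' ∈ 𝒬, (cls q (ρ q) b * ψ (b + D * q * n)) *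
        (cls q' (ρ q') b * ψ (b + D * q' * n)) := by
    intro n b
    rw [pow_two, sum_mul_sum]
  have h2 : ∑ n ∈ 𝒩, w n * ∑ b ∈ range H, (∑ q ∈ 𝒬, cls q (ρ q) b * ψ (b + D * q * n)) ^ 2 =
      ∑ q ∈ 𝒬, ∑ q' ∈ 𝒬, ∑ n ∈ 𝒩, w n * ∑ b ∈ range H, (cls q (ρ q) b * ψ (b + D * q * n)) *
        (cls q' (ρ q') b * ψ (b + D * q' * n)) := by
    have h3 : ∀ n ∈ 𝒩, w n * ∑ b ∈ range H, (∑ q ∈ 𝒬, cls q (ρ q) b * ψ (b + D * q * n)) ^ 2 =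
        ∑ q ∈ 𝒬, ∑ q' ∈ 𝒬, w n * ∑ b ∈ range H, (cls q (ρ q) b * ψ (b + D * q * n)) *
        (cls q' (ρ q') b * ψ (b + D * q' * n)) := by
      intro n _
      simp_rw [h1]
      rw [sum_comm, mul_sum]
      refine sum_congr rfl fun q _ => ?_
      rw [sum_comm, mul_sum]
    rw [sum_congr rfl h3, sum_comm]
    refine sum_congr rfl fun q _ => ?_
    rw [sum_comm]
  rw [h2]
  have h4 : ∀ q ∈ 𝒬, ∀ q' ∈ 𝒬, ∑ n ∈ 𝒩, w n * ∑ b ∈ range H,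
      (cls q (ρ q) b * ψ (b + D * q * n)) * (cls q' (ρ q') b * ψ (b + D * q' * n)) ≤
      (if q' = q then A * (1 / q) * H else 0) + εo * H := by
    intro q hq q' hq'
    rcases lt_trichotomy q q' with h | h | h
    · rw [if_neg (by omega), zero_add]
      exact off_diag hρ hd hq0 h𝒩 hψ hψ1 hoff hq hq' h
    · subst h
      rw [if_pos rfl]
      have h5 : ∀ n ∈ 𝒩, w n * ∑ b ∈ range H, (cls q (ρ q) b * ψ (b + D * q * n)) *
          (cls q (ρ q) b * ψ (b + D * q * n)) ≤ w n * (H / q) := by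
        intro n _
        apply mul_le_mul_of_nonneg_left _ (hw n)
        rw [← sum_cls (hρ q hq) (hd q hq)]
        refine sum_le_sum fun b _ => ?_
        have e : (cls q (ρ q) b * ψ (b + D * q * n)) * (cls q (ρ q) b * ψ (b + D * q * n)) =
            cls q (ρ q) b * (ψ (b + D * q * n)) ^ 2 := by
          have := cls_mul_self q (ρ q) b
          calc _ = (cls q (ρ q) b * cls q (ρ q) b) * (ψ (b + D * q * n)) ^ 2 := by ring
            _ = _ := by rw [this]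
        rw [e]
        have h6 : (ψ (b + D * q * n)) ^ 2 ≤ 1 := by
          rw [← sq_abs]
          have := hψ1 (b + D * q * n)
          have h0 := abs_nonneg (ψ (b + D * q * n))
          nlinarith
        exact mul_le_of_le_one_right (cls_nonneg _ _ _) h6
      refine (sum_le_sum h5).trans ?_
      rw [← sum_mul]
      have h7 : (∑ n ∈ 𝒩, w n) * ((H : ℝ) / q) ≤ A * (H / q) :=
        mul_le_mul_of_nonneg_right hA (by positivity)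
      have h8 : (0 : ℝ) ≤ εo * H := by positivity
      have e : A * ((H : ℝ) / q) = A * (1 / q) * H := by ring
      linarith
    · rw [if_neg (by omega), zero_add]
      have := off_diag hρ hd hq0 h𝒩 hψ hψ1 hoff hq' hq h
      refine le_trans (le_of_eq ?_) this
      refine sum_congr rfl fun n _ => ?_
      congr 1
      refine sum_congr rfl fun b _ => ?_
      ring
  refine (sum_le_sum fun q hq => sum_le_sum fun q' hq' => h4 q hq q' hq').trans (le_of_eq ?_)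
  simp_rw [sum_add_distrib, sum_const, nsmul_eq_mul]
  have h9 : ∑ q ∈ 𝒬, ∑ q' ∈ 𝒬, (if q' = q then A * (1 / (q : ℝ)) * H else 0) =
      A * recip 𝒬 * H := by
    unfold recip
    rw [mul_sum, sum_mul]
    refine sum_congr rfl fun q hq => ?_
    rw [sum_ite_eq' 𝒬 q, if_pos hq]
  rw [h9]
  ring

/-- Cauchy–Schwarz -/
theorem bilinear_cs (F : ℕ → ℝ) (hF : ∀ b, |F b| ≤ 1) (Ps : Finset ℕ) (hPs : Ps ⊆ 𝒩)
    (hw : ∀ n, 0 ≤ w n) (hw1 : ∀ n ∈ Ps, 1 ≤ w n) {B : ℝ}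
    (hB : ∑ n ∈ 𝒩, w n * ∑ b ∈ range H, (∑ q ∈ 𝒬, cls q (ρ q) b * ψ (b + D * q * n)) ^ 2 ≤
      B * H) :
    |∑ p ∈ Ps, ∑ b ∈ range H, ∑ q ∈ 𝒬, F b * (cls q (ρ q) b * ψ (b + D * q * p))| ≤
      H * Real.sqrt (Ps.card * B) := by
  have h1 : ∑ p ∈ Ps, ∑ b ∈ range H, ∑ q ∈ 𝒬, F b * (cls q (ρ q) b * ψ (b + D * q * p)) =
      ∑ x ∈ Ps ×ˢ range H, F x.2 * ∑ q ∈ 𝒬, cls q (ρ q) x.2 * ψ (x.2 + D * q * x.1) := by
    rw [sum_product]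
    refine sum_congr rfl fun p _ => sum_congr rfl fun b _ => ?_
    rw [mul_sum]
  rw [h1]
  have h2 := sum_mul_sq_le_sq_mul_sq (Ps ×ˢ range H) (fun x => F x.2)
    (fun x => ∑ q ∈ 𝒬, cls q (ρ q) x.2 * ψ (x.2 + D * q * x.1))
  have h3 : ∑ x ∈ Ps ×ˢ range H, F x.2 ^ 2 ≤ Ps.card * H := by
    refine (sum_le_sum (g := fun _ => (1 : ℝ)) fun x _ => ?_).trans ?_
    · rw [← sq_abs]
      have := hF x.2
      have h0 := abs_nonneg (F x.2)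
      nlinarith
    · simp
  have h4 : ∑ x ∈ Ps ×ˢ range H, (∑ q ∈ 𝒬, cls q (ρ q) x.2 * ψ (x.2 + D * q * x.1)) ^ 2 ≤
      B * H := by
    refine le_trans ?_ hB
    rw [sum_product]
    refine le_trans (sum_le_sum (g := fun n => w n * ∑ b ∈ range H,
      (∑ q ∈ 𝒬, cls q (ρ q) b * ψ (b + D * q * n)) ^ 2) fun n hn => ?_) ?_
    · have h0 : 0 ≤ ∑ b ∈ range H, (∑ q ∈ 𝒬, cls q (ρ q) b * ψ (b + D * q * n)) ^ 2 :=
        sum_nonneg fun _ _ => by positivity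
      exact le_mul_of_one_le_left h0 (hw1 n hn)
    · apply sum_le_sum_of_subset_of_nonneg hPs
      intro n _ _
      exact mul_nonneg (hw n) (sum_nonneg fun _ _ => by positivity)
  have h5 : (0 : ℝ) ≤ ∑ x ∈ Ps ×ˢ range H,
      (∑ q ∈ 𝒬, cls q (ρ q) x.2 * ψ (x.2 + D * q * x.1)) ^ 2 := sum_nonneg fun _ _ => by positivity
  have h6 : (∑ x ∈ Ps ×ˢ range H, F x.2 * ∑ q ∈ 𝒬, cls q (ρ q) x.2 * ψ (x.2 + D * q * x.1)) ^ 2 ≤
      H ^ 2 * (Ps.card * B) := by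
    refine h2.trans ((mul_le_mul h3 h4 h5 (by positivity)).trans (le_of_eq ?_))
    ring
  have h7 : |∑ x ∈ Ps ×ˢ range H, F x.2 * ∑ q ∈ 𝒬, cls q (ρ q) x.2 * ψ (x.2 + D * q * x.1)| ≤
      Real.sqrt (H ^ 2 * (Ps.card * B)) := Real.abs_le_sqrt h6
  refine h7.trans (le_of_eq ?_)
  rw [Real.sqrt_mul (by positivity), Real.sqrt_sq (Nat.cast_nonneg _)]

end bil

end Pool.Agent.H78.OM
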