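import Pool.Agent.H78.OM.Fourier

/-!
# Cells: residue classes times blocks
-/

namespace Pool.Agent.H78.OM

open Finset

/-- the cell of `b`: residue class mod `R` and block of length `H / R` -/
def cell (H R : ℕ) (b : ℕ) : ℕ × ℕ := (b % R, (b % H) / (H / R))

/-- conditional expectation on the cells -/
noncomputable def EG (H R : ℕ) (G : ℕ → ℝ) (b : ℕ) : ℝ := cavg (range H) (cell H R) G b

theorem cell_period {H R : ℕ} (hRH : R ∣ H) (b : ℕ) : cell H R (b + H) = cell H R b := by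
  unfold cell
  obtain ⟨c, hc⟩ := hRH
  have h1 : (b + H) % R = b % R := by rw [hc, Nat.add_mul_mod_self_left]
  rw [h1, Nat.add_mod_right]

theorem EG_period {H R : ℕ} (hRH : R ∣ H) (G : ℕ → ℝ) (b : ℕ) :
    EG H R G (b + H) = EG H R G b := by
  unfold EG
  exact cavg_congr _ _ _ (cell_period hRH b)

theorem cell_nest {H R R' : ℕ} (hH : 0 < H) (h1 : R ∣ R') (h2 : R' ∣ H) {b c : ℕ}
    (h : cell H R' b = cell H R' c) : cell H R b = cell H R c := by
  unfold cell at *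
  rw [Prod.mk.injEq] at h ⊢
  obtain ⟨h3, h4⟩ := h
  have hR' : 0 < R' := Nat.pos_of_dvd_of_pos h2 hH
  have hR : 0 < R := Nat.pos_of_dvd_of_pos h1 hR'
  refine ⟨?_, ?_⟩
  · rw [← Nat.mod_mod_of_dvd b h1, ← Nat.mod_mod_of_dvd c h1, h3]
  · obtain ⟨s, rfl⟩ := h1
    obtain ⟨t, rfl⟩ := h2
    have hs : 0 < s := Nat.pos_of_mul_pos_left hR'
    have e1 : R * s * t / R = t * s := by
      rw [mul_assoc, Nat.mul_div_cancel_left _ hR, mul_comm]
    have e2 : R * s * t / (R * s) = t := Nat.mul_div_cancel_left _ hR'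
    rw [e1]
    rw [e2] at h4
    rw [← Nat.div_div_eq_div_mul, ← Nat.div_div_eq_div_mul, h4]

theorem EG_nonneg {H R : ℕ} {G : ℕ → ℝ} (h0 : ∀ b, 0 ≤ G b) (b : ℕ) : 0 ≤ EG H R G b :=
  cavg_nonneg _ _ _ (fun a _ => h0 a) b

theorem EG_le_one {H R : ℕ} {G : ℕ → ℝ} (h1 : ∀ b, G b ≤ 1) (b : ℕ) : EG H R G b ≤ 1 :=
  cavg_le_one _ _ _ (fun a _ => h1 a) b

/-- energy -/
noncomputable def energy (H R : ℕ) (G : ℕ → ℝ) : ℝ := ∑ b ∈ range H, EG H R G b ^ 2

theorem energy_sub {H R R' : ℕ} (hH : 0 < H) (h1 : R ∣ R') (h2 : R' ∣ H) (G : ℕ → ℝ) :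
    ∑ b ∈ range H, (EG H R' G b - EG H R G b) ^ 2 = energy H R' G - energy H R G := by
  unfold energy EG
  exact sum_cavg_sub_sq _ _ _ _ (fun b _ c _ h => cell_nest hH h1 h2 h)

theorem energy_le {H R : ℕ} {G : ℕ → ℝ} (h0 : ∀ b, 0 ≤ G b) (h1 : ∀ b, G b ≤ 1) :
    energy H R G ≤ ∑ b ∈ range H, G b :=
  sum_cavg_sq_le _ _ _ (fun a _ => h0 a) (fun a _ => h1 a)

theorem energy_nonneg {H R : ℕ} {G : ℕ → ℝ} : 0 ≤ energy H R G :=
  sum_nonneg fun _ _ => by positivity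

/-- decay of the Fourier coefficients near rationals with denominator `R` -/
theorem hat_decay {H R : ℕ} (hH : 0 < H) (hRH : R ∣ H) (G : ℕ → ℝ) (h0 : ∀ b, 0 ≤ G b)
    (h1 : ∀ b, G b ≤ 1) {ξ : ℕ} {u : ℤ} {β : ℝ} (hβ : |(ξ : ℝ) / H - u / R| ≤ β) :
    ‖hat H (fun b => G b - EG H R G b) ξ‖ ≤ 2 * Real.pi * β * (H / R) * H := by
  have hR : 0 < R := Nat.pos_of_dvd_of_pos hRH hH
  have hRR : (R : ℝ) ≠ 0 := by exact_mod_cast hR.ne'
  have hHR : (H : ℝ) ≠ 0 := by exact_mod_cast hH.ne'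
  set θ : ℝ := (ξ : ℝ) / H - u / R with hθ
  set M : ℕ := H / R with hM
  have hMpos : 0 < M := Nat.div_pos (Nat.le_of_dvd hH hRH) hR
  let h : ℕ → ℂ := fun b => ee (-(u * (b / R))) * ee (-(θ * (((b % H) / M : ℕ) * M)))
  have hconst : ∀ b ∈ range H, ∀ c ∈ range H, cell H R b = cell H R c → h b = h c := by
    intro b _ c _ hbc
    unfold cell at hbc
    rw [Prod.mk.injEq] at hbc
    obtain ⟨h3, h4⟩ := hbc
    simp only [h]
    rw [← hM] at h4
    rw [h4]
    congr 1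
    obtain ⟨z, hz⟩ : ∃ z : ℤ, (b : ℤ) = c + R * z := by
      have : (R : ℤ) ∣ (b : ℤ) - c := (Nat.modEq_iff_dvd.mp (show c ≡ b [MOD R] from h3.symm))
      obtain ⟨z, hz⟩ := this
      exact ⟨z, by linarith⟩
    have hz' : (b : ℝ) = c + R * z := by exact_mod_cast hz
    have : -((u : ℝ) * (b / R)) = -(u * (c / R)) + ((-(u * z) : ℤ) : ℝ) := by
      rw [hz']; push_cast; field_simp; ring
    rw [this, ee_add, ee_int, mul_one]
  have hzero : ∑ b ∈ range H, ((G b - EG H R G b : ℝ) : ℂ) * h b = 0 := by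
    have := sum_cavg_mul (𝕜 := ℂ) (range H) (cell H R) G h hconst
    have h5 : ∑ b ∈ range H, ((G b - EG H R G b : ℝ) : ℂ) * h b =
        ∑ b ∈ range H, (G b : ℂ) * h b - ∑ b ∈ range H, (EG H R G b : ℂ) * h b := by
      rw [← sum_sub_distrib]
      refine sum_congr rfl fun b _ => ?_
      push_cast; ring
    rw [h5]
    unfold EG
    rw [sub_eq_zero]
    exact this.symm
  have hval : hat H (fun b => G b - EG H R G b) ξ =
      ∑ b ∈ range H, ((G b - EG H R G b : ℝ) : ℂ) * (ee (-(ξ * (b / H))) - h b) := by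
    unfold hat
    simp_rw [mul_sub]
    rw [sum_sub_distrib, hzero, sub_zero]
  rw [hval]
  refine (norm_sum_le _ _).trans ?_
  have hterm : ∀ b ∈ range H, ‖((G b - EG H R G b : ℝ) : ℂ) * (ee (-(ξ * (b / H))) - h b)‖ ≤
      2 * Real.pi * β * (H / R) := by
    intro b hb
    rw [norm_mul]
    have e1 : ‖((G b - EG H R G b : ℝ) : ℂ)‖ ≤ 1 := by
      rw [Complex.norm_real, Real.norm_eq_abs, abs_le]
      have a1 := h0 b; have a2 := h1 b
      have a3 := EG_nonneg (H := H) (R := R) h0 b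
      have a4 := EG_le_one (H := H) (R := R) h1 b
      constructor <;> linarith
    have e2 : ‖ee (-(ξ * (b / H))) - h b‖ ≤ 2 * Real.pi * β * (H / R) := by
      have e3 : ee (-(ξ * (b / H))) = ee (-(u * (b / R))) * ee (-(θ * b)) := by
        rw [← ee_add]; congr 1; rw [hθ]; field_simp; ring
      simp only [h]
      rw [e3, ← mul_sub, norm_mul, norm_ee, one_mul]
      refine (norm_ee_sub_le _ _).trans ?_
      have hbH : b % H = b := Nat.mod_eq_of_lt (mem_range.mp hb)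
      rw [hbH]
      have e4 : -(θ * (b : ℝ)) - -(θ * (((b / M : ℕ) : ℝ) * M)) = -(θ * (((b % M : ℕ) : ℝ))) := by
        have : (b : ℝ) = ((b / M : ℕ) : ℝ) * M + ((b % M : ℕ) : ℝ) := by
          have := Nat.div_add_mod' b M
          exact_mod_cast this.symm
        linear_combination (-θ) * this
      rw [e4, abs_neg, abs_mul]
      have e5 : |((b % M : ℕ) : ℝ)| ≤ M := by
        rw [abs_of_nonneg (Nat.cast_nonneg _)]
        exact_mod_cast (Nat.mod_lt _ hMpos).le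
      have e6 : (M : ℝ) = H / R := by
        rw [hM]; exact Nat.cast_div hRH hRR
      have hβ0 : 0 ≤ β := (abs_nonneg _).trans hβ
      have e7 : |θ| * |((b % M : ℕ) : ℝ)| ≤ β * M :=
        mul_le_mul hβ e5 (abs_nonneg _) hβ0
      have hpi : 0 < 2 * Real.pi := Real.two_pi_pos
      rw [mul_assoc (2 * Real.pi), ← e6]
      exact mul_le_mul_of_nonneg_left e7 hpi.le
    calc _ ≤ 1 * (2 * Real.pi * β * (H / R)) :=
          mul_le_mul e1 e2 (norm_nonneg _) zero_le_one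
      _ = _ := one_mul _
  refine (sum_le_sum hterm).trans ?_
  rw [sum_const, card_range, nsmul_eq_mul]
  linarith

end Pool.Agent.H78.OM
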