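import Mathlib

/-!
# Conditional expectations on finite sets
-/

namespace Pool.Agent.H78.OM

open Finset

section cond

variable {α β γ : Type*} [DecidableEq β] [DecidableEq γ]

/-- average of `G` over the fibre of `π` through `b` -/
noncomputable def cavg (s : Finset α) (π : α → β) (G : α → ℝ) (b : α) : ℝ :=
  (∑ c ∈ s.filter (fun c => π c = π b), G c) / ((s.filter (fun c => π c = π b)).card : ℝ)

variable (s : Finset α) (π : α → β) (G : α → ℝ)

theorem cavg_congr {b c : α} (h : π b = π c) : cavg s π G b = cavg s π G c := by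
  unfold cavg; rw [h]

theorem cavg_nonneg (h0 : ∀ a ∈ s, 0 ≤ G a) (b : α) : 0 ≤ cavg s π G b := by
  unfold cavg
  exact div_nonneg (sum_nonneg fun c hc => h0 c (mem_filter.mp hc).1) (Nat.cast_nonneg _)

theorem cavg_le_one (h1 : ∀ a ∈ s, G a ≤ 1) (b : α) : cavg s π G b ≤ 1 := by
  unfold cavg
  apply div_le_one_of_le₀ _ (Nat.cast_nonneg _)
  refine (sum_le_sum fun c hc => h1 c (mem_filter.mp hc).1).trans ?_
  simp

/-- total over a fibre -/
theorem sum_fiber_cavg {b : α} :
    ∑ c ∈ s.filter (fun c => π c = π b), cavg s π G c =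
      ∑ c ∈ s.filter (fun c => π c = π b), G c := by
  have h : ∀ c ∈ s.filter (fun c => π c = π b), cavg s π G c = cavg s π G b := by
    intro c hc
    exact cavg_congr s π G (mem_filter.mp hc).2
  rw [sum_congr rfl h, sum_const, nsmul_eq_mul]
  unfold cavg
  by_cases hne : (s.filter (fun c => π c = π b)).card = 0
  · rw [card_eq_zero] at hne
    rw [hne]; simp
  · have : ((s.filter (fun c => π c = π b)).card : ℝ) ≠ 0 := by exact_mod_cast hne
    field_simp

/-- the conditional expectation is self adjoint against functions constant on the fibres -/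
theorem sum_cavg_mul {𝕜 : Type*} [RCLike 𝕜] (g : α → 𝕜)
    (hg : ∀ b ∈ s, ∀ c ∈ s, π b = π c → g b = g c) :
    ∑ b ∈ s, (cavg s π G b : 𝕜) * g b = ∑ b ∈ s, (G b : 𝕜) * g b := by
  classical
  rw [← sum_fiberwise_of_maps_to (g := π) (t := s.image π) (fun b hb => mem_image_of_mem π hb),
    ← sum_fiberwise_of_maps_to (g := π) (t := s.image π) (s := s)
      (fun b hb => mem_image_of_mem π hb)]
  refine sum_congr rfl fun t ht => ?_
  obtain ⟨b, hb, rfl⟩ := mem_image.mp ht
  have h1 : ∀ c ∈ s.filter (fun c => π c = π b), (cavg s π G c : 𝕜) * g c =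
      (cavg s π G c : 𝕜) * g b := by
    intro c hc
    rw [hg c (mem_filter.mp hc).1 b hb (mem_filter.mp hc).2]
  have h2 : ∀ c ∈ s.filter (fun c => π c = π b), (G c : 𝕜) * g c = (G c : 𝕜) * g b := by
    intro c hc
    rw [hg c (mem_filter.mp hc).1 b hb (mem_filter.mp hc).2]
  rw [sum_congr rfl h1, sum_congr rfl h2, ← sum_mul, ← sum_mul]
  congr 1
  have := sum_fiber_cavg s π G (b := b)
  exact_mod_cast this

theorem sum_cavg_sq : ∑ b ∈ s, cavg s π G b ^ 2 = ∑ b ∈ s, G b * cavg s π G b := by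
  have := sum_cavg_mul (𝕜 := ℝ) s π G (fun b => cavg s π G b)
    (fun b _ c _ h => cavg_congr s π G h)
  simp only [RCLike.ofReal_real_eq_id, id_eq] at this
  rw [← this]
  exact sum_congr rfl fun b _ => by ring

theorem sum_cavg_sq_le (h0 : ∀ a ∈ s, 0 ≤ G a) (h1 : ∀ a ∈ s, G a ≤ 1) :
    ∑ b ∈ s, cavg s π G b ^ 2 ≤ ∑ b ∈ s, G b := by
  rw [sum_cavg_sq]
  refine sum_le_sum fun b hb => ?_
  have := cavg_le_one s π G h1 b
  nlinarith [h0 b hb]

/-- Pythagoras for nested partitions -/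
theorem sum_cavg_sub_sq (π' : α → γ)
    (hnest : ∀ b ∈ s, ∀ c ∈ s, π' b = π' c → π b = π c) :
    ∑ b ∈ s, (cavg s π' G b - cavg s π G b) ^ 2 =
      ∑ b ∈ s, cavg s π' G b ^ 2 - ∑ b ∈ s, cavg s π G b ^ 2 := by
  have h1 : ∑ b ∈ s, cavg s π' G b * cavg s π G b = ∑ b ∈ s, G b * cavg s π G b := by
    have := sum_cavg_mul (𝕜 := ℝ) s π' G (fun b => cavg s π G b)
      (fun b hb c hc h => cavg_congr s π G (hnest b hb c hc h))
    simpa using this
  have h2 := sum_cavg_sq s π G
  have h3 : ∀ b ∈ s, (cavg s π' G b - cavg s π G b) ^ 2 =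
      cavg s π' G b ^ 2 - 2 * (cavg s π' G b * cavg s π G b) + cavg s π G b ^ 2 := by
    intro b _; ring
  rw [sum_congr rfl h3, sum_add_distrib, sum_sub_distrib, ← mul_sum, h1, ← h2]
  ring

end cond

end Pool.Agent.H78.OM
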