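import Pool.Agent.H78.OM.Jensen

/-!
# Counting the valid colourings
-/

namespace Pool.Agent.H78.OM

open Finset

theorem log_le_of_pos {V c : ℝ} (hV : 0 < V) (hc : 0 < c) : Real.log V ≤ Real.log c - 1 + V / c := by
  have h := Real.log_le_sub_one_of_pos (div_pos hV hc)
  rw [Real.log_div hV.ne' hc.ne'] at h
  linarith

namespace Sc

variable (S : Sc)

instance : NeZero S.m := ⟨S.hm.ne'⟩

open Classical in
/-- the valid colourings -/
noncomputable def Vs (j k : ℕ) : Finset (Fin (S.H j) → ZMod S.m) :=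
  univ.filter (fun x => S.Good j k (ext x))

open Classical in
/-- the candidates: colourings valid on the pieces -/
noncomputable def Cs (j k : ℕ) : Finset (Fin (S.H (j + 1)) → ZMod S.m) :=
  univ.filter (fun x => ∀ i < S.C, S.Good j (k + i * S.h j) (fun b => ext x (i * S.H j + b)))

theorem good_succ_iff (j k : ℕ) (x : ℕ → ZMod S.m) : S.Good (j + 1) k x ↔
    (∀ i < S.C, S.Good j (k + i * S.h j) (fun b => x (i * S.H j + b))) ∧
      S.New (j + 1) k x := Iff.rfl

open Classical in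
theorem card_Vs_succ (j k : ℕ) : ((S.Vs (j + 1) k).card : ℝ) =
    ∑ x : Fin (S.H (j + 1)) → ZMod S.m, (if x ∈ S.Cs j k then (1 : ℝ) else 0) *
      (if S.New (j + 1) k (ext x) then (1 : ℝ) else 0) := by
  unfold Vs Cs
  rw [card_filter]
  push_cast
  refine sum_congr rfl fun x _ => ?_
  simp only [mem_filter, mem_univ, true_and, good_succ_iff]
  by_cases h1 : ∀ i < S.C, S.Good j (k + i * S.h j) (fun b => ext x (i * S.H j + b))
  · by_cases h2 : S.New (j + 1) k (ext x)
    · rw [if_pos ⟨h1, h2⟩, if_pos h1, if_pos h2]; simp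
    · rw [if_neg (fun h => h2 h.2), if_neg h2]; simp
  · rw [if_neg (fun h => h1 h.1), if_neg h1]; simp

theorem card_Cs_le (j k : ℕ) : (S.Cs j k).card ≤ ∏ i ∈ range S.C, (S.Vs j (k + i * S.h j)).card := by
  classical
  have hb : ∀ i : Fin S.C, ∀ b : Fin (S.H j), (i : ℕ) * S.H j + b < S.H (j + 1) := by
    intro i b
    rw [H_succ]
    calc (i : ℕ) * S.H j + b < i * S.H j + S.H j := by have := b.2; omega
      _ = (i + 1) * S.H j := by ring
      _ ≤ S.C * S.H j := Nat.mul_le_mul_right _ i.2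
  let F : (Fin (S.H (j + 1)) → ZMod S.m) → (Fin S.C → Fin (S.H j) → ZMod S.m) :=
    fun x i b => x ⟨(i : ℕ) * S.H j + b, hb i b⟩
  have hmaps : ∀ x ∈ S.Cs j k, F x ∈ Fintype.piFinset
      (fun i : Fin S.C => S.Vs j (k + (i : ℕ) * S.h j)) := by
    intro x hx
    rw [Fintype.mem_piFinset]
    intro i
    unfold Cs at hx
    rw [mem_filter] at hx
    unfold Vs
    rw [mem_filter]
    refine ⟨mem_univ _, ?_⟩
    refine S.good_congr j _ _ _ ?_ (hx.2 i i.2)
    intro b hbl
    rw [ext_of_lt _ hbl, ext_of_lt _ (hb i ⟨b, hbl⟩)]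
  have hinj : Set.InjOn F (S.Cs j k) := by
    intro x _ y _ hxy
    funext a
    have hHpos := S.H_pos j
    have ha := a.2
    have hi : (a : ℕ) / S.H j < S.C := by
      rw [Nat.div_lt_iff_lt_mul hHpos]
      rw [← H_succ]; exact a.2
    have h1 := congrFun (congrFun hxy ⟨(a : ℕ) / S.H j, hi⟩) ⟨(a : ℕ) % S.H j, Nat.mod_lt _ hHpos⟩
    simp only [F] at h1
    have e : (⟨((⟨(a : ℕ) / S.H j, hi⟩ : Fin S.C) : ℕ) * S.H j +
        ((⟨(a : ℕ) % S.H j, Nat.mod_lt _ hHpos⟩ : Fin (S.H j)) : ℕ), hb _ _⟩ :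
          Fin (S.H (j + 1))) = a := by
      apply Fin.ext
      show (a : ℕ) / S.H j * S.H j + (a : ℕ) % S.H j = a
      exact Nat.div_add_mod' _ _
    rw [e] at h1
    exact h1
  have := card_le_card_of_injOn F hmaps hinj
  rw [Fintype.card_piFinset] at this
  rw [Finset.prod_range]
  exact this

theorem Vs_period (j k : ℕ) {Q : ℕ} (hQ : S.N j ∣ Q) : S.Vs j (k + Q) = S.Vs j k := by
  unfold Vs
  ext x
  simp only [mem_filter, mem_univ, true_and]
  exact S.good_period j k _ hQ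

theorem Cs_period (j k : ℕ) {Q : ℕ} (hQ : S.N j ∣ Q) : S.Cs j (k + Q) = S.Cs j k := by
  unfold Cs
  ext x
  simp only [mem_filter, mem_univ, true_and]
  refine forall_congr' fun i => forall_congr' fun _ => ?_
  have e : k + Q + i * S.h j = (k + i * S.h j) + Q := by ring
  rw [e]
  exact S.good_period j _ _ hQ

/-- average of the logarithm of the number of valid colourings -/
noncomputable def U (j : ℕ) : ℝ := (∑ k ∈ range (S.N j), Real.log (S.Vs j k).card) / S.N j

theorem sum_V_le (hpos : ∀ j k, 0 < (S.Vs j k).card) (j : ℕ) {η : ℝ}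
    (hη : ∀ x : ℕ → ZMod S.m, ∑ k ∈ range (S.M (j + 1)),
      (open Classical in if S.New (j + 1) k x then (1 : ℝ) else 0) ≤
        S.M (j + 1) * Real.exp (-η)) :
    ∑ k ∈ range (S.N (j + 1)), ((S.Vs (j + 1) k).card : ℝ) /
      ((∏ i ∈ range S.C, ((S.Vs j (k + i * S.h j)).card : ℝ)) * Real.exp (-η)) ≤
      S.N (j + 1) := by
  classical
  have hP : ∀ k, (0 : ℝ) < ∏ i ∈ range S.C, ((S.Vs j (k + i * S.h j)).card : ℝ) := by
    intro k
    apply prod_pos
    intro i _
    exact_mod_cast hpos j _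
  have hPper : ∀ k, ∏ i ∈ range S.C, ((S.Vs j (k + S.N j + i * S.h j)).card : ℝ) =
      ∏ i ∈ range S.C, ((S.Vs j (k + i * S.h j)).card : ℝ) := by
    intro k
    refine prod_congr rfl fun i _ => ?_
    have e : k + S.N j + i * S.h j = (k + i * S.h j) + S.N j := by ring
    rw [e, S.Vs_period j _ (dvd_refl _)]
  have hexp := Real.exp_pos (-η)
  -- expand
  have h1 : ∑ k ∈ range (S.N (j + 1)), ((S.Vs (j + 1) k).card : ℝ) /
      ((∏ i ∈ range S.C, ((S.Vs j (k + i * S.h j)).card : ℝ)) * Real.exp (-η)) =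
      ∑ x : Fin (S.H (j + 1)) → ZMod S.m, (∑ k ∈ range (S.N j * S.M (j + 1)),
        ((if x ∈ S.Cs j k then (1 : ℝ) else 0) /
          (∏ i ∈ range S.C, ((S.Vs j (k + i * S.h j)).card : ℝ))) *
        (if S.New (j + 1) k (ext x) then (1 : ℝ) else 0)) * (Real.exp (-η))⁻¹ := by
    have e1 : ∀ x : Fin (S.H (j + 1)) → ZMod S.m, (∑ k ∈ range (S.N j * S.M (j + 1)),
        ((if x ∈ S.Cs j k then (1 : ℝ) else 0) /
          (∏ i ∈ range S.C, ((S.Vs j (k + i * S.h j)).card : ℝ))) *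
        (if S.New (j + 1) k (ext x) then (1 : ℝ) else 0)) * (Real.exp (-η))⁻¹ =
        ∑ k ∈ range (S.N j * S.M (j + 1)), ((if x ∈ S.Cs j k then (1 : ℝ) else 0) /
          (∏ i ∈ range S.C, ((S.Vs j (k + i * S.h j)).card : ℝ))) *
        (if S.New (j + 1) k (ext x) then (1 : ℝ) else 0) * (Real.exp (-η))⁻¹ := by
      intro x; rw [sum_mul]
    rw [sum_congr rfl fun x _ => e1 x, sum_comm]
    refine sum_congr rfl fun k _ => ?_
    rw [card_Vs_succ, sum_div]
    refine sum_congr rfl fun x _ => ?_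
    have := (hP k).ne'
    field_simp
  rw [h1]
  have h2 : ∀ x : Fin (S.H (j + 1)) → ZMod S.m, (∑ k ∈ range (S.N j * S.M (j + 1)),
        ((if x ∈ S.Cs j k then (1 : ℝ) else 0) /
          (∏ i ∈ range S.C, ((S.Vs j (k + i * S.h j)).card : ℝ))) *
        (if S.New (j + 1) k (ext x) then (1 : ℝ) else 0)) * (Real.exp (-η))⁻¹ ≤
      (∑ k ∈ range (S.N j), (if x ∈ S.Cs j k then (1 : ℝ) else 0) /
          (∏ i ∈ range S.C, ((S.Vs j (k + i * S.h j)).card : ℝ))) * S.M (j + 1) := by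
    intro x
    rw [sum_range_mul_of_coprime (S.N_pos j) (S.M_pos (j + 1)) (S.coprime_N_M j)
      (fun k => by simp only [hPper, S.Cs_period j k (dvd_refl _)])
      (fun k => by simp only [S.new_period (j + 1) k (ext x) (dvd_refl _)])]
    rw [mul_assoc]
    apply mul_le_mul_of_nonneg_left _
    · apply sum_nonneg
      intro k _
      apply div_nonneg _ (hP k).le
      split_ifs <;> norm_num
    · rw [← div_eq_mul_inv, div_le_iff₀ hexp]
      exact hη _
  refine (sum_le_sum fun x _ => h2 x).trans ?_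
  rw [← sum_mul, sum_comm]
  have h3 : ∀ k ∈ range (S.N j), ∑ x : Fin (S.H (j + 1)) → ZMod S.m,
      (if x ∈ S.Cs j k then (1 : ℝ) else 0) /
          (∏ i ∈ range S.C, ((S.Vs j (k + i * S.h j)).card : ℝ)) ≤ 1 := by
    intro k _
    rw [← sum_div, div_le_one (hP k), sum_boole]
    have h := S.card_Cs_le j k
    have e : (univ.filter (fun x => x ∈ S.Cs j k)) = S.Cs j k := by
      ext x; simp
    rw [e]
    exact_mod_cast h
  have h4 : ∑ k ∈ range (S.N j), ∑ x : Fin (S.H (j + 1)) → ZMod S.m,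
      (if x ∈ S.Cs j k then (1 : ℝ) else 0) /
          (∏ i ∈ range S.C, ((S.Vs j (k + i * S.h j)).card : ℝ)) ≤ S.N j := by
    refine (sum_le_sum h3).trans ?_
    simp
  calc _ ≤ (S.N j : ℝ) * S.M (j + 1) := mul_le_mul_of_nonneg_right h4 (Nat.cast_nonneg _)
    _ = S.N (j + 1) := by
      show _ = ((S.N j * S.M (j + 1) : ℕ) : ℝ)
      push_cast; ring

theorem U_succ_le (hpos : ∀ j k, 0 < (S.Vs j k).card) (j : ℕ) {η : ℝ}
    (hη : ∀ x : ℕ → ZMod S.m, ∑ k ∈ range (S.M (j + 1)),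
      (open Classical in if S.New (j + 1) k x then (1 : ℝ) else 0) ≤
        S.M (j + 1) * Real.exp (-η)) : S.U (j + 1) ≤ S.C * S.U j - η := by
  have hP : ∀ k, (0 : ℝ) < ∏ i ∈ range S.C, ((S.Vs j (k + i * S.h j)).card : ℝ) := by
    intro k
    apply prod_pos
    intro i _
    exact_mod_cast hpos j _
  have hexp := Real.exp_pos (-η)
  have hNpos : (0 : ℝ) < S.N (j + 1) := by exact_mod_cast S.N_pos (j + 1)
  have hNpos' : (0 : ℝ) < S.N j := by exact_mod_cast S.N_pos j
  have hMpos' : (0 : ℝ) < S.M (j + 1) := by exact_mod_cast S.M_pos (j + 1)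
  have h1 : ∀ k ∈ range (S.N (j + 1)), Real.log (S.Vs (j + 1) k).card ≤
      (∑ i ∈ range S.C, Real.log (S.Vs j (k + i * S.h j)).card) - η - 1 +
      ((S.Vs (j + 1) k).card : ℝ) /
      ((∏ i ∈ range S.C, ((S.Vs j (k + i * S.h j)).card : ℝ)) * Real.exp (-η)) := by
    intro k _
    have h := log_le_of_pos (V := (S.Vs (j + 1) k).card)
      (c := (∏ i ∈ range S.C, ((S.Vs j (k + i * S.h j)).card : ℝ)) * Real.exp (-η))
      (by exact_mod_cast hpos _ _) (mul_pos (hP k) hexp)
    rw [Real.log_mul (hP k).ne' hexp.ne', Real.log_exp, Real.log_prod] at h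
    · linarith
    · intro i _
      have := hpos j (k + i * S.h j)
      positivity
  have h2 := sum_le_sum h1
  rw [sum_add_distrib] at h2
  have h3 := S.sum_V_le hpos j hη
  have h4 : ∑ k ∈ range (S.N (j + 1)), ((∑ i ∈ range S.C,
      Real.log (S.Vs j (k + i * S.h j)).card) - η - 1) =
      S.N (j + 1) * (S.C * S.U j - η - 1) := by
    rw [sum_sub_distrib, sum_sub_distrib, sum_comm]
    have h5 : ∀ i ∈ range S.C, ∑ k ∈ range (S.N (j + 1)),
        Real.log (S.Vs j (k + i * S.h j)).card = S.N (j + 1) * S.U j := by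
      intro i _
      have hper : ∀ k, Real.log (S.Vs j (k + S.N j)).card = Real.log (S.Vs j k).card := by
        intro k; rw [S.Vs_period j k (dvd_refl _)]
      have e1 : S.N (j + 1) = S.N j * S.M (j + 1) := rfl
      rw [e1, sum_range_shift (f := fun k => Real.log (S.Vs j k).card) (fun k => by
        rw [S.Vs_period j k (Dvd.intro _ rfl)]),
        sum_range_mul_period (f := fun k => Real.log (S.Vs j k).card) hper]
      unfold U
      push_cast
      field_simp
    rw [sum_congr rfl h5]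
    simp
    ring
  rw [h4] at h2
  unfold U at *
  rw [div_le_iff₀ hNpos]
  nlinarith

end Sc

end Pool.Agent.H78.OM
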