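import Pool.Agent.H78.OM.Cells

/-!
# Counting in residue classes and cells
-/

namespace Pool.Agent.H78.OM

open Finset

/-- indicator of a residue class -/
def cls (q ρ b : ℕ) : ℝ := if b % q = ρ then 1 else 0

theorem cls_nonneg (q ρ b : ℕ) : 0 ≤ cls q ρ b := by unfold cls; split_ifs <;> norm_num

theorem cls_le_one (q ρ b : ℕ) : cls q ρ b ≤ 1 := by unfold cls; split_ifs <;> norm_num

theorem cls_sq (q ρ b : ℕ) : cls q ρ b ^ 2 = cls q ρ b := by unfold cls; split_ifs <;> norm_num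

theorem cls_mul_self (q ρ b : ℕ) : cls q ρ b * cls q ρ b = cls q ρ b := by
  unfold cls; split_ifs <;> norm_num

theorem cls_period {q H : ℕ} (h : q ∣ H) (ρ b : ℕ) : cls q ρ (b + H) = cls q ρ b := by
  unfold cls
  obtain ⟨c, rfl⟩ := h
  rw [Nat.add_mul_mod_self_left]

theorem sum_cls_self {q ρ : ℕ} (hρ : ρ < q) : ∑ b ∈ range q, cls q ρ b = 1 := by
  have : ∀ b ∈ range q, cls q ρ b = if b = ρ then 1 else 0 := by
    intro b hb
    unfold cls
    rw [Nat.mod_eq_of_lt (mem_range.mp hb)]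
  rw [sum_congr rfl this, sum_ite_eq' (range q) ρ, if_pos (mem_range.mpr hρ)]

theorem sum_cls {q H ρ : ℕ} (hρ : ρ < q) (h : q ∣ H) :
    ∑ b ∈ range H, cls q ρ b = (H : ℝ) / q := by
  obtain ⟨c, rfl⟩ := h
  have hq : (q : ℝ) ≠ 0 := by
    have : 0 < q := by omega
    exact_mod_cast this.ne'
  rw [sum_range_mul_period (f := cls q ρ) (fun k => cls_period (dvd_refl _) ρ k), sum_cls_self hρ]
  push_cast
  field_simp

theorem sum_cls_mul {q q' H ρ ρ' : ℕ} (hρ : ρ < q) (hρ' : ρ' < q') (hc : Nat.Coprime q q')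
    (h : q * q' ∣ H) :
    ∑ b ∈ range H, cls q ρ b * cls q' ρ' b = (H : ℝ) / (q * q') := by
  obtain ⟨c, rfl⟩ := h
  have hq0 : 0 < q := by omega
  have hq0' : 0 < q' := by omega
  have hq : (q : ℝ) ≠ 0 := by exact_mod_cast hq0.ne'
  have hq' : (q' : ℝ) ≠ 0 := by exact_mod_cast hq0'.ne'
  rw [sum_range_mul_period (f := fun b => cls q ρ b * cls q' ρ' b)
    (fun k => by rw [cls_period (Dvd.intro _ rfl) ρ k, cls_period (Dvd.intro_left _ rfl) ρ' k]),
    sum_range_mul_of_coprime hq0 hq0' hc (fun k => cls_period (dvd_refl _) ρ k)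
      (fun k => cls_period (dvd_refl _) ρ' k), sum_cls_self hρ, sum_cls_self hρ']
  push_cast
  field_simp

/-- number of classes hit -/
noncomputable def om (𝒬 : Finset ℕ) (ρ : ℕ → ℕ) (b : ℕ) : ℝ := ∑ q ∈ 𝒬, cls q (ρ q) b

/-- reciprocal sum -/
noncomputable def recip (𝒬 : Finset ℕ) : ℝ := ∑ q ∈ 𝒬, 1 / (q : ℝ)

theorem recip_nonneg (𝒬 : Finset ℕ) : 0 ≤ recip 𝒬 := sum_nonneg fun _ _ => by positivity

section TK

variable {𝒬 : Finset ℕ} {ρ : ℕ → ℕ} {H : ℕ}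

theorem sum_om (hρ : ∀ q ∈ 𝒬, ρ q < q) (hd : ∀ q ∈ 𝒬, q ∣ H) :
    ∑ b ∈ range H, om 𝒬 ρ b = H * recip 𝒬 := by
  unfold om recip
  rw [sum_comm, mul_sum]
  refine sum_congr rfl fun q hq => ?_
  rw [sum_cls (hρ q hq) (hd q hq)]; ring

theorem sum_om_sq_le (hp : ∀ q ∈ 𝒬, q.Prime) (hρ : ∀ q ∈ 𝒬, ρ q < q) (hd : ∀ q ∈ 𝒬, q ∣ H) :
    ∑ b ∈ range H, om 𝒬 ρ b ^ 2 ≤ H * (recip 𝒬 ^ 2 + recip 𝒬) := by
  have h1 : ∀ b, om 𝒬 ρ b ^ 2 = ∑ q ∈ 𝒬, ∑ q' ∈ 𝒬, cls q (ρ q) b * cls q' (ρ q') b := by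
    intro b
    unfold om
    rw [pow_two, sum_mul_sum]
  simp_rw [h1]
  rw [sum_comm]
  have h2 : ∀ q ∈ 𝒬, ∑ b ∈ range H, ∑ q' ∈ 𝒬, cls q (ρ q) b * cls q' (ρ q') b ≤
      H * (1 / q * recip 𝒬 + 1 / q) := by
    intro q hq
    rw [sum_comm]
    have h3 : ∀ q' ∈ 𝒬, ∑ b ∈ range H, cls q (ρ q) b * cls q' (ρ q') b ≤
        H * (1 / q * (1 / q')) + if q' = q then (H : ℝ) * (1 / q) else 0 := by
      intro q' hq'
      split_ifs with h
      · subst h
        simp_rw [cls_mul_self]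
        rw [sum_cls (hρ q' hq') (hd q' hq')]
        have : (0 : ℝ) ≤ H * (1 / q' * (1 / q')) := by positivity
        linarith [this, show (H : ℝ) / q' = H * (1 / q') by ring]
      · have hc : Nat.Coprime q q' := (Nat.coprime_primes (hp q hq) (hp q' hq')).mpr (Ne.symm h)
        rw [sum_cls_mul (hρ q hq) (hρ q' hq') hc (hc.mul_dvd_of_dvd_of_dvd (hd q hq) (hd q' hq'))]
        apply le_of_eq
        ring
    refine (sum_le_sum h3).trans (le_of_eq ?_)
    rw [sum_add_distrib, sum_ite_eq' 𝒬 q, if_pos hq]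
    unfold recip
    rw [mul_add, mul_sum, mul_sum]
  refine (sum_le_sum h2).trans (le_of_eq ?_)
  rw [← mul_sum, sum_add_distrib, ← sum_mul]
  unfold recip
  ring

/-- Turán–Kubilius -/
theorem sum_abs_om_sub (hp : ∀ q ∈ 𝒬, q.Prime) (hρ : ∀ q ∈ 𝒬, ρ q < q)
    (hd : ∀ q ∈ 𝒬, q ∣ H) :
    ∑ b ∈ range H, |om 𝒬 ρ b - recip 𝒬| ≤ H * Real.sqrt (recip 𝒬) := by
  have h1 : ∑ b ∈ range H, (om 𝒬 ρ b - recip 𝒬) ^ 2 ≤ H * recip 𝒬 := by
    have h2 : ∀ b ∈ range H, (om 𝒬 ρ b - recip 𝒬) ^ 2 =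
        om 𝒬 ρ b ^ 2 - 2 * recip 𝒬 * om 𝒬 ρ b + recip 𝒬 ^ 2 := by
      intro b _; ring
    rw [sum_congr rfl h2, sum_add_distrib, sum_sub_distrib, ← mul_sum, sum_om hρ hd]
    have := sum_om_sq_le hp hρ hd
    rw [sum_const, card_range, nsmul_eq_mul]
    nlinarith
  have h3 := sum_mul_sq_le_sq_mul_sq (range H) (fun _ => (1 : ℝ)) (fun b => |om 𝒬 ρ b - recip 𝒬|)
  simp only [one_mul, one_pow, sq_abs, sum_const, card_range, nsmul_eq_mul, mul_one] at h3
  have h4 : (∑ b ∈ range H, |om 𝒬 ρ b - recip 𝒬|) ^ 2 ≤ (H * Real.sqrt (recip 𝒬)) ^ 2 := by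
    refine h3.trans ?_
    rw [mul_pow, Real.sq_sqrt (recip_nonneg 𝒬)]
    calc (H : ℝ) * ∑ b ∈ range H, (om 𝒬 ρ b - recip 𝒬) ^ 2 ≤ H * (H * recip 𝒬) :=
          mul_le_mul_of_nonneg_left h1 (Nat.cast_nonneg _)
      _ = _ := by ring
  exact (pow_le_pow_iff_left₀ (sum_nonneg fun _ _ => abs_nonneg _) (by positivity)
    two_ne_zero).mp h4

/-- weighted `L¹` bound for functions with small `L²` norm -/
theorem sum_om_mul_abs (hp : ∀ q ∈ 𝒬, q.Prime) (hρ : ∀ q ∈ 𝒬, ρ q < q) (hd : ∀ q ∈ 𝒬, q ∣ H)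
    (f : ℕ → ℝ) {ε : ℝ} (hK : 1 ≤ recip 𝒬) (hf : ∑ b ∈ range H, f b ^ 2 ≤ ε * H) :
    ∑ b ∈ range H, om 𝒬 ρ b * |f b| ≤ H * recip 𝒬 * Real.sqrt (2 * ε) := by
  rcases Nat.eq_zero_or_pos H with rfl | hH
  · simp
  have hHR : (0 : ℝ) < H := by exact_mod_cast hH
  have hε : 0 ≤ ε := by
    have h0 : 0 ≤ ∑ b ∈ range H, f b ^ 2 := sum_nonneg fun _ _ => by positivity
    by_contra hneg
    push Not at hneg
    nlinarith
  have h3 := sum_mul_sq_le_sq_mul_sq (range H) (fun b => om 𝒬 ρ b) (fun b => |f b|)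
  simp only [sq_abs] at h3
  have h4 : (∑ b ∈ range H, om 𝒬 ρ b * |f b|) ^ 2 ≤ (H * recip 𝒬 * Real.sqrt (2 * ε)) ^ 2 := by
    refine h3.trans ?_
    have h5 := sum_om_sq_le hp hρ hd
    rw [mul_pow, Real.sq_sqrt (by positivity)]
    have hom : 0 ≤ ∑ b ∈ range H, om 𝒬 ρ b ^ 2 := sum_nonneg fun _ _ => by positivity
    have h6 : (H : ℝ) * (recip 𝒬 ^ 2 + recip 𝒬) ≤ H * (2 * recip 𝒬 ^ 2) := by
      apply mul_le_mul_of_nonneg_left _ hHR.le
      nlinarith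
    calc _ ≤ (H * (2 * recip 𝒬 ^ 2)) * (ε * H) :=
          mul_le_mul (h5.trans h6) hf (sum_nonneg fun _ _ => by positivity) (by positivity)
      _ = _ := by ring
  refine (pow_le_pow_iff_left₀ (sum_nonneg fun b _ => mul_nonneg ?_ (abs_nonneg _)) ?_
    two_ne_zero).mp h4
  · exact sum_nonneg fun _ _ => cls_nonneg _ _ _
  · have := recip_nonneg 𝒬
    positivity

end TK

/-- the cells have `H / R²` elements -/
theorem card_cell {H R r j : ℕ} (hH : 0 < H) (hR : R * R ∣ H) (hr : r < R) (hj : j < R) :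
    ((range H).filter (fun b => cell H R b = (r, j))).card = H / (R * R) := by
  obtain ⟨T, rfl⟩ := hR
  have hR0 : 0 < R := by omega
  have hT : 0 < T := Nat.pos_of_mul_pos_left hH
  have e1 : R * R * T / (R * R) = T := Nat.mul_div_cancel_left _ (Nat.mul_pos hR0 hR0)
  have e2 : R * R * T / R = R * T := by rw [mul_assoc, Nat.mul_div_cancel_left _ hR0]
  rw [e1]
  conv_rhs => rw [← card_range T]
  symm
  refine card_bij (fun s _ => j * (R * T) + (r + R * s)) ?_ ?_ ?_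
  · intro s hs
    have hs' := mem_range.mp hs
    have h1 : r + R * s < R * T := by
      calc r + R * s < R + R * s := by omega
        _ = R * (s + 1) := by ring
        _ ≤ R * T := Nat.mul_le_mul_left _ hs'
    have h2 : j * (R * T) + (r + R * s) < R * R * T := by
      calc j * (R * T) + (r + R * s) < j * (R * T) + R * T := by omega
        _ = (j + 1) * (R * T) := by ring
        _ ≤ R * (R * T) := Nat.mul_le_mul_right _ hj
        _ = _ := by ring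
    rw [mem_filter, mem_range]
    refine ⟨h2, ?_⟩
    unfold cell
    rw [e2, Nat.mod_eq_of_lt h2, Prod.mk.injEq]
    constructor
    · have : j * (R * T) + (r + R * s) = r + R * (j * T + s) := by ring
      rw [this, Nat.add_mul_mod_self_left, Nat.mod_eq_of_lt hr]
    · rw [Nat.div_eq_of_lt_le]
      · omega
      · calc j * (R * T) + (r + R * s) < j * (R * T) + R * T := by omega
          _ = (j + 1) * (R * T) := by ring
  · intro s _ s' _ h
    have : R * s = R * s' := by omega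
    exact Nat.eq_of_mul_eq_mul_left hR0 this
  · intro b hb
    rw [mem_filter, mem_range] at hb
    obtain ⟨hb1, hb2⟩ := hb
    unfold cell at hb2
    rw [e2, Nat.mod_eq_of_lt hb1, Prod.mk.injEq] at hb2
    obtain ⟨h3, h4⟩ := hb2
    have hRT : 0 < R * T := Nat.mul_pos hR0 hT
    have h5 := Nat.div_add_mod' b (R * T)
    rw [h4] at h5
    have h6 : (b % (R * T)) % R = r := by
      rw [Nat.mod_mul_right_mod, h3]
    have h7 := Nat.div_add_mod' (b % (R * T)) R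
    rw [h6] at h7
    refine ⟨b % (R * T) / R, ?_, ?_⟩
    · rw [mem_range, Nat.div_lt_iff_lt_mul hR0, mul_comm T R]
      exact Nat.mod_lt _ hRT
    · show j * (R * T) + (r + R * (b % (R * T) / R)) = b
      rw [mul_comm R (b % (R * T) / R), add_comm r, h7, h5]

end Pool.Agent.H78.OM
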