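import Mathlib

/-!
# Colourings of windows: definitions
-/

namespace Pool.Agent.H78.OM

/-- a completely additive function with values in `ZMod m` which is `1` at all primes
`≡ 1 (mod M0)`, where `4 ∣ M0` -/
structure Par (m : ℕ) where
  M0 : ℕ
  v : ℕ → ZMod m
  hM : 0 < M0
  h4 : 4 ∣ M0
  mul : ∀ a b : ℕ, a ≠ 0 → b ≠ 0 → v (a * b) = v a + v b
  one : ∀ p : ℕ, p.Prime → p ≡ 1 [MOD M0] → v p = 1

/-- every prime factor of `d` is `2` or `≡ 1 (mod M0)` -/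
def Adm (M0 d : ℕ) : Prop := ∀ p : ℕ, p.Prime → p ∣ d → p = 2 ∨ p ≡ 1 [MOD M0]

/-- the primes `p ≡ 1 (mod M0)` with `H / C₀ < p ≤ H` -/
def PS (M0 C0 H : ℕ) : Finset ℕ :=
  (Finset.range (H + 1)).filter (fun p => p.Prime ∧ p ≡ 1 [MOD M0] ∧ H < C0 * p)

/-- the colouring `x` has a conflict at `b` at distance `D * p` for some small `D ∣ b ^ 2 + 1` -/
def Conf {m : ℕ} (π : Par m) (H Dm : ℕ) (x : ℕ → ZMod m) (b p : ℕ) : Prop :=
  ∃ D, 0 < D ∧ D ≤ Dm ∧ Adm π.M0 D ∧ D ∣ b ^ 2 + 1 ∧ b + D * p < H ∧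
    x b + x (b + D * p) = 2 * π.v (D * p)

open Classical in
/-- the key lemma: every colouring of a long window has many conflicts -/
def KL {m : ℕ} (π : Par m) : Prop :=
  ∃ Dm C0 W H0 : ℕ, ∃ κ : ℝ, 0 < κ ∧ 0 < W ∧ 2 ≤ C0 ∧ ∀ H : ℕ, H0 ≤ H → W ∣ H →
    ∀ x : ℕ → ZMod m, κ * (H : ℝ) ^ 2 / Real.log H ≤
      (((Finset.range H ×ˢ PS π.M0 C0 H).filter (fun q => Conf π H Dm x q.1 q.2)).card : ℝ)

/-- the finite contradiction: there is a window without valid colouring -/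
def FCT {m : ℕ} (π : Par m) : Prop :=
  ∃ H n : ℕ, ∀ x : ℕ → ZMod m, ∃ b d : ℕ, 0 < d ∧ b + d < H ∧ Adm π.M0 d ∧ d ∣ (n + b) ^ 2 + 1 ∧
    x b + x (b + d) = 2 * π.v d

end Pool.Agent.H78.OM
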