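import Pool.Agent.H78.OM.Final
import Pool.Agent.H6.AP.Main

/-!
# Residues of completely additive functions at `a ^ 2 + 1`
-/

namespace Pool.Agent.H78.OM

open Finset ArithmeticFunction
open Pool.Agent.H6.AP

/-- the completely additive function with value `g2` at `2` and `1` at all odd primes -/
noncomputable def stdv (m : ℕ) (g2 : ZMod m) (d : ℕ) : ZMod m :=
  (cardFactors d : ZMod m) + (g2 - 1) * (padicValNat 2 d : ZMod m)

theorem stdv_mul (m : ℕ) (g2 : ZMod m) (a b : ℕ) (ha : a ≠ 0) (hb : b ≠ 0) :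
    stdv m g2 (a * b) = stdv m g2 a + stdv m g2 b := by
  unfold stdv
  rw [cardFactors_mul ha hb, padicValNat.mul ha hb]
  push_cast; ring

theorem stdv_two (m : ℕ) (g2 : ZMod m) : stdv m g2 2 = g2 := by
  unfold stdv
  rw [cardFactors_apply_prime Nat.prime_two, padicValNat_self]
  push_cast; ring

theorem stdv_prime (m : ℕ) (g2 : ZMod m) {p : ℕ} (hp : p.Prime) (h2 : p ≠ 2) :
    stdv m g2 p = 1 := by
  unfold stdv
  have h : padicValNat 2 p = 0 := by
    apply padicValNat.eq_zero_of_not_dvd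
    intro h
    exact h2 ((Nat.prime_dvd_prime_iff_eq Nat.prime_two hp).mp h).symm
  rw [cardFactors_apply_prime hp, h]
  push_cast; ring

theorem ne_two_of_modEq {M0 p : ℕ} (h4 : 4 ∣ M0) (h : p ≡ 1 [MOD M0]) : p ≠ 2 := by
  rintro rfl
  have := h.of_dvd h4
  simp [Nat.ModEq] at this

/-- the parameters of the local theorem -/
noncomputable def parOf (m M0 : ℕ) (hM : 0 < M0) (h4 : 4 ∣ M0) (g2 : ZMod m) : Par m where
  M0 := M0
  v := stdv m g2
  hM := hM
  h4 := h4
  mul := stdv_mul m g2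
  one := fun _ hp h => stdv_prime m g2 hp (ne_two_of_modEq h4 h)

/-- agreement of additive functions at admissible integers -/
theorem agree {m m0 p0 z : ℕ} (g : ℕ → ZMod m)
    (hg : ∀ a b : ℕ, a ≠ 0 → b ≠ 0 → g (a * b) = g a + g b)
    (hg1 : ∀ p : ℕ, p.Prime → p0 ≤ p → p ≤ z → p ≡ 1 [MOD m0] → g p = 1) (d : ℕ) :
    0 < d → d ≤ z → Adm (4 * m0 * p0.factorial) d → g d = stdv m (g 2) d := by
  have hg0 : g 1 = 0 := by
    have := hg 1 1 one_ne_zero one_ne_zero
    simpa using this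
  induction d using Nat.strong_induction_on with
  | _ d ih =>
    intro hd hdz hadm
    rcases Nat.lt_or_ge 1 d with h1 | h1
    · set p := d.minFac with hp
      have hpp : p.Prime := Nat.minFac_prime (by omega)
      obtain ⟨d', hd'⟩ := Nat.minFac_dvd d
      rw [← hp] at hd'
      have hd'0 : 0 < d' := by
        rcases Nat.eq_zero_or_pos d' with h | h
        · rw [h, mul_zero] at hd'; omega
        · exact h
      have hlt : d' < d := by
        rw [hd']
        have := hpp.two_le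
        nlinarith
      have hpd : p ≤ z := (Nat.le_of_dvd hd (Nat.minFac_dvd d)).trans hdz
      have hadm' : Adm (4 * m0 * p0.factorial) d' := fun r hr hrd =>
        hadm r hr (hrd.trans (hd' ▸ Dvd.intro_left _ rfl))
      have e1 : g d = g p + g d' := by
        conv_lhs => rw [hd']
        exact hg _ _ hpp.ne_zero hd'0.ne'
      have e2 : stdv m (g 2) d = stdv m (g 2) p + stdv m (g 2) d' := by
        conv_lhs => rw [hd']
        exact stdv_mul _ _ _ _ hpp.ne_zero hd'0.ne'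
      have e3 := ih d' hlt hd'0 (by omega) hadm'
      have e4 : g p = stdv m (g 2) p := by
        rcases hadm p hpp (Nat.minFac_dvd d) with h | h
        · rw [h, stdv_two]
        · have h4 : 4 ∣ 4 * m0 * p0.factorial := ⟨m0 * p0.factorial, by ring⟩
          rw [stdv_prime m (g 2) hpp (ne_two_of_modEq h4 h)]
          apply hg1 p hpp _ hpd (h.of_dvd ⟨4 * p0.factorial, by ring⟩)
          by_contra hlt'
          push Not at hlt'
          have h5 : p ∣ 4 * m0 * p0.factorial :=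
            dvd_mul_of_dvd_right (Nat.dvd_factorial hpp.pos hlt'.le) _
          have h6 : p ≡ 1 [MOD p] := h.of_dvd h5
          have h7 : p ∣ 1 := (Nat.ModEq.dvd_iff h6 (dvd_refl _)).mp (dvd_refl _)
          exact hpp.one_lt.ne' (Nat.dvd_one.mp h7)
      rw [e1, e2, e3, e4]
    · have : d = 1 := by omega
      rw [this, hg0]
      unfold stdv
      simp

/-- the finite system of edges -/
theorem exists_edges (m m0 p0 : ℕ) (hm : 0 < m) (hm0 : 0 < m0) :
    ∃ (E : Finset (ℕ × ℕ × ℕ × ℕ)) (Q z : ℕ), 0 < Q ∧ EdgeOK Q 0 E ∧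
      ∀ g : ℕ → ZMod m, (∀ a b : ℕ, a ≠ 0 → b ≠ 0 → g (a * b) = g a + g b) →
      (∀ p : ℕ, p.Prime → p0 ≤ p → p ≤ z → p ≡ 1 [MOD m0] → g p = 1) →
      ∀ s : ZMod m, Unsat E g (2 * s) := by
  classical
  have : NeZero m := ⟨hm.ne'⟩
  set M0 := 4 * m0 * p0.factorial with hM0
  have hM : 0 < M0 := by
    have := Nat.factorial_pos p0
    positivity
  have h4 : 4 ∣ M0 := ⟨m0 * p0.factorial, by rw [hM0]; ring⟩
  have hf : ∀ g2 : ZMod m, ∃ H n : ℕ, ∀ x : ℕ → ZMod m, ∃ b d : ℕ, 0 < d ∧ b + d < H ∧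
      Adm M0 d ∧ d ∣ (n + b) ^ 2 + 1 ∧ x b + x (b + d) = 2 * stdv m g2 d :=
    fun g2 => fct hm (parOf m M0 hM h4 g2)
  choose H n hHn using hf
  let E : Finset (ℕ × ℕ × ℕ × ℕ) := (univ : Finset (ZMod m)).biUnion (fun g2 =>
    ((range (H g2) ×ˢ range (H g2)).filter (fun bd : ℕ × ℕ => 0 < bd.2 ∧
      bd.2 ∣ (n g2 + bd.1) ^ 2 + 1)).image (fun bd => (n g2 + bd.1 + bd.2, 1, n g2 + bd.1, bd.2)))
  let z : ℕ := (univ : Finset (ZMod m)).sup H
  have hz : ∀ g2, H g2 ≤ z := fun g2 => le_sup (f := H) (mem_univ g2)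
  refine ⟨E, z.factorial, z, Nat.factorial_pos _, ?_, ?_⟩
  · intro x hx
    simp only [E, mem_biUnion, mem_image, mem_filter, mem_product, mem_range] at hx
    obtain ⟨g2, _, ⟨b, d⟩, ⟨⟨hb, hdH⟩, hd, hdvd⟩, rfl⟩ := hx
    simp only at hb hdH hd hdvd ⊢
    refine ⟨Nat.one_pos, hd, by ring, ?_, ?_⟩
    · exact Nat.dvd_factorial hd (hdH.le.trans (hz g2))
    · rw [zero_add]
      have : (n g2 + b + d) ^ 2 + 1 = d * (2 * (n g2 + b) + d) + ((n g2 + b) ^ 2 + 1) := by ring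
      rw [this]
      exact dvd_add (Dvd.intro _ rfl) hdvd
  · intro g hg hg1 s c
    obtain ⟨b, d, hd, hbd, hadm, hdvd, heq⟩ := hHn (g 2) (fun b => c (1, n (g 2) + b) - s)
    refine ⟨(n (g 2) + b + d, 1, n (g 2) + b, d), ?_, ?_⟩
    · simp only [E, mem_biUnion, mem_image, mem_filter, mem_product, mem_range]
      exact ⟨g 2, mem_univ _, (b, d), ⟨⟨by omega, by omega⟩, hd, hdvd⟩, rfl⟩
    · simp only
      have hdz : d ≤ z := by
        have := hz (g 2)
        omega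
      rw [agree g hg hg1 d hd hdz hadm]
      have e : n (g 2) + (b + d) = n (g 2) + b + d := by ring
      rw [e] at heq
      linear_combination heq

/-- the main theorem -/
theorem allModuli (m m0 p0 : ℕ) (hm : 0 < m) (hm0 : 0 < m0) (ε : ℝ) (hε : 0 < ε) :
    ∃ z K X0 : ℕ, ∀ X : ℕ, X0 ≤ X → ∀ g : ℕ → ZMod m,
      (∀ a b : ℕ, a ≠ 0 → b ≠ 0 → g (a * b) = g a + g b) →
      (∀ p : ℕ, p.Prime → p0 ≤ p → p ≤ z → p ≡ 1 [MOD m0] → g p = 1) → ∀ s : ZMod m,
      (X : ℝ) ^ (1 - ε) ≤ (((Icc 1 X).filter (fun a =>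
        cardFactors (a ^ 2 + 1) ≤ K ∧ g (a ^ 2 + 1) = 2 * s)).card : ℝ) := by
  obtain ⟨E, Q, z, hQ, hE, hU⟩ := exists_edges m m0 p0 hm hm0
  obtain ⟨K, X0, h⟩ := count (m0 := 1) hQ (one_dvd _) hE
    (fun x _ => ⟨one_dvd _, one_dvd _⟩) ε hε
  refine ⟨z, K, X0, fun X hX g hg hg1 s => ?_⟩
  have h1 := h X hX m g hg (2 * s) (hU g hg hg1 s)
  simp only [one_dvd, true_and] at h1
  exact h1

end Pool.Agent.H78.OM
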