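import Pool.Agent.H78.OM.Step1

/-!
# One step of the energy increment: all constants
-/

namespace Pool.Agent.H78.OM

open Finset

theorem step1 (hmaj : MAJ) {c1 : ℝ} (hc1 : 0 < c1) (M0 Dm R : ℕ) (hDm : 0 < Dm) (hR : 0 < R)
    (h4M : 4 ∣ M0) (hMR : M0 ∣ R) :
    ∃ (Bq C0 H0 R0' : ℕ) (κ : ℝ), 0 < κ ∧ 2 ≤ C0 ∧ 0 < R0' ∧ R ∣ R0' ∧
    ∀ D a, 0 < D → D ≤ Dm → a.Coprime R → a ≡ 1 [MOD M0] → ∀ R', 0 < R' → R0' ∣ R' →
    ∀ H, H0 ≤ H → 0 < H → R' ∣ H → ∀ F G : ℕ → ℝ, (∀ b, 0 ≤ F b) → (∀ b, F b ≤ 1) →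
    (∀ b, G (b + H) = G b) → (∀ b, 0 ≤ G b) → (∀ b, G b ≤ 1) →
    energy H R' G - energy H R G ≤ (c1 ^ 2 / 32) * H →
    c1 * H ≤ ∑ b ∈ range H, F b * cval H R G ((b + D * a) % R, b / (H / R)) →
    κ * (H : ℝ) ^ 2 / Real.log H ≤ ((Gd M0 D R Bq C0 H F G).card : ℝ) := by
  classical
  have h4 : 4 ∣ R := h4M.trans hMR
  obtain ⟨c0, hc0, hpap⟩ := pap
  obtain ⟨C2, hC2, hmaj⟩ := hmaj
  obtain ⟨𝒬, h𝒬, hK1⟩ := exists_Q R hR (max 1 (max (64 / c1 ^ 2) (128 * C2 / (c0 * c1 ^ 2))))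
  have hK : 1 ≤ recip 𝒬 := (le_max_left _ _).trans hK1
  have hK64 : 64 / c1 ^ 2 ≤ recip 𝒬 :=
    ((le_max_left _ _).trans (le_max_right _ _)).trans hK1
  have hK128 : 128 * C2 / (c0 * c1 ^ 2) ≤ recip 𝒬 :=
    ((le_max_right _ _).trans (le_max_right _ _)).trans hK1
  clear hK1
  have hQne : 𝒬.Nonempty := by
    rw [nonempty_iff_ne_empty]
    intro h
    rw [h] at hK
    unfold recip at hK
    simp at hK
    linarith
  have hQc : 0 < 𝒬.card := card_pos.mpr hQne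
  have hQR : (0 : ℝ) < 𝒬.card := by exact_mod_cast hQc
  have hroot : ∀ q : ℕ, ∃ r : ℕ, q.Prime ∧ q % 4 = 1 → r < q ∧ q ∣ r ^ 2 + 1 := by
    intro q
    by_cases h : q.Prime ∧ q % 4 = 1
    · have : Fact q.Prime := ⟨h.1⟩
      have h1 := (ZMod.exists_sq_eq_neg_one_iff (p := q)).mpr (by omega)
      obtain ⟨y, hy⟩ := h1
      have : NeZero q := ⟨h.1.ne_zero⟩
      refine ⟨y.val, fun _ => ⟨ZMod.val_lt y, ?_⟩⟩
      rw [← ZMod.natCast_eq_zero_iff]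
      push_cast
      rw [ZMod.natCast_zmod_val]
      rw [pow_two, ← hy]; ring
    · exact ⟨0, fun h' => absurd h' h⟩
  choose ρ hρ using hroot
  have hq4 : ∀ q ∈ 𝒬, q % 4 = 1 := by
    intro q hq
    have := ((h𝒬 q hq).2).of_dvd h4
    simpa [Nat.ModEq] using this
  have hρ1 : ∀ q ∈ 𝒬, ρ q < q := fun q hq => (hρ q ⟨(h𝒬 q hq).1, hq4 q hq⟩).1
  have hρ2 : ∀ q ∈ 𝒬, q ∣ ρ q ^ 2 + 1 := fun q hq => (hρ q ⟨(h𝒬 q hq).1, hq4 q hq⟩).2
  set Bq : ℕ := 𝒬.sup id + 1 with hBq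
  have hBqle : ∀ q ∈ 𝒬, q ≤ Bq := fun q hq => (le_sup (f := id) hq).trans (Nat.le_succ _)
  have hBqpos : 0 < Bq := Nat.succ_pos _
  -- the majorant
  obtain ⟨w, hw⟩ := hmaj (C2 / (2 * (𝒬.card : ℝ) ^ 2)) (by positivity)
  set R0 : ℕ := R * (∏ q ∈ 𝒬, q) * w.factorial with hR0
  have hR0pos : 0 < R0 := Nat.mul_pos (Nat.mul_pos hR
    (prod_pos fun q hq => (h𝒬 q hq).1.pos)) (Nat.factorial_pos _)
  have hRR0 : R ∣ R0 := ⟨(∏ q ∈ 𝒬, q) * w.factorial, by rw [hR0]; ring⟩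
  have hqR0 : ∀ q ∈ 𝒬, q ∣ R0 := by
    intro q hq
    have h1 : q ∣ ∏ q ∈ 𝒬, q := dvd_prod_of_mem _ hq
    exact dvd_mul_of_dvd_left (dvd_mul_of_dvd_right h1 _) _
  obtain ⟨κ0, hκ0, P0, hP0⟩ := hw R0 hR0pos (fun p hp hpw =>
    dvd_mul_of_dvd_right (Nat.dvd_factorial hp.pos hpw) _)
  obtain ⟨C1, P1, hC1, hP1⟩ := hpap R0 hR0pos
  set N1 : ℕ := ⌈16 * 𝒬.card * R * Dm * Bq * C1 / c1⌉₊ + 2 * C1 + 1 with hN1
  have hN1pos : 0 < N1 := by omega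
  have hN1R : (0 : ℝ) < N1 := by exact_mod_cast hN1pos
  set ν : ℝ := 2 * N1 with hν
  set Cδ : ℝ := 4 * Real.pi * κ0 * ν * Real.sqrt (2 * κ0 * ν + 1) with hCδ
  have hCδ0 : 0 ≤ Cδ := by positivity
  set Z : ℕ := ⌈(2 * (𝒬.card : ℝ) ^ 2 * Cδ) ^ 2⌉₊ + 1 with hZ
  set R0' : ℕ := R0 * Dm.factorial * Bq.factorial * Z with hR0'
  have hR0'pos : 0 < R0' := Nat.mul_pos (Nat.mul_pos (Nat.mul_pos hR0pos (Nat.factorial_pos _))
    (Nat.factorial_pos _)) (by omega)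
  have hφ : (0 : ℝ) < R0.totient := by exact_mod_cast Nat.totient_pos.mpr hR0pos
  refine ⟨Bq, 2 * N1, N1 * (P0 + P1 + ⌈κ0⌉₊ + 4), R0',
    c1 * c0 / (8 * N1 * R0.totient * 𝒬.card), by positivity, by omega, hR0'pos,
    hRR0.trans ⟨Dm.factorial * Bq.factorial * Z, by rw [hR0']; ring⟩, ?_⟩
  intro D a hD hDDm ha ha4 R' hR'pos hR'd H hH0 hH hR'H F G hF0 hF1 hGp hG0 hG1 hgap hmain
  have hRR' : R ∣ R' := (hRR0.trans ⟨Dm.factorial * Bq.factorial * Z, by rw [hR0']; ring⟩).trans hR'd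
  have hR0R' : R0 ∣ R' := (show R0 ∣ R0' from
    ⟨Dm.factorial * Bq.factorial * Z, by rw [hR0']; ring⟩).trans hR'd
  have hHR : (0 : ℝ) < H := by exact_mod_cast hH
  obtain ⟨a0, ha0, ha0a⟩ := exists_lift hR0pos hRR0 ha
  -- scale
  set P : ℕ := H / N1 with hP
  have hPge : P0 + P1 + ⌈κ0⌉₊ + 4 ≤ P := by
    rw [hP, Nat.le_div_iff_mul_le hN1pos, mul_comm]; exact hH0
  obtain ⟨P', hPP', hP'C, hcard⟩ := hP1 a0 ha0 P (by omega)
  obtain ⟨wt, hwt0, hwt1, hwt⟩ := hP0 P' (by omega)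
  have hP'4 : 4 ≤ P' := by omega
  have hP'R : (0 : ℝ) < P' := by
    have : 0 < P' := by omega
    exact_mod_cast this
  have hNP : N1 * P ≤ H := Nat.mul_div_le H N1
  have hNP2 : H < N1 * (P + 1) := by
    rw [mul_comm]
    exact Nat.lt_mul_of_div_lt (Nat.lt_succ_self _) hN1pos
  have hH2 : H ≤ 2 * N1 * P := by nlinarith
  have h2P' : 2 * P' ≤ H := by
    calc 2 * P' ≤ 2 * (C1 * P) := by omega
      _ = (2 * C1) * P := by ring
      _ ≤ N1 * P := Nat.mul_le_mul_right _ (by omega)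
      _ ≤ H := hNP
  have hlogP' : 0 < Real.log P' := Real.log_pos (by
    have : 1 < P' := by omega
    exact_mod_cast this)
  set X : ℝ := P' / (R0.totient * Real.log P') with hX
  have hXpos : 0 < X := by positivity
  set 𝒩 : Finset ℕ := (Ioc P' (2 * P')).filter (fun n => n % R0 = a0 % R0) with h𝒩
  set Ps : Finset ℕ := (Ioc P' (2 * P')).filter (fun p => p.Prime ∧ p ≡ a0 [MOD R0]) with hPs
  have hPs𝒩 : Ps ⊆ 𝒩 := by
    intro p hp
    rw [hPs, mem_filter] at hp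
    rw [h𝒩, mem_filter]
    exact ⟨hp.1, hp.2.2⟩
  have hPsc : c0 * X ≤ Ps.card := by
    refine le_trans (le_of_eq ?_) hcard
    rw [hX]; ring
  have hA : ∀ t : ℝ, ‖∑ n ∈ 𝒩, (wt n : ℂ) * ee (n * t)‖ ≤ C2 * X := by
    intro t
    refine ((hwt a0 ha0 t).1).trans (le_of_eq ?_)
    rw [hX]; ring
  have hB : ∀ t : ℝ, (∀ v : ℤ, κ0 / P' ≤ |t - v / R0|) →
      ‖∑ n ∈ 𝒩, (wt n : ℂ) * ee (n * t)‖ ≤ (C2 / (2 * (𝒬.card : ℝ) ^ 2)) * X := by
    intro t ht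
    refine ((hwt a0 ha0 t).2 ht).trans (le_of_eq ?_)
    rw [hX]; ring
  have hsumw : ∑ n ∈ 𝒩, wt n ≤ C2 * X := by
    have h1 := hA 0
    simp only [mul_zero, ee_zero, mul_one] at h1
    rw [← Complex.ofReal_sum, Complex.norm_real, Real.norm_eq_abs] at h1
    exact (le_abs_self _).trans h1
  set εo : ℝ := (C2 / (2 * (𝒬.card : ℝ) ^ 2)) * X + C2 * X * (Cδ / Real.sqrt R') with hεo
  have hεo0 : 0 ≤ εo := by positivity
  have hνP : (H : ℝ) ≤ ν * P' := by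
    have h1 : H ≤ 2 * N1 * P' := hH2.trans (Nat.mul_le_mul_left _ hPP')
    have h2 : (H : ℝ) ≤ ((2 * N1 * P' : ℕ) : ℝ) := by exact_mod_cast h1
    rw [hν]; push_cast at h2; exact h2
  have hκP : κ0 ≤ P' := by
    have h1 : κ0 ≤ ⌈κ0⌉₊ := Nat.le_ceil _
    have h2 : (⌈κ0⌉₊ : ℝ) ≤ P' := by
      have : ⌈κ0⌉₊ ≤ P' := by omega
      exact_mod_cast this
    linarith
  have hoff : ∀ q ∈ 𝒬, ∀ q' ∈ 𝒬, q < q' → ∀ f : ℕ → ℝ, (∀ b, |f b| ≤ 1) →
      |∑ n ∈ 𝒩, wt n * ∑ c ∈ range H, f c * (fun b => G b - EG H R' G b)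
        (c + (D * (q' - q)) * n)| ≤ εo * H := by
    intro q hq q' hq' hlt f hf
    have hk : 0 < D * (q' - q) := Nat.mul_pos hD (by omega)
    have hkR : D * (q' - q) * R0 ∣ R' := by
      refine Dvd.dvd.trans ?_ hR'd
      have h1 : D ∣ Dm.factorial := Nat.dvd_factorial hD hDDm
      have h2 : q' - q ∣ Bq.factorial := Nat.dvd_factorial (by omega)
        ((Nat.sub_le _ _).trans (hBqle q' hq'))
      have h3 : D * (q' - q) * R0 ∣ Dm.factorial * Bq.factorial * R0 :=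
        Nat.mul_dvd_mul (Nat.mul_dvd_mul h1 h2) (dvd_refl _)
      exact h3.trans ⟨Z, by rw [hR0']; ring⟩
    have := off_bound (H := H) (R' := R') (R0 := R0) (k := D * (q' - q)) (P := P') (κ0 := κ0)
      (ν := ν) (A := C2 * X) (B := (C2 / (2 * (𝒬.card : ℝ) ^ 2)) * X) hH hR'H hk hR0pos hkR G hGp
      hG0 hG1 hκ0 (by omega) hκP hνP (by positivity) 𝒩 wt hA hB f hf
    exact this
  set smax : ℕ := Dm * Bq * (2 * P') with hsmax
  have hsm : ∀ p ∈ Ps, ∀ q ∈ 𝒬, D * q * p ≤ smax := by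
    intro p hp q hq
    rw [hPs, mem_filter, mem_Ioc] at hp
    exact Nat.mul_le_mul (Nat.mul_le_mul hDDm (hBqle q hq)) hp.1.2
  have hQRs : (𝒬.card : ℝ) * (R * smax) ≤ c1 / 8 * H := by
    have h1 : (16 * 𝒬.card * R * Dm * Bq * C1 / c1 : ℝ) ≤ N1 := by
      refine (Nat.le_ceil _).trans ?_
      rw [hN1]; push_cast
      have : (0 : ℝ) ≤ 2 * C1 + 1 := by positivity
      linarith
    rw [div_le_iff₀ hc1] at h1
    have h2 : (smax : ℝ) = Dm * Bq * (2 * P') := by rw [hsmax]; push_cast; ring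
    have h3 : (P' : ℝ) ≤ C1 * P := by exact_mod_cast hP'C
    have h4 : (N1 : ℝ) * P ≤ H := by exact_mod_cast hNP
    rw [h2]
    calc (𝒬.card : ℝ) * (R * (Dm * Bq * (2 * P'))) = (2 * 𝒬.card * R * Dm * Bq) * P' := by ring
      _ ≤ (2 * 𝒬.card * R * Dm * Bq) * (C1 * P) := mul_le_mul_of_nonneg_left h3 (by positivity)
      _ = (16 * 𝒬.card * R * Dm * Bq * C1) * (P / 8) := by ring
      _ ≤ (N1 * c1) * (P / 8) := mul_le_mul_of_nonneg_right h1 (by positivity)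
      _ = c1 / 8 * (N1 * P) := by ring
      _ ≤ _ := mul_le_mul_of_nonneg_left h4 (by positivity)
  -- the lower bound
  have hT := tau_lower (H := H) (R := R) (R' := R') (𝒬 := 𝒬) (ρ := ρ) (F := F) (G := G)
    (D := D) (R0 := R0) (a0 := a0) (δ := D * a) (𝒩 := 𝒩) (Ps := Ps) (w := wt)
    hH (hRR'.trans hR'H) hRR' hR'H (fun q hq => (h𝒬 q hq).1) hρ1
    (fun q hq => (hqR0 q hq).trans (hR0R'.trans hR'H)) hqR0 (fun q hq => (h𝒬 q hq).2) hRR0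
    (fun n hn => (mem_filter.mp hn).2) hPs𝒩 (ha0a.mul_left D) hwt0
    (fun p hp => by
      rw [hPs, mem_filter, mem_Ioc] at hp
      exact hwt1 p hp.2.1 hp.1.1)
    hF0 hF1 hGp hG0 hG1 hK hεo0 hgap hsumw hoff hsm
  have hεQ : (𝒬.card : ℝ) ^ 2 * εo ≤ C2 * X := by
    have hsq : 2 * (𝒬.card : ℝ) ^ 2 * Cδ ≤ Real.sqrt R' := by
      apply Real.le_sqrt_of_sq_le
      refine (Nat.le_ceil _).trans ?_
      have h1 : Z ∣ R' := (show Z ∣ R0' from Dvd.intro_left _ rfl).trans hR'd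
      have h2 : Z ≤ R' := Nat.le_of_dvd hR'pos h1
      have h3 : ⌈(2 * (𝒬.card : ℝ) ^ 2 * Cδ) ^ 2⌉₊ ≤ R' := by omega
      exact_mod_cast h3
    have hsq0 : 0 < Real.sqrt R' := Real.sqrt_pos.mpr (by exact_mod_cast hR'pos)
    have h4 : (𝒬.card : ℝ) ^ 2 * (Cδ / Real.sqrt R') ≤ 1 / 2 := by
      rw [mul_div_assoc', div_le_iff₀ hsq0]
      linarith
    rw [hεo]
    calc (𝒬.card : ℝ) ^ 2 * (C2 / (2 * (𝒬.card : ℝ) ^ 2) * X + C2 * X * (Cδ / Real.sqrt R'))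
        = C2 * X / 2 + C2 * X * ((𝒬.card : ℝ) ^ 2 * (Cδ / Real.sqrt R')) := by
          field_simp
      _ ≤ C2 * X / 2 + C2 * X * (1 / 2) := by
          have := mul_le_mul_of_nonneg_left h4 (show 0 ≤ C2 * X by positivity)
          linarith
      _ = C2 * X := by ring
  have hAPs : C2 * X ≤ C2 / c0 * Ps.card := by
    rw [div_mul_eq_mul_div, le_div_iff₀ hc0]
    calc C2 * X * c0 = C2 * (c0 * X) := by ring
      _ ≤ _ := mul_le_mul_of_nonneg_left hPsc hC2.le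
  have hfin := final_ineq (Pc := Ps.card) (H := H) (K := recip 𝒬)
    (M := ∑ b ∈ range H, F b * cval H R G ((b + D * a) % R, b / (H / R)))
    (QRs := 𝒬.card * (R * smax)) (A := C2 * X) (εQ := (𝒬.card : ℝ) ^ 2 * εo) (c0 := c0)
    (C2 := C2) (c1 := c1) (Nat.cast_nonneg _) hHR.le hK hc0 hc1 hmain hQRs hAPs (by positivity)
    hεQ hK64 hK128 hT
  -- counting
  have hPsPS : ∀ p ∈ Ps, p ∈ PS M0 (2 * N1) H := by
    intro p hp
    rw [hPs, mem_filter, mem_Ioc] at hp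
    unfold PS
    rw [mem_filter, mem_range]
    refine ⟨by omega, hp.2.1, ?_, ?_⟩
    · exact ((hp.2.2.of_dvd (hMR.trans hRR0)).trans (ha0a.of_dvd hMR)).trans ha4
    · calc H ≤ 2 * N1 * P := hH2
        _ ≤ 2 * N1 * P' := Nat.mul_le_mul_left _ hPP'
        _ < 2 * N1 * p := Nat.mul_lt_mul_of_pos_left hp.1.1 (by omega)
  have hcount := count_pairs (M0 := M0) (H := H) (R := R) (D := D) (Bq := Bq) (C0 := 2 * N1) (smax := smax)
    (𝒬 := 𝒬) (ρ := ρ) (F := F) (G := G) (Ps := Ps)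
    (fun q hq => ⟨(h𝒬 q hq).1, hBqle q hq, (h𝒬 q hq).2, hρ2 q hq⟩) hPsPS hF1 hG0 hG1 hsm
  have hwrap : (𝒬.card : ℝ) * smax ≤ c1 / 8 * H := by
    refine le_trans ?_ hQRs
    apply mul_le_mul_of_nonneg_left _ hQR.le
    have : (1 : ℝ) ≤ R := by exact_mod_cast hR
    exact le_mul_of_one_le_left (Nat.cast_nonneg _) this
  have hPc0 : (0 : ℝ) ≤ Ps.card := Nat.cast_nonneg _
  have h1 : (Ps.card : ℝ) * (𝒬.card * smax) ≤ Ps.card * (c1 / 8 * H) :=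
    mul_le_mul_of_nonneg_left hwrap hPc0
  have h2 : c1 / 4 * Ps.card * H ≤ 𝒬.card * ((Gd M0 D R Bq (2 * N1) H F G).card : ℝ) := by
    have := hfin.trans hcount
    nlinarith
  have hH1 : (1 : ℝ) < H := by
    have : 1 < H := by omega
    exact_mod_cast this
  have hlogH : 0 < Real.log H := Real.log_pos hH1
  have h3 : c0 * (H / (2 * N1)) / (R0.totient * Real.log H) ≤ Ps.card := by
    have e1 : c0 * ((H : ℝ) / (2 * N1)) / (R0.totient * Real.log H) ≤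
        c0 * P' / (R0.totient * Real.log P') := by
      apply div_le_div₀ (by positivity)
      · apply mul_le_mul_of_nonneg_left _ hc0.le
        rw [div_le_iff₀ (by positivity)]
        rw [hν] at hνP
        linarith
      · positivity
      · apply mul_le_mul_of_nonneg_left _ hφ.le
        apply Real.log_le_log hP'R
        have : P' ≤ H := by omega
        exact_mod_cast this
    refine e1.trans ((le_of_eq ?_).trans hPsc)
    rw [hX]; ring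
  have h4 : c1 / 4 * (c0 * (H / (2 * N1)) / (R0.totient * Real.log H)) * H ≤
      𝒬.card * ((Gd M0 D R Bq (2 * N1) H F G).card : ℝ) := by
    refine le_trans ?_ h2
    apply mul_le_mul_of_nonneg_right _ hHR.le
    exact mul_le_mul_of_nonneg_left h3 (by positivity)
  have h5 : c1 * c0 / (8 * N1 * R0.totient * 𝒬.card) * (H : ℝ) ^ 2 / Real.log H * 𝒬.card ≤
      𝒬.card * ((Gd M0 D R Bq (2 * N1) H F G).card : ℝ) := by
    refine le_trans (le_of_eq ?_) h4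
    field_simp
    ring
  rw [mul_comm (𝒬.card : ℝ) ((Gd M0 D R Bq (2 * N1) H F G).card : ℝ)] at h5
  exact le_of_mul_le_mul_right h5 hQR

end Pool.Agent.H78.OM
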