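import Pool.Agent.H78.OM.Popular
import Pool.Agent.H78.OM.Step2

/-!
# The key lemma
-/

namespace Pool.Agent.H78.OM

open Finset

open Classical in
/-- the conflicts -/
noncomputable def confs {m : ℕ} (π : Par m) (Dm C0 H : ℕ) (x : ℕ → ZMod m) : Finset (ℕ × ℕ) :=
  (range H ×ˢ PS π.M0 C0 H).filter (fun q => Conf π H Dm x q.1 q.2)

theorem mem_confs {m : ℕ} {π : Par m} {Dm C0 H : ℕ} {x : ℕ → ZMod m} {q : ℕ × ℕ} :
    q ∈ confs π Dm C0 H x ↔ (q.1 ∈ range H ∧ q.2 ∈ PS π.M0 C0 H) ∧ Conf π H Dm x q.1 q.2 := by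
  classical
  unfold confs
  rw [mem_filter, mem_product]

theorem mem_PS {M0 C0 H p : ℕ} : p ∈ PS M0 C0 H ↔
    p < H + 1 ∧ p.Prime ∧ p ≡ 1 [MOD M0] ∧ H < C0 * p := by
  unfold PS
  rw [mem_filter, mem_range]

theorem confs_mono {m : ℕ} {π : Par m} {Dm Dm' C0 C0' H : ℕ} (h1 : Dm ≤ Dm') (h2 : C0 ≤ C0')
    (x : ℕ → ZMod m) : confs π Dm C0 H x ⊆ confs π Dm' C0' H x := by
  intro q hq
  rw [mem_confs] at hq ⊢
  obtain ⟨⟨a1, a2⟩, D, b1, b2, b3⟩ := hq
  rw [mem_PS] at a2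
  refine ⟨⟨a1, ?_⟩, D, b1, b2.trans h1, b3⟩
  rw [mem_PS]
  exact ⟨a2.1, a2.2.1, a2.2.2.1, lt_of_lt_of_le a2.2.2.2 (Nat.mul_le_mul_right _ h2)⟩

/-- total energy of a colouring -/
noncomputable def En {m : ℕ} [NeZero m] (H R : ℕ) (x : ℕ → ZMod m) : ℝ :=
  ∑ y : ZMod m, energy H R (Gc H x y)

theorem En_le {m : ℕ} [NeZero m] (H R : ℕ) (x : ℕ → ZMod m) : En H R x ≤ H := by
  unfold En
  refine (sum_le_sum fun y _ => energy_le (Gc_nonneg x y) (Gc_le_one x y)).trans ?_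
  rw [sum_comm]
  simp_rw [sum_Gc]
  simp

theorem En_nonneg {m : ℕ} [NeZero m] (H R : ℕ) (x : ℕ → ZMod m) : 0 ≤ En H R x :=
  sum_nonneg fun _ _ => energy_nonneg

theorem En_sub_ge {m : ℕ} [NeZero m] {H R R' : ℕ} (hH : 0 < H) (h1 : R ∣ R') (h2 : R' ∣ H)
    (x : ℕ → ZMod m) (y : ZMod m) :
    energy H R' (Gc H x y) - energy H R (Gc H x y) ≤ En H R' x - En H R x := by
  unfold En
  rw [← sum_sub_distrib]
  have h3 : ∀ y ∈ (univ : Finset (ZMod m)), 0 ≤ energy H R' (Gc H x y) - energy H R (Gc H x y) := by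
    intro y _
    rw [← energy_sub hH h1 h2]
    exact sum_nonneg fun _ _ => by positivity
  exact single_le_sum h3 (mem_univ y)

theorem step2 (hmaj : MAJ) {m : ℕ} [NeZero m] (π : Par m) (B : BP π.M0) {L : ℕ} (hL : L = 3 * (m * (m * m)))
    {c1 : ℝ} (hc1 : c1 = 1 / (B.Qs L * Ncfg m L * m ^ 2 : ℝ)) (R : ℕ) (hR : 0 < R)
    (hQR : B.Qs L ∣ R) :
    ∃ (Dm C0 H0 R' : ℕ) (κ : ℝ), 0 < κ ∧ 2 ≤ C0 ∧ 0 < R' ∧ R ∣ R' ∧
    ∀ H, H0 ≤ H → 0 < H → R' * R' ∣ H → ∀ x : ℕ → ZMod m,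
      En H R x + (c1 ^ 2 / 32) * H ≤ En H R' x ∨
      κ * (H : ℝ) ^ 2 / Real.log H ≤ ((confs π Dm C0 H x).card : ℝ) := by
  classical
  have hm : (0 : ℝ) < m := by exact_mod_cast NeZero.pos m
  have hQpos := B.Qs_pos L
  have hc1pos : 0 < c1 := by
    rw [hc1]
    have h1 : (0 : ℝ) < B.Qs L := by exact_mod_cast hQpos
    have h2 : (0 : ℝ) < Ncfg m L := by
      have : 0 < Ncfg m L := by
        unfold Ncfg
        have := NeZero.pos m
        positivity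
      exact_mod_cast this
    positivity
  have hMR : π.M0 ∣ R := (show π.M0 ∣ B.Qs L from
    ⟨2 * ∏ l ∈ range L, B.q l ^ 2, by unfold BP.Qs; ring⟩).trans hQR
  obtain ⟨Bq, C0, H0, R0', κ, hκ, hC0, hR0', hRR0', hstep⟩ :=
    step1 hmaj hc1pos π.M0 (B.Qs L) R hQpos hR π.h4 hMR
  -- representatives
  choose base hbase using fun (i : ℕ) (T : Finset ℕ) => B.exists_base L i T
  choose e he1 he2 using fun (i : ℕ) (T : Finset ℕ) => B.exists_e L R i T hR (base i T) (hbase i T)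
  refine ⟨B.Qs L * Bq, C0, H0, R0', κ, hκ, hC0, hR0', hRR0', ?_⟩
  intro H hH0 hH hR'H x
  by_contra hno
  push Not at hno
  obtain ⟨hno1, hno2⟩ := hno
  have hRH : R * R ∣ H := (Nat.mul_dvd_mul hRR0' hRR0').trans hR'H
  have hR'H1 : R0' ∣ H := (Dvd.intro _ rfl).trans hR'H
  obtain ⟨i, g, hg1, hig, S, hS, T, hT, y, y', hyy, hmain⟩ := popular B
    (fun g => BP.cst π g + 2) x hL hR hQR hRH hH base e (fun i _ T _ => he2 i T)
  obtain ⟨D, a, hD0, hDQ, hDa, hDe, hDΩ, ha, ha4, hcong⟩ := B.pair_data L π rfl hR hQR hg1 hig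
    hS hT (he1 i S) (he1 (i + g) T)
  have hDle : D ≤ B.Qs L := Nat.le_of_dvd hQpos hDQ
  have hgap : energy H R0' (Gc H x y') - energy H R (Gc H x y') ≤ (c1 ^ 2 / 32) * H := by
    have := En_sub_ge hH hRR0' hR'H1 x y'
    linarith
  have hmain' := hmain (D * a) hcong
  rw [← hc1] at hmain'
  have hlow := hstep D a hD0 hDle ha ha4 R0' hR0' (dvd_refl _) H hH0 hH hR'H1
    (fun b => if x b = y ∧ b % B.Qs L = base i S % B.Qs L then (1 : ℝ) else 0) (Gc H x y')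
    (fun b => by split_ifs <;> norm_num) (fun b => by split_ifs <;> norm_num)
    (Gc_period x y') (Gc_nonneg x y') (Gc_le_one x y') hgap hmain'
  apply absurd hno2
  rw [not_lt]
  refine hlow.trans ?_
  have hsub : Gd π.M0 D R Bq C0 H (fun b => if x b = y ∧ b % B.Qs L = base i S % B.Qs L then (1 : ℝ)
      else 0) (Gc H x y') ⊆ confs π (B.Qs L * Bq) C0 H x := by
    rintro ⟨b, p⟩ hbp
    rw [mem_Gd] at hbp
    obtain ⟨⟨hb, hp⟩, q, hq, hqB, hqR, hqb, hlt, hF, hG⟩ := hbp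
    simp only at hb hp hqb hlt hF hG
    rw [mem_confs]
    refine ⟨⟨hb, hp⟩, D * q, Nat.mul_pos hD0 hq.pos, Nat.mul_le_mul hDle hqB, ?_, ?_, hlt, ?_⟩
    · -- admissible
      intro r hr hrd
      rcases (Nat.Prime.dvd_mul hr).mp hrd with h | h
      · exact hDa r hr h
      · right
        rw [(Nat.prime_dvd_prime_iff_eq hr hq).mp h]
        exact hqR.of_dvd hMR
    · -- divisibility
      have hF' : x b = y ∧ b % B.Qs L = base i S % B.Qs L := by
        by_contra h; exact hF (if_neg h)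
      have h1 : b ≡ e i S [MOD B.Qs L] := by
        have : b ≡ base i S [MOD B.Qs L] := hF'.2
        exact this.trans (he2 i S).symm
      have h2 : b ^ 2 + 1 ≡ e i S ^ 2 + 1 [MOD D] := by
        have h3 := h1.of_dvd hDQ
        gcongr
      have h3 : D ∣ b ^ 2 + 1 := (Nat.ModEq.dvd_iff h2 (dvd_refl _)).mpr hDe
      have hcop : Nat.Coprime D q := by
        apply Nat.Coprime.symm
        rw [Nat.Prime.coprime_iff_not_dvd hq]
        intro hqD
        have h5 : q ∣ R := (hqD.trans hDQ).trans hQR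
        have h6 : q ≡ 1 [MOD q] := hqR.of_dvd h5
        have h7 : q ∣ 1 := (Nat.ModEq.dvd_iff h6 (dvd_refl _)).mp (dvd_refl _)
        exact hq.one_lt.ne' (Nat.dvd_one.mp h7)
      exact hcop.mul_dvd_of_dvd_of_dvd h3 hqb
    · have hF' : x b = y ∧ b % B.Qs L = base i S % B.Qs L := by
        by_contra h; exact hF (if_neg h)
      have hG' : x (b + D * q * p) = y' := by
        unfold Gc at hG
        rw [Nat.mod_eq_of_lt hlt] at hG
        by_contra h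
        exact hG (if_neg h)
      rw [mem_PS] at hp
      show x b + x (b + D * q * p) = 2 * π.v (D * q * p)
      rw [hF'.1, hG', hyy, π.mul _ _ (Nat.mul_pos hD0 hq.pos).ne' hp.2.1.ne_zero,
        π.mul _ _ hD0.ne' hq.ne_zero, π.one q hq (hqR.of_dvd hMR), π.one p hp.2.1 hp.2.2.1, hDΩ]
      ring
  exact_mod_cast card_le_card hsub

theorem iterate (hmaj : MAJ) {m : ℕ} [NeZero m] (π : Par m) (B : BP π.M0) {L : ℕ} (hL : L = 3 * (m * (m * m)))
    {c1 : ℝ} (hc1 : c1 = 1 / (B.Qs L * Ncfg m L * m ^ 2 : ℝ)) (k : ℕ) :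
    ∀ R, 0 < R → B.Qs L ∣ R →
    ∃ (Dm C0 H0 R' : ℕ) (κ : ℝ), 0 < κ ∧ 2 ≤ C0 ∧ 0 < R' ∧ R ∣ R' ∧
    ∀ H, H0 ≤ H → 0 < H → R' * R' ∣ H → ∀ x : ℕ → ZMod m,
      En H R x + k * ((c1 ^ 2 / 32) * H) ≤ En H R' x ∨
      κ * (H : ℝ) ^ 2 / Real.log H ≤ ((confs π Dm C0 H x).card : ℝ) := by
  induction k with
  | zero =>
    intro R hR _
    refine ⟨0, 2, 0, R, 1, one_pos, le_rfl, hR, dvd_refl _, fun H _ _ _ x => Or.inl ?_⟩
    simp
  | succ k ih =>
    intro R hR hQR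
    obtain ⟨Dm1, C1, H1, R1, κ1, hκ1, hC1, hR1, hRR1, h1⟩ := step2 hmaj π B hL hc1 R hR hQR
    obtain ⟨Dm2, C2, H2, R2, κ2, hκ2, hC2, hR2, hRR2, h2⟩ := ih R1 hR1 (hQR.trans hRR1)
    refine ⟨max Dm1 Dm2, max C1 C2, max (max H1 H2) 2, R2, min κ1 κ2, lt_min hκ1 hκ2,
      hC1.trans (le_max_left _ _), hR2, hRR1.trans hRR2, fun H hH0 hH hRH x => ?_⟩
    have hH1 : H1 ≤ H := ((le_max_left _ _).trans (le_max_left _ _)).trans hH0
    have hH2 : H2 ≤ H := ((le_max_right _ _).trans (le_max_left _ _)).trans hH0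
    have hH3 : 2 ≤ H := (le_max_right _ _).trans hH0
    have hlog : 0 < Real.log H := Real.log_pos (by
      have : 1 < H := by omega
      exact_mod_cast this)
    have hR1H : R1 * R1 ∣ H := (Nat.mul_dvd_mul hRR2 hRR2).trans hRH
    have hmono : ∀ κ' Dm' C', min κ1 κ2 ≤ κ' → Dm' ≤ max Dm1 Dm2 → C' ≤ max C1 C2 →
        κ' * (H : ℝ) ^ 2 / Real.log H ≤ ((confs π Dm' C' H x).card : ℝ) →
        min κ1 κ2 * (H : ℝ) ^ 2 / Real.log H ≤
          ((confs π (max Dm1 Dm2) (max C1 C2) H x).card : ℝ) := by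
      intro κ' Dm' C' ha hb hc hd
      have h5 : ((confs π Dm' C' H x).card : ℝ) ≤
          ((confs π (max Dm1 Dm2) (max C1 C2) H x).card : ℝ) := by
        exact_mod_cast card_le_card (confs_mono hb hc x)
      refine le_trans ?_ (hd.trans h5)
      apply div_le_div_of_nonneg_right _ hlog.le
      exact mul_le_mul_of_nonneg_right ha (by positivity)
    rcases h1 H hH1 hH hR1H x with h | h
    · rcases h2 H hH2 hH hRH x with h' | h'
      · left
        push_cast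
        linarith
      · right
        exact hmono κ2 Dm2 C2 (min_le_right _ _) (le_max_right _ _) (le_max_right _ _) h'
    · right
      exact hmono κ1 Dm1 C1 (min_le_left _ _) (le_max_left _ _) (le_max_left _ _) h

theorem kl_of_maj (hmaj : MAJ) {m : ℕ} (hm0 : 0 < m) (π : Par m) : KL π := by
  classical
  have hne : NeZero m := ⟨hm0.ne'⟩
  obtain ⟨B⟩ := exists_BP π.hM π.h4
  set L := 3 * (m * (m * m)) with hL
  set c1 : ℝ := 1 / (B.Qs L * Ncfg m L * m ^ 2 : ℝ) with hc1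
  have hm : (0 : ℝ) < m := by exact_mod_cast hm0
  have hQpos := B.Qs_pos L
  have hc1pos : 0 < c1 := by
    rw [hc1]
    have h1 : (0 : ℝ) < B.Qs L := by exact_mod_cast hQpos
    have h2 : (0 : ℝ) < Ncfg m L := by
      have : 0 < Ncfg m L := by
        unfold Ncfg
        positivity
      exact_mod_cast this
    positivity
  obtain ⟨k, hk⟩ := exists_nat_gt (32 / c1 ^ 2)
  obtain ⟨Dm, C0, H0, R', κ, hκ, hC0, hR', hRR', h⟩ :=
    iterate hmaj π B hL hc1 k (B.Qs L) hQpos (dvd_refl _)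
  refine ⟨Dm, C0, R' * R', max H0 1, κ, hκ, Nat.mul_pos hR' hR', hC0, ?_⟩
  intro H hH0 hdvd x
  have hH : 0 < H := lt_of_lt_of_le Nat.one_pos ((le_max_right _ _).trans hH0)
  have hHR : (0 : ℝ) < H := by exact_mod_cast hH
  rcases h H ((le_max_left _ _).trans hH0) hH hdvd x with h1 | h1
  · exfalso
    have h2 := En_le H R' x
    have h3 := En_nonneg H (B.Qs L) x
    have h4 : (k : ℝ) * ((c1 ^ 2 / 32) * H) ≤ H := by linarith
    have h5 : (1 : ℝ) < k * (c1 ^ 2 / 32) := by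
      rw [div_lt_iff₀ (by positivity)] at hk
      linarith
    nlinarith
  · refine h1.trans (le_of_eq ?_)
    unfold confs
    rfl

end Pool.Agent.H78.OM
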