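import Pool.Agent.H78.OM.Count

/-!
# The key lemma implies the finite contradiction theorem: conclusion
-/

namespace Pool.Agent.H78.OM

open Finset

theorem fct_of_kl {m : ℕ} {π : Par m} (hm : 0 < m) (hkl : KL π) : FCT π := by
  classical
  obtain ⟨Dm, C0, W, H0, κ, hκ, hW, hC0, hK⟩ := hkl
  by_contra hF
  have hNe : NeZero m := ⟨hm.ne'⟩
  unfold FCT at hF
  push Not at hF
  let S : Sc :=
    { m := m
      π := π
      Dm := Dm
      C := C0
      W := W * Dm.factorial
      h0 := C0 + H0 + 2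
      hm := hm
      hC := hC0
      hW := Nat.mul_pos hW (Nat.factorial_pos _)
      hh0 := by omega
      hD := fun D h1 h2 => dvd_mul_of_dvd_right (Nat.dvd_factorial h1 h2) _ }
  have hSH : ∀ j, S.H j = W * Dm.factorial * ((C0 + H0 + 2) * C0 ^ j) := fun j => rfl
  have hpos : ∀ j k, 0 < (S.Vs j k).card := by
    intro j k
    obtain ⟨x, hx⟩ := hF (S.H j) (S.W * k)
    rw [card_pos]
    refine ⟨fun i => x i, ?_⟩
    unfold Sc.Vs
    rw [mem_filter]
    refine ⟨mem_univ _, ?_⟩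
    refine S.good_congr j k x _ ?_ (S.good_of_free j k x hx)
    intro b hb
    rw [ext_of_lt _ hb]
  have hHge : ∀ j, H0 ≤ S.H j := by
    intro j
    rw [hSH]
    have h1 : 1 ≤ W * Dm.factorial := Nat.mul_pos hW (Nat.factorial_pos _)
    have h2 : 1 ≤ C0 ^ j := Nat.one_le_pow _ _ (by omega)
    calc H0 ≤ 1 * ((C0 + H0 + 2) * 1) := by omega
      _ ≤ _ := Nat.mul_le_mul h1 (Nat.mul_le_mul_left _ h2)
  have hWd : ∀ j, W ∣ S.H j := by
    intro j
    rw [hSH, mul_assoc]
    exact Dvd.intro _ rfl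
  -- the loss
  let η : ℕ → ℝ := fun j => κ * S.H j / (2 * Real.log (S.H j))
  have hH2 : ∀ j, 2 ≤ S.H j := by
    intro j
    rw [hSH]
    have h1 : 1 ≤ W * Dm.factorial := Nat.mul_pos hW (Nat.factorial_pos _)
    have h2 : 1 ≤ C0 ^ j := Nat.one_le_pow _ _ (by omega)
    calc 2 ≤ 1 * ((C0 + H0 + 2) * 1) := by omega
      _ ≤ _ := Nat.mul_le_mul h1 (Nat.mul_le_mul_left _ h2)
  have hlogpos : ∀ j, 0 < Real.log (S.H j) := by
    intro j
    apply Real.log_pos
    have := hH2 j
    exact_mod_cast (by omega : 1 < S.H j)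
  have hstep : ∀ j, S.U (j + 1) ≤ S.C * S.U j - η (j + 1) := by
    intro j
    apply S.U_succ_le hpos j
    intro x
    have h1 := S.avg_new_le (j + 1) x (η := η (j + 1)) (by
      refine le_trans (le_of_eq ?_) (hK (S.H (j + 1)) (hHge _) (hWd _) x)
      have := hlogpos (j + 1)
      simp only [η]
      field_simp)
    convert h1 using 2
  have hU0 : ∀ j, 0 ≤ S.U j := by
    intro j
    unfold Sc.U
    apply div_nonneg _ (Nat.cast_nonneg _)
    apply sum_nonneg
    intro k _
    apply Real.log_nonneg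
    exact_mod_cast hpos j k
  -- telescoping
  have hC1 : (0 : ℝ) < C0 := by exact_mod_cast (by omega : 0 < C0)
  let A : ℝ := (W * Dm.factorial : ℕ) * (C0 + H0 + 2 : ℕ)
  have hA : 0 < A := by
    simp only [A]
    have := Nat.mul_pos hW (Nat.factorial_pos Dm)
    have h2 : 0 < C0 + H0 + 2 := by omega
    positivity
  have hHR : ∀ j, (S.H j : ℝ) = A * (C0 : ℝ) ^ j := by
    intro j; rw [hSH]; simp only [A]; push_cast; ring
  have hA1 : 1 ≤ A := by
    have := hHR 0
    simp only [pow_zero, mul_one] at this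
    rw [← this]
    exact_mod_cast (by have := hH2 0; omega : 1 ≤ S.H 0)
  have hlogA : 0 ≤ Real.log A := Real.log_nonneg hA1
  have hlogC : 0 < Real.log C0 := Real.log_pos (by exact_mod_cast (by omega : 1 < C0))
  have hloss : ∀ j : ℕ, κ * A / (2 * (Real.log A + Real.log C0)) * (1 / ((j : ℝ) + 1)) ≤
      η (j + 1) / (C0 : ℝ) ^ (j + 1) := by
    intro j
    simp only [η]
    rw [hHR]
    have hCj : (0 : ℝ) < (C0 : ℝ) ^ (j + 1) := pow_pos hC1 _
    rw [Real.log_mul hA.ne' hCj.ne', Real.log_pow]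
    have h1 : κ * (A * (C0 : ℝ) ^ (j + 1)) / (2 * (Real.log A + ((j + 1 : ℕ) : ℝ) * Real.log C0)) /
        (C0 : ℝ) ^ (j + 1) = κ * A / (2 * (Real.log A + ((j + 1 : ℕ) : ℝ) * Real.log C0)) := by
      field_simp
    rw [h1, div_mul_div_comm, mul_one]
    apply div_le_div_of_nonneg_left (by positivity)
    · push_cast; positivity
    · push_cast
      have hj : (0 : ℝ) ≤ j := Nat.cast_nonneg j
      nlinarith
  have htel : ∀ J : ℕ, S.U J / (C0 : ℝ) ^ J + κ * A / (2 * (Real.log A + Real.log C0)) *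
      ∑ j ∈ range J, 1 / ((j : ℝ) + 1) ≤ S.U 0 := by
    intro J
    induction J with
    | zero => simp
    | succ J ih =>
      rw [sum_range_succ, mul_add]
      have h1 := hstep J
      have h2 := hloss J
      have hCj : (0 : ℝ) < (C0 : ℝ) ^ (J + 1) := pow_pos hC1 _
      have h3 : S.U (J + 1) / (C0 : ℝ) ^ (J + 1) ≤ S.U J / (C0 : ℝ) ^ J -
          η (J + 1) / (C0 : ℝ) ^ (J + 1) := by
        have h4 : S.U J / (C0 : ℝ) ^ J - η (J + 1) / (C0 : ℝ) ^ (J + 1) =
            (C0 * S.U J - η (J + 1)) / (C0 : ℝ) ^ (J + 1) := by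
          rw [sub_div, pow_succ]; field_simp
        rw [h4]
        exact div_le_div_of_nonneg_right h1 hCj.le
      linarith
  have hdiv := Real.tendsto_sum_range_one_div_nat_succ_atTop
  have hcpos : 0 < κ * A / (2 * (Real.log A + Real.log C0)) := by positivity
  obtain ⟨J, hJ⟩ := (hdiv.eventually_gt_atTop (S.U 0 /
    (κ * A / (2 * (Real.log A + Real.log C0))))).exists
  rw [div_lt_iff₀ hcpos] at hJ
  have h5 := htel J
  have h6 : 0 ≤ S.U J / (C0 : ℝ) ^ J := div_nonneg (hU0 J) (pow_nonneg hC1.le _)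
  linarith

end Pool.Agent.H78.OM
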