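import Pool.Agent.H78.OM.Maj6
import Pool.Agent.H78.OM.KL
import Pool.Agent.H78.OM.KLtoFCT

/-!
# The finite contradiction theorem
-/

namespace Pool.Agent.H78.OM

theorem fct {m : ℕ} (hm : 0 < m) (π : Par m) : FCT π := fct_of_kl hm (kl_of_maj maj hm π)

end Pool.Agent.H78.OM
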