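import Pool.Agent.H78.OM.Cond
import Pool.Agent.H78.OM.Avg

/-!
# Finite Fourier analysis of periodic functions
-/

namespace Pool.Agent.H78.OM

open Finset

/-- `e(t) = exp(2 π i t)` -/
noncomputable def ee (t : ℝ) : ℂ := Complex.exp (2 * Real.pi * t * Complex.I)

theorem ee_add (s t : ℝ) : ee (s + t) = ee s * ee t := by
  unfold ee
  rw [← Complex.exp_add]; congr 1; push_cast; ring

theorem ee_zero : ee 0 = 1 := by unfold ee; simp

theorem ee_int (n : ℤ) : ee n = 1 := by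
  unfold ee
  rw [Complex.exp_eq_one_iff]
  exact ⟨n, by push_cast; ring⟩

theorem ee_nat (n : ℕ) : ee n = 1 := by
  have := ee_int n
  simpa using this

theorem norm_ee (t : ℝ) : ‖ee t‖ = 1 := by
  unfold ee
  have : (2 * Real.pi * t * Complex.I : ℂ) = ((2 * Real.pi * t : ℝ) : ℂ) * Complex.I := by
    push_cast; ring
  rw [this, Complex.norm_exp_ofReal_mul_I]

theorem conj_ee (t : ℝ) : (starRingEnd ℂ) (ee t) = ee (-t) := by
  unfold ee
  rw [← Complex.exp_conj]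
  congr 1
  have h2 : (starRingEnd ℂ) 2 = 2 := by
    have := Complex.conj_ofReal 2
    simpa using this
  simp [Complex.conj_ofReal, h2]

theorem ee_nsmul (t : ℝ) (n : ℕ) : ee (n * t) = ee t ^ n := by
  unfold ee
  rw [← Complex.exp_nat_mul]; congr 1; push_cast; ring

theorem norm_ee_sub_le (s t : ℝ) : ‖ee s - ee t‖ ≤ 2 * Real.pi * |s - t| := by
  have h1 : ee s - ee t = ee t * (ee (s - t) - 1) := by
    rw [mul_sub, ← ee_add]; ring_nf
  rw [h1, norm_mul, norm_ee, one_mul]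
  unfold ee
  have : (2 * Real.pi * ((s - t : ℝ) : ℂ) * Complex.I : ℂ) =
      Complex.I * ((2 * Real.pi * (s - t) : ℝ) : ℂ) := by
    push_cast; ring
  rw [this]
  refine (Real.norm_exp_I_mul_ofReal_sub_one_le (x := 2 * Real.pi * (s - t))).trans ?_
  rw [Real.norm_eq_abs, abs_mul, abs_of_pos Real.two_pi_pos]

theorem ee_eq_one_iff {t : ℝ} : ee t = 1 ↔ ∃ n : ℤ, t = n := by
  unfold ee
  rw [Complex.exp_eq_one_iff]
  constructor
  · rintro ⟨n, hn⟩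
    refine ⟨n, ?_⟩
    have hpi : (2 * Real.pi * Complex.I : ℂ) ≠ 0 := Complex.two_pi_I_ne_zero
    have h2 : (t : ℂ) * (2 * Real.pi * Complex.I) = n * (2 * Real.pi * Complex.I) := by
      rw [← hn]; ring
    exact_mod_cast mul_right_cancel₀ hpi h2
  · rintro ⟨n, hn⟩
    exact ⟨n, by rw [hn]; push_cast; ring⟩

/-- orthogonality of characters -/
theorem sum_ee {H : ℕ} (hH : 0 < H) (j : ℤ) :
    ∑ ξ ∈ range H, ee (ξ * (j / H)) = if (H : ℤ) ∣ j then (H : ℂ) else 0 := by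
  have hHR : (H : ℝ) ≠ 0 := by exact_mod_cast hH.ne'
  split_ifs with h
  · obtain ⟨c, hc⟩ := h
    have : ∀ ξ ∈ range H, ee (ξ * (j / H)) = 1 := by
      intro ξ _
      rw [hc]
      push_cast
      have e1 : (ξ : ℝ) * ((H : ℝ) * c / H) = ((ξ * c : ℤ) : ℝ) := by
        push_cast; field_simp
      rw [e1, ee_int]
    rw [sum_congr rfl this]; simp
  · have hz : ee (j / H) ≠ 1 := by
      intro h1
      rw [ee_eq_one_iff] at h1
      obtain ⟨n, hn⟩ := h1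
      apply h
      refine ⟨n, ?_⟩
      rw [div_eq_iff hHR] at hn
      have : (j : ℝ) = ((H * n : ℤ) : ℝ) := by rw [hn]; push_cast; ring
      exact_mod_cast this
    simp_rw [ee_nsmul]
    have := geom_sum_mul (ee (j / H)) H
    rw [← ee_nsmul] at this
    have e2 : (H : ℝ) * (j / H) = j := by field_simp
    rw [e2, ee_int, sub_self] at this
    rcases mul_eq_zero.mp this with h3 | h3
    · exact h3
    · exact absurd (sub_eq_zero.mp h3) hz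

/-- Fourier coefficient -/
noncomputable def hat (H : ℕ) (g : ℕ → ℝ) (ξ : ℕ) : ℂ :=
  ∑ b ∈ range H, (g b : ℂ) * ee (-(ξ * (b / H)))

theorem hat_inv {H : ℕ} (hH : 0 < H) {g : ℕ → ℝ} (hg : ∀ b, g (b + H) = g b) (b : ℕ) :
    (g b : ℂ) = (1 / H : ℂ) * ∑ ξ ∈ range H, hat H g ξ * ee (ξ * (b / H)) := by
  have hHC : (H : ℂ) ≠ 0 := by exact_mod_cast hH.ne'
  have h1 : ∑ ξ ∈ range H, hat H g ξ * ee (ξ * (b / H)) =
      ∑ c ∈ range H, (g c : ℂ) * ∑ ξ ∈ range H, ee (ξ * (((b : ℤ) - c : ℤ) / H)) := by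
    unfold hat
    simp_rw [sum_mul, mul_sum]
    rw [sum_comm]
    refine sum_congr rfl fun c _ => sum_congr rfl fun ξ _ => ?_
    rw [mul_assoc, ← ee_add]
    congr 2
    push_cast; ring
  rw [h1]
  have h2 : ∀ c ∈ range H, (g c : ℂ) * ∑ ξ ∈ range H, ee (ξ * (((b : ℤ) - c : ℤ) / H)) =
      if c = b % H then (g c : ℂ) * H else 0 := by
    intro c hc
    rw [sum_ee hH]
    have h3 : (H : ℤ) ∣ (b : ℤ) - c ↔ c = b % H := by
      rw [← Nat.modEq_iff_dvd]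
      unfold Nat.ModEq
      rw [Nat.mod_eq_of_lt (mem_range.mp hc)]
    simp only [h3]
    split_ifs <;> simp
  rw [sum_congr rfl h2, sum_ite_eq' (range H) (b % H)]
  rw [if_pos (mem_range.mpr (Nat.mod_lt _ hH)), periodic_mod hg]
  field_simp

/-- Parseval -/
theorem parseval {H : ℕ} (hH : 0 < H) (g : ℕ → ℝ) :
    ∑ ξ ∈ range H, ‖hat H g ξ‖ ^ 2 = H * ∑ b ∈ range H, g b ^ 2 := by
  have h1 : ∀ ξ ∈ range H, ((‖hat H g ξ‖ ^ 2 : ℝ) : ℂ) =
      ∑ b ∈ range H, ∑ c ∈ range H, (g b : ℂ) * g c * ee (ξ * (((c : ℤ) - b : ℤ) / H)) := by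
    intro ξ _
    have : ((‖hat H g ξ‖ ^ 2 : ℝ) : ℂ) = hat H g ξ * (starRingEnd ℂ) (hat H g ξ) := by
      rw [Complex.mul_conj, Complex.normSq_eq_norm_sq]
    rw [this]
    unfold hat
    rw [map_sum, sum_mul_sum]
    refine sum_congr rfl fun b _ => sum_congr rfl fun c _ => ?_
    rw [map_mul, conj_ee, Complex.conj_ofReal, neg_neg]
    have : ee (ξ * (((c : ℤ) - b : ℤ) / H)) = ee (-(ξ * (b / H))) * ee (ξ * (c / H)) := by
      rw [← ee_add]; congr 1; push_cast; ring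
    rw [this]; ring
  have h2 : ((∑ ξ ∈ range H, ‖hat H g ξ‖ ^ 2 : ℝ) : ℂ) =
      ((H * ∑ b ∈ range H, g b ^ 2 : ℝ) : ℂ) := by
    rw [Complex.ofReal_sum, sum_congr rfl h1, sum_comm]
    rw [Complex.ofReal_mul, Complex.ofReal_sum, mul_sum]
    refine sum_congr rfl fun b hb => ?_
    rw [sum_comm]
    have h3 : ∀ c ∈ range H, ∑ ξ ∈ range H, (g b : ℂ) * g c *
        ee (ξ * (((c : ℤ) - b : ℤ) / H)) = if c = b then (g b : ℂ) * g c * H else 0 := by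
      intro c hc
      rw [← mul_sum, sum_ee hH]
      have h3 : (H : ℤ) ∣ (c : ℤ) - b ↔ c = b := by
        rw [← Nat.modEq_iff_dvd]
        constructor
        · intro h
          exact (Nat.ModEq.eq_of_lt_of_lt h (mem_range.mp hb) (mem_range.mp hc)).symm
        · rintro rfl; exact Nat.ModEq.refl _
      simp only [h3]
      split_ifs <;> simp
    rw [sum_congr rfl h3, sum_ite_eq' (range H) b, if_pos hb]
    push_cast; ring
  exact_mod_cast h2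

/-- the correlation identity -/
theorem corr_eq {H : ℕ} (hH : 0 < H) (𝒩 : Finset ℕ) (w : ℕ → ℝ) (k : ℕ) (f g : ℕ → ℝ)
    (hg : ∀ b, g (b + H) = g b) :
    ((∑ n ∈ 𝒩, w n * ∑ c ∈ range H, f c * g (c + k * n) : ℝ) : ℂ) =
      (1 / H : ℂ) * ∑ ξ ∈ range H, hat H g ξ * (starRingEnd ℂ) (hat H f ξ) *
        ∑ n ∈ 𝒩, (w n : ℂ) * ee (n * (k * (ξ / H))) := by
  have h1 : ((∑ n ∈ 𝒩, w n * ∑ c ∈ range H, f c * g (c + k * n) : ℝ) : ℂ) =
      ∑ n ∈ 𝒩, (w n : ℂ) * ∑ c ∈ range H, (f c : ℂ) * (g (c + k * n) : ℂ) := by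
    push_cast; rfl
  rw [h1]
  have h2 : ∀ n ∈ 𝒩, (w n : ℂ) * ∑ c ∈ range H, (f c : ℂ) * (g (c + k * n) : ℂ) =
      (1 / H : ℂ) * ∑ ξ ∈ range H, hat H g ξ * (starRingEnd ℂ) (hat H f ξ) *
        ((w n : ℂ) * ee (n * (k * (ξ / H)))) := by
    intro n _
    have h3 : ∀ c ∈ range H, (f c : ℂ) * (g (c + k * n) : ℂ) =
        (1 / H : ℂ) * ∑ ξ ∈ range H, hat H g ξ * ((f c : ℂ) * ee (ξ * (c / H))) *
          ee (n * (k * (ξ / H))) := by
      intro c _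
      rw [hat_inv hH hg (c + k * n), mul_left_comm, mul_sum]
      congr 1
      refine sum_congr rfl fun ξ _ => ?_
      have : ee (ξ * (((c + k * n : ℕ) : ℝ) / H)) = ee (ξ * (c / H)) * ee (n * (k * (ξ / H))) := by
        rw [← ee_add]; congr 1; push_cast; ring
      rw [this]; ring
    rw [sum_congr rfl h3, ← mul_sum, mul_left_comm, sum_comm, mul_sum]
    congr 1
    refine sum_congr rfl fun ξ _ => ?_
    rw [← sum_mul, ← mul_sum]
    have h4 : (starRingEnd ℂ) (hat H f ξ) = ∑ c ∈ range H, (f c : ℂ) * ee (ξ * (c / H)) := by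
      unfold hat
      rw [map_sum]
      refine sum_congr rfl fun c _ => ?_
      rw [map_mul, conj_ee, Complex.conj_ofReal, neg_neg]
    rw [h4]; ring
  rw [sum_congr rfl h2, ← mul_sum, sum_comm]
  congr 1
  refine sum_congr rfl fun ξ _ => ?_
  rw [← mul_sum]

/-- bound for correlations: `A` everywhere, `B` outside the major arcs `𝔐` where the coefficients
of `g` are small -/
theorem corr_bound {H : ℕ} (hH : 0 < H) (𝒩 : Finset ℕ) (w : ℕ → ℝ) (k : ℕ) (f g : ℕ → ℝ)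
    (hg : ∀ b, g (b + H) = g b) (hf1 : ∀ b, |f b| ≤ 1) (hg1 : ∀ b, |g b| ≤ 1)
    (𝔐 : Finset ℕ) {A B δ : ℝ} (hB : 0 ≤ B) (hδ : 0 ≤ δ)
    (hA : ∀ t : ℝ, ‖∑ n ∈ 𝒩, (w n : ℂ) * ee (n * t)‖ ≤ A)
    (hBm : ∀ ξ ∈ range H, ξ ∉ 𝔐 → ‖∑ n ∈ 𝒩, (w n : ℂ) * ee (n * (k * (ξ / H)))‖ ≤ B)
    (hM : ∀ ξ ∈ 𝔐, ‖hat H g ξ‖ ≤ δ * H) :
    |∑ n ∈ 𝒩, w n * ∑ c ∈ range H, f c * g (c + k * n)| ≤
      (B + A * δ * Real.sqrt 𝔐.card) * H := by
  have hA0 : 0 ≤ A := (norm_nonneg _).trans (hA 0)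
  have hHR : (0 : ℝ) < H := by exact_mod_cast hH
  have hsq : ∀ u : ℕ → ℝ, (∀ b, |u b| ≤ 1) → ∑ ξ ∈ range H, ‖hat H u ξ‖ ^ 2 ≤ (H : ℝ) ^ 2 := by
    intro u hu
    rw [parseval hH, pow_two]
    apply mul_le_mul_of_nonneg_left _ hHR.le
    refine (sum_le_sum fun b _ => ?_).trans (by simp : ∑ b ∈ range H, (1 : ℝ) ≤ H)
    have := hu b
    rw [← sq_abs]
    have h0 := abs_nonneg (u b)
    nlinarith
  have h1 : |∑ n ∈ 𝒩, w n * ∑ c ∈ range H, f c * g (c + k * n)| =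
      ‖((∑ n ∈ 𝒩, w n * ∑ c ∈ range H, f c * g (c + k * n) : ℝ) : ℂ)‖ := by
    rw [Complex.norm_real, Real.norm_eq_abs]
  rw [h1, corr_eq hH 𝒩 w k f g hg, norm_mul]
  have h2 : ‖(1 / H : ℂ)‖ = 1 / H := by
    rw [norm_div, norm_one, Complex.norm_natCast]
  rw [h2]
  have h3 : ‖∑ ξ ∈ range H, hat H g ξ * (starRingEnd ℂ) (hat H f ξ) *
        ∑ n ∈ 𝒩, (w n : ℂ) * ee (n * (k * (ξ / H)))‖ ≤
      ∑ ξ ∈ range H, ‖hat H g ξ‖ * ‖hat H f ξ‖ * B +
      ∑ ξ ∈ 𝔐 ∩ range H, ‖hat H g ξ‖ * ‖hat H f ξ‖ * A := by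
    refine (norm_sum_le _ _).trans ?_
    have h4 : ∀ ξ ∈ range H, ‖hat H g ξ * (starRingEnd ℂ) (hat H f ξ) *
        ∑ n ∈ 𝒩, (w n : ℂ) * ee (n * (k * (ξ / H)))‖ ≤ ‖hat H g ξ‖ * ‖hat H f ξ‖ * B +
        (if ξ ∈ 𝔐 then ‖hat H g ξ‖ * ‖hat H f ξ‖ * A else 0) := by
      intro ξ hξ
      rw [norm_mul, norm_mul, RCLike.norm_conj]
      have hnn : 0 ≤ ‖hat H g ξ‖ * ‖hat H f ξ‖ := by positivity
      split_ifs with hm
      · have := hA (k * (ξ / H))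
        have h5 := mul_le_mul_of_nonneg_left this hnn
        have h6 : 0 ≤ ‖hat H g ξ‖ * ‖hat H f ξ‖ * B := mul_nonneg hnn hB
        linarith
      · rw [add_zero]
        exact mul_le_mul_of_nonneg_left (hBm ξ hξ hm) hnn
    refine (sum_le_sum h4).trans ?_
    rw [sum_add_distrib, ← sum_filter]
    apply le_of_eq
    congr 2
    ext ξ
    simp only [mem_filter, mem_inter]
    tauto
  have h5 : ∑ ξ ∈ range H, ‖hat H g ξ‖ * ‖hat H f ξ‖ * B ≤ (H : ℝ) ^ 2 * B := by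
    rw [← sum_mul]
    apply mul_le_mul_of_nonneg_right _ hB
    have := sum_mul_sq_le_sq_mul_sq (range H) (fun ξ => ‖hat H g ξ‖) (fun ξ => ‖hat H f ξ‖)
    have h6 := hsq g hg1
    have h7 := hsq f hf1
    have h8 : (∑ ξ ∈ range H, ‖hat H g ξ‖ * ‖hat H f ξ‖) ^ 2 ≤ ((H : ℝ) ^ 2) ^ 2 := by
      refine this.trans ?_
      rw [pow_two ((H : ℝ) ^ 2)]
      apply mul_le_mul h6 h7 (sum_nonneg fun _ _ => by positivity) (by positivity)
    exact (pow_le_pow_iff_left₀ (sum_nonneg fun _ _ => by positivity) (by positivity)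
      two_ne_zero).mp h8
  have h9 : ∑ ξ ∈ 𝔐 ∩ range H, ‖hat H g ξ‖ * ‖hat H f ξ‖ * A ≤
      (δ * Real.sqrt 𝔐.card * (H : ℝ) ^ 2) * A := by
    rw [← sum_mul]
    apply mul_le_mul_of_nonneg_right _ hA0
    have := sum_mul_sq_le_sq_mul_sq (𝔐 ∩ range H) (fun ξ => ‖hat H g ξ‖) (fun ξ => ‖hat H f ξ‖)
    have h6 : ∑ ξ ∈ 𝔐 ∩ range H, ‖hat H g ξ‖ ^ 2 ≤ 𝔐.card * (δ * H) ^ 2 := by
      refine (sum_le_sum fun ξ hξ => pow_le_pow_left₀ (norm_nonneg _)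
        (hM ξ (mem_inter.mp hξ).1) 2).trans ?_
      rw [sum_const, nsmul_eq_mul]
      apply mul_le_mul_of_nonneg_right _ (by positivity)
      exact_mod_cast card_le_card inter_subset_left
    have h7 : ∑ ξ ∈ 𝔐 ∩ range H, ‖hat H f ξ‖ ^ 2 ≤ (H : ℝ) ^ 2 :=
      (sum_le_sum_of_subset_of_nonneg inter_subset_right fun _ _ _ => by positivity).trans
        (hsq f hf1)
    have h8 : (∑ ξ ∈ 𝔐 ∩ range H, ‖hat H g ξ‖ * ‖hat H f ξ‖) ^ 2 ≤
        (δ * Real.sqrt 𝔐.card * (H : ℝ) ^ 2) ^ 2 := by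
      refine this.trans ?_
      refine (mul_le_mul h6 h7 (sum_nonneg fun _ _ => by positivity) (by positivity)).trans ?_
      apply le_of_eq
      have h10 : Real.sqrt (𝔐.card : ℝ) ^ 2 = 𝔐.card := Real.sq_sqrt (Nat.cast_nonneg _)
      rw [mul_pow (δ * Real.sqrt 𝔐.card), mul_pow δ (Real.sqrt 𝔐.card), h10]
      ring
    exact (pow_le_pow_iff_left₀ (sum_nonneg fun _ _ => by positivity) (by positivity)
      two_ne_zero).mp h8
  calc 1 / (H : ℝ) * ‖∑ ξ ∈ range H, hat H g ξ * (starRingEnd ℂ) (hat H f ξ) *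
        ∑ n ∈ 𝒩, (w n : ℂ) * ee (n * (k * (ξ / H)))‖
      ≤ 1 / (H : ℝ) * ((H : ℝ) ^ 2 * B + (δ * Real.sqrt 𝔐.card * (H : ℝ) ^ 2) * A) := by
        apply mul_le_mul_of_nonneg_left _ (by positivity)
        linarith
    _ = (B + A * δ * Real.sqrt 𝔐.card) * H := by field_simp

end Pool.Agent.H78.OM
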