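import Pool.Agent.H78.OM.Window

/-!
# The key lemma implies the finite contradiction theorem
-/

namespace Pool.Agent.H78.OM

open Finset

/-- extension by zero -/
def ext {m : ℕ} {L : ℕ} (x : Fin L → ZMod m) (b : ℕ) : ZMod m :=
  if h : b < L then x ⟨b, h⟩ else 0

theorem ext_of_lt {m : ℕ} {L : ℕ} (x : Fin L → ZMod m) {b : ℕ} (h : b < L) :
    ext x b = x ⟨b, h⟩ := by unfold ext; simp [h]

/-- one residue condition: many conflicts at `p` force many bad residues -/
theorem bad_card {m H Dm W p : ℕ} {π : Par m} (x : ℕ → ZMod m) (hp : p.Prime) (hp4 : p % 4 = 1) (hpH : p ≤ H)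
    (hW : Nat.Coprime p W) (Cf : Finset ℕ) (hCf : ∀ b ∈ Cf, b < H ∧ Conf π H Dm x b p)
    (B : Finset ℕ) (hB : ∀ k, k < p → (∃ b, Conf π H Dm x b p ∧ p ∣ (W * k + b) ^ 2 + 1) → k ∈ B) :
    (Cf.card : ℝ) / (2 * H) ≤ (B.card : ℝ) / p := by
  classical
  have : Fact p.Prime := ⟨hp⟩
  have : NeZero p := ⟨hp.ne_zero⟩
  obtain ⟨ρ, hρ⟩ : ∃ ρ : ZMod p, ρ ^ 2 = -1 := by
    have := (ZMod.exists_sq_eq_neg_one_iff (p := p)).mpr (by omega)
    obtain ⟨y, hy⟩ := this
    exact ⟨y, by rw [hy]; ring⟩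
  have hWu : (W : ZMod p) ≠ 0 := by
    intro h
    rw [ZMod.natCast_eq_zero_iff] at h
    exact (Nat.Prime.coprime_iff_not_dvd hp).mp hW h
  let φ : ℕ → ℕ := fun b => ((ρ - b) * (W : ZMod p)⁻¹ : ZMod p).val
  have hφ : ∀ b, (W : ZMod p) * (φ b : ZMod p) + b = ρ := by
    intro b
    simp only [φ, ZMod.natCast_zmod_val]
    field_simp
    ring
  have hmaps : ∀ b ∈ Cf, φ b ∈ B := by
    intro b hb
    refine hB _ (ZMod.val_lt _) ⟨b, (hCf b hb).2, ?_⟩
    rw [← ZMod.natCast_eq_zero_iff]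
    push_cast
    rw [hφ, hρ]; ring
  have hpos : 0 < p := hp.pos
  have hfib : ∀ k ∈ B, (Cf.filter (fun b => φ b = k)).card ≤ H / p + 1 := by
    intro k _
    by_cases hne : (Cf.filter (fun b => φ b = k)).Nonempty
    · obtain ⟨b0, hb0⟩ := hne
      have hb0' := (mem_filter.mp hb0)
      -- all elements are congruent to b0 mod p
      have hsub : Cf.filter (fun b => φ b = k) ⊆
          (range H).filter (fun b => b ≡ b0 [MOD p]) := by
        intro b hb
        have hb' := mem_filter.mp hb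
        rw [mem_filter, mem_range]
        refine ⟨(hCf b hb'.1).1, ?_⟩
        rw [← ZMod.natCast_eq_natCast_iff]
        have h1 := hφ b
        have h2 := hφ b0
        rw [hb'.2] at h1
        rw [hb0'.2] at h2
        have := h1.trans h2.symm
        exact add_left_cancel this
      refine (card_le_card hsub).trans ?_
      rw [← Nat.count_eq_card_filter_range]
      have := Nat.count_modEq_card H hpos b0
      rw [this]
      split_ifs <;> omega
    · rw [not_nonempty_iff_eq_empty] at hne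
      rw [hne]; simp
  have hcard : Cf.card ≤ (H / p + 1) * B.card := by
    rw [mul_comm]
    exact card_le_mul_card_image_of_maps_to hmaps (H / p + 1) hfib |>.trans (by rw [mul_comm])
  have hH : (0 : ℝ) < H := by
    have : 0 < H := lt_of_lt_of_le hpos hpH
    exact_mod_cast this
  have hpR : (0 : ℝ) < p := by exact_mod_cast hpos
  have h1 : ((H / p : ℕ) : ℝ) + 1 ≤ 2 * H / p := by
    have e1 : ((H / p : ℕ) : ℝ) ≤ (H : ℝ) / p := Nat.cast_div_le
    have e2 : (1 : ℝ) ≤ (H : ℝ) / p := by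
      rw [le_div_iff₀ hpR]; simpa using (by exact_mod_cast hpH : (p : ℝ) ≤ H)
    have : 2 * (H : ℝ) / p = (H : ℝ) / p + (H : ℝ) / p := by ring
    rw [this]; linarith
  have h2 : (Cf.card : ℝ) ≤ (2 * H / p) * B.card := by
    calc (Cf.card : ℝ) ≤ (((H / p + 1) * B.card : ℕ) : ℝ) := by exact_mod_cast hcard
      _ = (((H / p : ℕ) : ℝ) + 1) * B.card := by push_cast; ring
      _ ≤ _ := mul_le_mul_of_nonneg_right h1 (Nat.cast_nonneg _)
  rw [div_le_div_iff₀ (by positivity) hpR]
  calc (Cf.card : ℝ) * p ≤ (2 * H / p) * B.card * p := mul_le_mul_of_nonneg_right h2 hpR.le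
    _ = B.card * (2 * H) := by field_simp


namespace Sc

variable (S : Sc)

open Classical in
/-- the bad residues at `p` -/
noncomputable def Bad (j : ℕ) (x : ℕ → ZMod S.m) (p : ℕ) : Finset ℕ :=
  (range p).filter (fun k => ∃ b, Conf S.π (S.H j) S.Dm x b p ∧ p ∣ (S.W * k + b) ^ 2 + 1)

theorem dvd_mod_iff {p W k b : ℕ} : p ∣ (W * (k % p) + b) ^ 2 + 1 ↔ p ∣ (W * k + b) ^ 2 + 1 := by
  have h : (W * (k % p) + b) ^ 2 + 1 ≡ (W * k + b) ^ 2 + 1 [MOD p] := by
    have h1 : k % p ≡ k [MOD p] := Nat.mod_modEq _ _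
    gcongr
  exact (Nat.ModEq.dvd_iff h (dvd_refl p))

open Classical in
theorem new_eq_prod (j k : ℕ) (x : ℕ → ZMod S.m) :
    (if S.New j k x then (1 : ℝ) else 0) =
      ∏ p ∈ PS S.π.M0 S.C (S.H j), (if k % p ∈ S.Bad j x p then (0 : ℝ) else 1) := by
  by_cases h : S.New j k x
  · rw [if_pos h]
    symm
    apply prod_eq_one
    intro p hp
    rw [if_neg]
    intro hk
    unfold Bad at hk
    rw [mem_filter] at hk
    obtain ⟨_, b, hb, hd⟩ := hk
    rw [dvd_mod_iff] at hd
    exact h p hp b hb hd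
  · rw [if_neg h]
    symm
    unfold New at h
    push Not at h
    obtain ⟨p, hp, b, hc, hd⟩ := h
    apply prod_eq_zero hp
    rw [if_pos]
    unfold Bad
    rw [mem_filter, mem_range]
    exact ⟨Nat.mod_lt _ (S.prime_of_mem hp).pos, b, hc, dvd_mod_iff.mpr hd⟩

open Classical in
theorem avg_new (j : ℕ) (x : ℕ → ZMod S.m) :
    ∑ k ∈ range (S.M j), (if S.New j k x then (1 : ℝ) else 0) =
      ∏ p ∈ PS S.π.M0 S.C (S.H j), ((p : ℝ) - (S.Bad j x p).card) := by
  simp_rw [new_eq_prod]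
  unfold M
  rw [sum_range_prod (PS S.π.M0 S.C (S.H j)) (fun p => p) (fun p hp => (S.prime_of_mem hp).pos)
    (fun p hp q hq hne => (Nat.coprime_primes (S.prime_of_mem hp) (S.prime_of_mem hq)).mpr hne)
    (fun p k => if k % p ∈ S.Bad j x p then (0 : ℝ) else 1)
    (fun p _ k => by simp)]
  refine prod_congr rfl fun p hp => ?_
  have h1 : ∑ k ∈ range p, (if k % p ∈ S.Bad j x p then (0 : ℝ) else 1) =
      ∑ k ∈ range p, (1 - if k ∈ S.Bad j x p then (1 : ℝ) else 0) := by
    refine sum_congr rfl fun k hk => ?_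
    rw [Nat.mod_eq_of_lt (mem_range.mp hk)]
    split_ifs <;> simp
  rw [h1, sum_sub_distrib]
  have h2 : ∑ k ∈ range p, (if k ∈ S.Bad j x p then (1 : ℝ) else 0) = (S.Bad j x p).card := by
    rw [sum_boole]
    congr 2
    ext k
    simp only [mem_filter, mem_range, and_iff_right_iff_imp]
    intro hk
    unfold Bad at hk
    exact mem_range.mp (mem_filter.mp hk).1
  rw [h2]
  simp

open Classical in
theorem avg_new_le (j : ℕ) (x : ℕ → ZMod S.m) {η : ℝ}
    (hη : η * (2 * S.H j) ≤ (((Finset.range (S.H j) ×ˢ PS S.π.M0 S.C (S.H j)).filter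
      (fun q => Conf S.π (S.H j) S.Dm x q.1 q.2)).card : ℝ)) :
    ∑ k ∈ range (S.M j), (if S.New j k x then (1 : ℝ) else 0) ≤ S.M j * Real.exp (-η) := by
  rw [avg_new]
  have hHpos : (0 : ℝ) < S.H j := by exact_mod_cast S.H_pos j
  have hfac : ∀ p ∈ PS S.π.M0 S.C (S.H j), ((p : ℝ) - (S.Bad j x p).card) ≤
      p * Real.exp (-(((range (S.H j)).filter (fun b => Conf S.π (S.H j) S.Dm x b p)).card /
        (2 * S.H j))) := by
    intro p hp
    have hpp := S.prime_of_mem hp
    have hpR : (0 : ℝ) < p := by exact_mod_cast hpp.pos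
    have hp' := hp
    unfold PS at hp'
    simp only [mem_filter, mem_range] at hp'
    have hp4 : p % 4 = 1 := by
      have := (S.mod_of_mem hp).of_dvd S.π.h4
      simpa [Nat.ModEq] using this
    have h1 := bad_card (m := S.m) (H := S.H j) (Dm := S.Dm) (W := S.W) x hpp hp4
      (by omega) (S.coprime_W hp) ((range (S.H j)).filter (fun b => Conf S.π (S.H j) S.Dm x b p))
      (fun b hb => by simpa using hb) (S.Bad j x p)
      (fun k hk hb => by unfold Bad; rw [mem_filter, mem_range]; exact ⟨hk, hb⟩)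
    have h2 : ((p : ℝ) - (S.Bad j x p).card) = p * (1 - (S.Bad j x p).card / p) := by
      field_simp
    rw [h2]
    apply mul_le_mul_of_nonneg_left _ hpR.le
    have h3 := Real.add_one_le_exp (-(((range (S.H j)).filter
      (fun b => Conf S.π (S.H j) S.Dm x b p)).card / (2 * (S.H j : ℝ))))
    linarith
  have hnn : ∀ p ∈ PS S.π.M0 S.C (S.H j), 0 ≤ ((p : ℝ) - (S.Bad j x p).card) := by
    intro p hp
    have : (S.Bad j x p).card ≤ p := by
      unfold Bad
      exact (card_filter_le _ _).trans (by simp)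
    have : ((S.Bad j x p).card : ℝ) ≤ p := by exact_mod_cast this
    linarith
  refine (prod_le_prod hnn hfac).trans ?_
  rw [prod_mul_distrib, ← Real.exp_sum]
  unfold M
  rw [Nat.cast_prod]
  apply mul_le_mul_of_nonneg_left _ (prod_nonneg fun _ _ => Nat.cast_nonneg _)
  apply Real.exp_le_exp.mpr
  rw [sum_neg_distrib, neg_le_neg_iff, ← sum_div, le_div_iff₀ (by positivity)]
  refine hη.trans ?_
  rw [card_filter, sum_product_right]
  push_cast
  apply sum_le_sum
  intro p _
  rw [card_filter]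
  push_cast
  exact le_refl _

end Sc

end Pool.Agent.H78.OM
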