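import Pool.Agent.H6.Hooley2

/-!
# The sieve majorant: product structure
-/

namespace Pool.Agent.H78.OM

open Finset
open Pool.Agent.H6.Hooley

section blocks

variable (I : ℕ → Finset ℕ) (k : ℕ → ℕ)

/-- the primes of the first `N` blocks -/
def PI (N : ℕ) : Finset ℕ := (range N).biUnion I

/-- the admissible sets of primes -/
def famA (N : ℕ) : Finset (Finset ℕ) :=
  (PI I N).powerset.filter (fun A => ∀ i < N, (A ∩ I i).card ≤ k i)

variable {I k}

theorem mem_famA {N : ℕ} {A : Finset ℕ} : A ∈ famA I k N ↔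
    A ⊆ PI I N ∧ ∀ i < N, (A ∩ I i).card ≤ k i := by
  unfold famA; rw [mem_filter, mem_powerset]

theorem mem_famU {b : ℕ} {B D : Finset ℕ} : D ∈ famU b B ↔ D ⊆ B ∧ D.card ≤ b := by
  unfold famU; rw [mem_filter, mem_powerset]

theorem mem_PI {N p : ℕ} : p ∈ PI I N ↔ ∃ i < N, p ∈ I i := by
  unfold PI; simp [mem_biUnion]

theorem sum_blocks (hdisj : ∀ i j, i ≠ j → Disjoint (I i) (I j)) (f : ℕ → Finset ℕ → ℝ) (N : ℕ) :
    ∑ A ∈ famA I k N, ∏ i ∈ range N, f i (A ∩ I i) =
      ∏ i ∈ range N, ∑ B ∈ famU (k i) (I i), f i B := by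
  induction N with
  | zero =>
    have : famA I k 0 = {∅} := by
      ext A
      rw [mem_famA, mem_singleton]
      constructor
      · rintro ⟨h, _⟩
        have : PI I 0 = ∅ := by simp [PI]
        rw [this] at h
        exact subset_empty.mp h
      · rintro rfl
        exact ⟨empty_subset _, fun i hi => absurd hi (by omega)⟩
    rw [this]; simp
  | succ N ih =>
    rw [prod_range_succ, ← ih, sum_mul_sum, ← sum_product']
    have hPN : Disjoint (PI I N) (I N) := by
      rw [disjoint_left]
      intro p hp hpN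
      obtain ⟨i, hi, hpi⟩ := mem_PI.mp hp
      exact disjoint_left.mp (hdisj i N (by omega)) hpi hpN
    have hPI : PI I (N + 1) = PI I N ∪ I N := by
      ext p
      rw [mem_union, mem_PI, mem_PI]
      constructor
      · rintro ⟨i, hi, hp⟩
        rcases Nat.lt_succ_iff_lt_or_eq.mp hi with h | h
        · exact Or.inl ⟨i, h, hp⟩
        · exact Or.inr (h ▸ hp)
      · rintro (⟨i, hi, hp⟩ | hp)
        · exact ⟨i, by omega, hp⟩
        · exact ⟨N, by omega, hp⟩
    symm
    refine sum_bij (fun x _ => x.1 ∪ x.2) ?_ ?_ ?_ ?_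
    · rintro ⟨A, B⟩ hx
      rw [mem_product, mem_famA, mem_famU] at hx
      obtain ⟨⟨hA, hA2⟩, hB, hB2⟩ := hx
      simp only at hA hA2 hB hB2
      rw [mem_famA, hPI]
      refine ⟨union_subset_union hA hB, fun i hi => ?_⟩
      show ((A ∪ B) ∩ I i).card ≤ k i
      rcases Nat.lt_succ_iff_lt_or_eq.mp hi with h | h
      · have : (A ∪ B) ∩ I i = A ∩ I i := by
          rw [union_inter_distrib_right]
          have : B ∩ I i = ∅ := by
            rw [← disjoint_iff_inter_eq_empty]
            exact disjoint_of_subset_left hB (hdisj N i (by omega))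
          rw [this, union_empty]
        rw [this]; exact hA2 i h
      · subst h
        have : (A ∪ B) ∩ I i = B := by
          rw [union_inter_distrib_right]
          have h1 : A ∩ I i = ∅ := by
            rw [← disjoint_iff_inter_eq_empty]
            exact disjoint_of_subset_left hA hPN
          rw [h1, empty_union, inter_eq_left.mpr hB]
        rw [this]; exact hB2
    · rintro ⟨A, B⟩ hx ⟨A', B'⟩ hx' h
      rw [mem_product, mem_famA, mem_famU] at hx hx'
      obtain ⟨⟨hA, _⟩, hB, _⟩ := hx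
      obtain ⟨⟨hA', _⟩, hB', _⟩ := hx'
      simp only at hA hB hA' hB' h
      have e1 : ∀ A B : Finset ℕ, A ⊆ PI I N → B ⊆ I N → (A ∪ B) ∩ PI I N = A := by
        intro A B hA hB
        rw [union_inter_distrib_right, inter_eq_left.mpr hA]
        have : B ∩ PI I N = ∅ := by
          rw [← disjoint_iff_inter_eq_empty]
          exact disjoint_of_subset_left hB hPN.symm
        rw [this, union_empty]
      have e2 : ∀ A B : Finset ℕ, A ⊆ PI I N → B ⊆ I N → (A ∪ B) ∩ I N = B := by
        intro A B hA hB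
        rw [union_inter_distrib_right, inter_eq_left.mpr hB]
        have : A ∩ I N = ∅ := by
          rw [← disjoint_iff_inter_eq_empty]
          exact disjoint_of_subset_left hA hPN
        rw [this, empty_union]
      rw [Prod.mk.injEq]
      exact ⟨by rw [← e1 A B hA hB, h, e1 A' B' hA' hB'], by
        rw [← e2 A B hA hB, h, e2 A' B' hA' hB']⟩
    · intro C hC
      rw [mem_famA, hPI] at hC
      obtain ⟨hC1, hC2⟩ := hC
      refine ⟨(C ∩ PI I N, C ∩ I N), ?_, ?_⟩
      · rw [mem_product, mem_famA, mem_famU]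
        refine ⟨⟨inter_subset_right, fun i hi => ?_⟩, inter_subset_right, hC2 N (by omega)⟩
        show ((C ∩ PI I N) ∩ I i).card ≤ k i
        refine (card_le_card ?_).trans (hC2 i (by omega))
        exact inter_subset_inter inter_subset_left (Subset.refl _)
      · show (C ∩ PI I N) ∪ (C ∩ I N) = C
        rw [← inter_union_distrib_left]
        exact inter_eq_left.mpr hC1
    · rintro ⟨A, B⟩ hx
      rw [mem_product, mem_famA, mem_famU] at hx
      obtain ⟨⟨hA, _⟩, hB, _⟩ := hx
      simp only at hA hB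
      show (∏ i ∈ range N, f i (A ∩ I i)) * f N B = ∏ i ∈ range (N + 1), f i ((A ∪ B) ∩ I i)
      rw [prod_range_succ]
      congr 1
      · refine prod_congr rfl fun i hi => ?_
        have h := mem_range.mp hi
        have : (A ∪ B) ∩ I i = A ∩ I i := by
          rw [union_inter_distrib_right]
          have : B ∩ I i = ∅ := by
            rw [← disjoint_iff_inter_eq_empty]
            exact disjoint_of_subset_left hB (hdisj N i (by omega))
          rw [this, union_empty]
        rw [this]
      · have : (A ∪ B) ∩ I N = B := by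
          rw [union_inter_distrib_right]
          have h1 : A ∩ I N = ∅ := by
            rw [← disjoint_iff_inter_eq_empty]
            exact disjoint_of_subset_left hA hPN
          rw [h1, empty_union, inter_eq_left.mpr hB]
        rw [this]

/-- products over the blocks -/
theorem prod_blocks {M : Type*} [CommMonoid M] (hdisj : ∀ i j, i ≠ j → Disjoint (I i) (I j))
    {N : ℕ} {A : Finset ℕ} (hA : A ⊆ PI I N) (g : ℕ → M) :
    ∏ i ∈ range N, ∏ p ∈ A ∩ I i, g p = ∏ p ∈ A, g p := by
  rw [← prod_biUnion]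
  · congr 1
    ext p
    rw [mem_biUnion]
    constructor
    · rintro ⟨i, _, hp⟩
      exact (mem_inter.mp hp).1
    · intro hp
      obtain ⟨i, hi, hpi⟩ := mem_PI.mp (hA hp)
      exact ⟨i, mem_range.mpr hi, mem_inter.mpr ⟨hp, hpi⟩⟩
  · intro i _ j _ hij
    rw [Function.onFun]
    exact disjoint_of_subset_left inter_subset_right
      (disjoint_of_subset_right inter_subset_right (hdisj i j hij))

theorem sum_card_blocks (hdisj : ∀ i j, i ≠ j → Disjoint (I i) (I j))
    {N : ℕ} {A : Finset ℕ} (hA : A ⊆ PI I N) :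
    ∏ i ∈ range N, (-1 : ℝ) ^ (A ∩ I i).card = (-1) ^ A.card := by
  have := prod_blocks hdisj hA (fun _ => (-1 : ℝ))
  simpa [prod_const] using this

/-- divisibility -/
def dv (q s : ℕ) : Prop := q ∣ s

/-- the majorant -/
noncomputable def rhoM (I : ℕ → Finset ℕ) (k : ℕ → ℕ) (N n : ℕ) : ℝ :=
  ∏ i ∈ range N, Uf dv (k i) (I i) n

theorem rhoM_nonneg (hk : ∀ i, Even (k i)) (N n : ℕ) : 0 ≤ rhoM I k N n := by
  unfold rhoM
  exact prod_nonneg fun i _ => (Zf_nonneg (bad := dv) (I i) n).trans (Zf_le_Uf (hk i) _ _)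

theorem one_le_rhoM (hk : ∀ i, Even (k i)) {N n : ℕ} (h : ∀ i < N, ∀ p ∈ I i, ¬ p ∣ n) :
    1 ≤ rhoM I k N n := by
  unfold rhoM
  have h1 : ∏ _i ∈ range N, (1 : ℝ) = 1 := by simp
  rw [← h1]
  refine prod_le_prod (fun _ _ => zero_le_one) fun i hi => ?_
  refine le_trans (le_of_eq ?_) (Zf_le_Uf (bad := dv) (hk i) (I i) n)
  unfold Zf
  rw [if_pos]
  exact fun p hp => h i (mem_range.mp hi) p hp

theorem ind_dv {D : Finset ℕ} (hD : ∀ p ∈ D, p.Prime) (n : ℕ) :
    ind dv D n = if (∏ p ∈ D, p) ∣ n then 1 else 0 := by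
  unfold ind
  have h : (∀ q ∈ D, dv q n) ↔ (∏ p ∈ D, p) ∣ n := by
    constructor
    · intro h
      exact Finset.prod_primes_dvd n (fun p hp => (hD p hp).prime) h
    · intro h p hp
      exact (dvd_prod_of_mem (fun p => p) hp).trans h
  simp only [h]

/-- expansion of the majorant -/
theorem rhoM_eq (hdisj : ∀ i j, i ≠ j → Disjoint (I i) (I j)) (hI : ∀ i, ∀ p ∈ I i, p.Prime)
    (N n : ℕ) : rhoM I k N n =
      ∑ A ∈ famA I k N, (-1 : ℝ) ^ A.card * (if (∏ p ∈ A, p) ∣ n then 1 else 0) := by
  unfold rhoM Uf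
  rw [← sum_blocks hdisj (fun i D => (-1 : ℝ) ^ D.card * ind dv D n)]
  refine sum_congr rfl fun A hA => ?_
  rw [mem_famA] at hA
  rw [prod_mul_distrib, sum_card_blocks hdisj hA.1]
  congr 1
  have hAp : ∀ p ∈ A, p.Prime := by
    intro p hp
    obtain ⟨i, _, hpi⟩ := mem_PI.mp (hA.1 hp)
    exact hI i p hpi
  have h1 : ∀ i ∈ range N, ind dv (A ∩ I i) n = ∏ p ∈ A ∩ I i, (if p ∣ n then (1 : ℝ) else 0) := by
    intro i _
    rw [prod_ite_zero]
    simp only [prod_const_one]
    unfold ind dv
    congr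
  rw [prod_congr rfl h1, prod_blocks hdisj hA.1, ← ind_dv hAp, prod_ite_zero]
  simp only [prod_const_one]
  unfold ind dv
  congr

end blocks

end Pool.Agent.H78.OM
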