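import Pool.Agent.H78.OM.Maj1

/-!
# The sieve majorant: main terms
-/

namespace Pool.Agent.H78.OM

open Finset
open Pool.Agent.H6.Hooley

/-- reciprocal sum of a block -/
noncomputable def rs (B : Finset ℕ) : ℝ := ∑ p ∈ B, 1 / (p : ℝ)

/-- Euler factor of a block -/
noncomputable def Wb (B : Finset ℕ) : ℝ := ∏ p ∈ B, (1 - 1 / (p : ℝ))

/-- main term of a block -/
noncomputable def VB (b : ℕ) (B E : Finset ℕ) : ℝ :=
  ∑ D ∈ famU b B, if E ⊆ D then (-1 : ℝ) ^ D.card * ∏ p ∈ D, 1 / (p : ℝ) else 0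

theorem sum_powerset_prod_le (B : Finset ℕ) (x : ℝ) (hx : 0 ≤ x) :
    ∑ D ∈ B.powerset, ∏ p ∈ D, (x / (p : ℝ)) ≤ Real.exp (x * rs B) := by
  rw [← prod_one_add]
  unfold rs
  rw [mul_sum, Real.exp_sum]
  refine prod_le_prod (fun p _ => by positivity) fun p _ => ?_
  have := Real.add_one_le_exp (x * (1 / (p : ℝ)))
  have e : x / (p : ℝ) = x * (1 / p) := by ring
  rw [e]; linarith

theorem VB_le (b : ℕ) (B E : Finset ℕ) :
    |VB b B E| ≤ (∏ p ∈ E, 1 / (p : ℝ)) * Real.exp (rs B) := by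
  classical
  have h1 : |VB b B E| ≤ ∑ D ∈ B.powerset.filter (fun D => E ⊆ D), ∏ p ∈ D, 1 / (p : ℝ) := by
    unfold VB
    refine (abs_sum_le_sum_abs _ _).trans ?_
    rw [sum_filter]
    have h2 : ∀ D ∈ famU b B, |if E ⊆ D then (-1 : ℝ) ^ D.card * ∏ p ∈ D, 1 / (p : ℝ) else 0| =
        if E ⊆ D then ∏ p ∈ D, 1 / (p : ℝ) else 0 := by
      intro D _
      split_ifs
      · rw [abs_mul, abs_pow, abs_neg, abs_one, one_pow, one_mul, abs_of_nonneg]
        exact prod_nonneg fun _ _ => by positivity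
      · simp
    rw [sum_congr rfl h2]
    apply sum_le_sum_of_subset_of_nonneg
    · intro D hD
      rw [mem_famU] at hD
      exact mem_powerset.mpr hD.1
    · intro D _ _
      split_ifs
      · exact prod_nonneg fun _ _ => by positivity
      · exact le_rfl
  refine h1.trans ?_
  have h2 : ∑ D ∈ B.powerset.filter (fun D => E ⊆ D), ∏ p ∈ D, 1 / (p : ℝ) =
      (∏ p ∈ E, 1 / (p : ℝ)) * ∑ D ∈ (B.powerset.filter (fun D => E ⊆ D)).image (fun D => D \ E),
        ∏ p ∈ D, 1 / (p : ℝ) := by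
    rw [sum_image, mul_sum]
    · refine sum_congr rfl fun D hD => ?_
      rw [mul_comm, prod_sdiff (mem_filter.mp hD).2]
    · intro D hD D' hD' h
      simp only at h
      rw [← sdiff_union_of_subset (mem_filter.mp hD).2, h,
        sdiff_union_of_subset (mem_filter.mp hD').2]
  rw [h2]
  apply mul_le_mul_of_nonneg_left _ (prod_nonneg fun _ _ => by positivity)
  have h3 := sum_powerset_prod_le B 1 zero_le_one
  rw [one_mul] at h3
  refine le_trans ?_ h3
  apply sum_le_sum_of_subset_of_nonneg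
  · intro D hD
    rw [mem_image] at hD
    obtain ⟨D', hD', rfl⟩ := hD
    exact mem_powerset.mpr (sdiff_subset.trans (mem_powerset.mp (mem_filter.mp hD').1))
  · intro D _ _
    exact prod_nonneg fun _ _ => by positivity

theorem Wb_eq (B : Finset ℕ) : Wb B = ∑ D ∈ B.powerset, (-1 : ℝ) ^ D.card * ∏ p ∈ D, 1 / (p : ℝ) := by
  unfold Wb
  have : ∏ p ∈ B, (1 - 1 / (p : ℝ)) = ∏ p ∈ B, (1 + (-1) * (1 / (p : ℝ))) :=
    prod_congr rfl fun p _ => by ring
  rw [this, prod_one_add]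
  refine sum_congr rfl fun D _ => ?_
  rw [prod_mul_distrib, prod_const]

theorem VB_empty (b : ℕ) (B : Finset ℕ) :
    |VB b B ∅ - Wb B| ≤ (1 / 2) ^ (b + 1) * Real.exp (2 * rs B) := by
  classical
  have h1 : Wb B - VB b B ∅ =
      ∑ D ∈ B.powerset.filter (fun D => ¬ D.card ≤ b), (-1 : ℝ) ^ D.card * ∏ p ∈ D, 1 / (p : ℝ) := by
    rw [Wb_eq, ← sum_filter_add_sum_filter_not B.powerset (fun D => D.card ≤ b)]
    unfold VB famU
    simp
  rw [abs_sub_comm, h1]
  refine (abs_sum_le_sum_abs _ _).trans ?_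
  have h2 : ∀ D ∈ B.powerset.filter (fun D => ¬ D.card ≤ b),
      |(-1 : ℝ) ^ D.card * ∏ p ∈ D, 1 / (p : ℝ)| ≤ (1 / 2) ^ (b + 1) * ∏ p ∈ D, (2 / (p : ℝ)) := by
    intro D hD
    rw [abs_mul, abs_pow, abs_neg, abs_one, one_pow, one_mul,
      abs_of_nonneg (prod_nonneg fun _ _ => by positivity)]
    have hc : b + 1 ≤ D.card := by
      have := (mem_filter.mp hD).2
      omega
    have e : ∏ p ∈ D, (2 / (p : ℝ)) = 2 ^ D.card * ∏ p ∈ D, 1 / (p : ℝ) := by
      rw [← prod_const, ← prod_mul_distrib]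
      exact prod_congr rfl fun p _ => by ring
    rw [e, ← mul_assoc]
    apply le_mul_of_one_le_left (prod_nonneg fun _ _ => by positivity)
    obtain ⟨c, hc'⟩ := Nat.exists_eq_add_of_le hc
    rw [hc', pow_add 2 (b + 1) c, ← mul_assoc, ← mul_pow]
    norm_num
    exact one_le_pow₀ (by norm_num)
  refine (sum_le_sum h2).trans ?_
  rw [← mul_sum]
  apply mul_le_mul_of_nonneg_left _ (by positivity)
  refine le_trans ?_ (sum_powerset_prod_le B 2 (by norm_num))
  apply sum_le_sum_of_subset_of_nonneg (filter_subset _ _)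
  intro D _ _
  exact prod_nonneg fun _ _ => by positivity

theorem Wb_ge (B : Finset ℕ) (hB : ∀ p ∈ B, 2 ≤ p) : Real.exp (-(2 * rs B)) ≤ Wb B := by
  unfold rs Wb
  rw [mul_sum, ← sum_neg_distrib, Real.exp_sum]
  refine prod_le_prod (fun p _ => (Real.exp_pos _).le) fun p hp => ?_
  have hp2 : (2 : ℝ) ≤ p := by exact_mod_cast hB p hp
  set x : ℝ := 1 / (p : ℝ) with hx
  have hx0 : 0 < x := by positivity
  have hx1 : x ≤ 1 / 2 := by
    rw [hx]; exact one_div_le_one_div_of_le (by norm_num) hp2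
  have h1 : 0 < 1 - x := by linarith
  rw [← Real.le_log_iff_exp_le h1]
  have h2 := Real.log_le_sub_one_of_pos (inv_pos.mpr h1)
  rw [Real.log_inv] at h2
  have h3 : (1 - x)⁻¹ - 1 ≤ 2 * x := by
    rw [sub_le_iff_le_add, inv_le_iff_one_le_mul₀ h1]
    nlinarith
  linarith

theorem Wb_pos (B : Finset ℕ) (hB : ∀ p ∈ B, 2 ≤ p) : 0 < Wb B :=
  lt_of_lt_of_le (Real.exp_pos _) (Wb_ge B hB)

section main

variable {I : ℕ → Finset ℕ} {B0 : ℝ}

/-- main term -/
noncomputable def VE (I : ℕ → Finset ℕ) (k : ℕ → ℕ) (N : ℕ) (E : Finset ℕ) : ℝ :=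
  ∑ A ∈ famA I k N, if E ⊆ A then (-1 : ℝ) ^ A.card * ∏ p ∈ A, 1 / (p : ℝ) else 0

theorem VE_eq (hdisj : ∀ i j, i ≠ j → Disjoint (I i) (I j)) (k : ℕ → ℕ) (N : ℕ) (E : Finset ℕ)
    (hE : E ⊆ PI I N) : VE I k N E = ∏ i ∈ range N, VB (k i) (I i) (E ∩ I i) := by
  classical
  unfold VE VB
  rw [← sum_blocks hdisj (fun i D => if E ∩ I i ⊆ D then
    (-1 : ℝ) ^ D.card * ∏ p ∈ D, 1 / (p : ℝ) else 0)]
  refine sum_congr rfl fun A hA => ?_
  rw [mem_famA] at hA
  rw [prod_ite_zero]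
  have h1 : (∀ i ∈ range N, E ∩ I i ⊆ A ∩ I i) ↔ E ⊆ A := by
    constructor
    · intro h p hp
      obtain ⟨i, hi, hpi⟩ := mem_PI.mp (hE hp)
      exact (mem_inter.mp (h i (mem_range.mpr hi) (mem_inter.mpr ⟨hp, hpi⟩))).1
    · intro h i _
      exact inter_subset_inter h (Subset.refl _)
  simp only [h1]
  split_ifs
  · rw [prod_mul_distrib, sum_card_blocks hdisj hA.1, prod_blocks hdisj hA.1]
  · rfl

theorem Wb_PI (hdisj : ∀ i j, i ≠ j → Disjoint (I i) (I j)) (N : ℕ) :
    ∏ i ∈ range N, Wb (I i) = Wb (PI I N) := by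
  unfold Wb PI
  rw [prod_biUnion]
  intro i _ j _ hij
  exact hdisj i j hij

theorem sum_delta_le (N : ℕ) : ∑ i ∈ range N, (1 / 2 : ℝ) ^ (2 * (N - i) + 1) ≤ 1 := by
  rw [← sum_range_reflect]
  have h1 : ∀ j ∈ range N, (1 / 2 : ℝ) ^ (2 * (N - (N - 1 - j)) + 1) ≤ (1 / 2) * (1 / 2) ^ (j + 1) := by
    intro j hj
    have hj' := mem_range.mp hj
    have e : N - (N - 1 - j) = j + 1 := by omega
    rw [e]
    have : (1 / 2 : ℝ) * (1 / 2) ^ (j + 1) = (1 / 2) ^ (j + 2) := by ring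
    rw [this]
    exact pow_le_pow_of_le_one (by norm_num) (by norm_num) (by omega)
  refine (sum_le_sum h1).trans ?_
  rw [← mul_sum]
  have h2 : ∀ M : ℕ, ∑ j ∈ range M, (1 / 2 : ℝ) ^ (j + 1) ≤ 1 := by
    intro M
    have h3 : ∑ j ∈ range M, (1 / 2 : ℝ) ^ (j + 1) = 1 - (1 / 2) ^ M := by
      induction M with
      | zero => simp
      | succ M ih => rw [sum_range_succ, ih]; ring
    rw [h3]
    have : (0 : ℝ) ≤ (1 / 2) ^ M := by positivity
    linarith
  linarith [h2 N]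

/-- bound for the main terms -/
theorem VE_bound (hdisj : ∀ i j, i ≠ j → Disjoint (I i) (I j)) (hI : ∀ i, ∀ p ∈ I i, p.Prime)
    (hB0 : ∀ i, rs (I i) ≤ B0) (N : ℕ) {w : ℕ} (hw : ∀ i, ∀ p ∈ I i, w < p)
    (hwB : Real.exp (3 * B0) ≤ w) (E : Finset ℕ) (hE : E ⊆ PI I N) :
    |VE I (fun i => 2 * (N - i)) N E| ≤ Wb (PI I N) * Real.exp (Real.exp (4 * B0)) *
      (if E = ∅ then 1 else Real.exp (3 * B0) / w) := by
  classical
  have h2 : ∀ i, ∀ p ∈ I i, 2 ≤ p := fun i p hp => (hI i p hp).two_le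
  have hw0 : (0 : ℝ) < w := lt_of_lt_of_le (Real.exp_pos _) hwB
  rw [VE_eq hdisj _ N E hE, abs_prod]
  have hterm : ∀ i ∈ range N, |VB (2 * (N - i)) (I i) (E ∩ I i)| ≤
      Wb (I i) * Real.exp ((1 / 2) ^ (2 * (N - i) + 1) * Real.exp (4 * B0)) *
        (if E ∩ I i = ∅ then 1 else Real.exp (3 * B0) / w) := by
    intro i _
    have hW := Wb_ge (I i) (h2 i)
    have hWpos := Wb_pos (I i) (h2 i)
    have hWB : Real.exp (-(2 * B0)) ≤ Wb (I i) := by
      refine le_trans (Real.exp_le_exp.mpr ?_) hW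
      linarith [hB0 i]
    split_ifs with h
    · rw [h, mul_one]
      have h3 := VB_empty (2 * (N - i)) (I i)
      have h4 : |VB (2 * (N - i)) (I i) ∅| ≤ Wb (I i) +
          (1 / 2) ^ (2 * (N - i) + 1) * Real.exp (2 * rs (I i)) := by
        have h5 := abs_sub_abs_le_abs_sub (VB (2 * (N - i)) (I i) ∅) (Wb (I i))
        rw [abs_of_pos hWpos] at h5
        linarith
      refine h4.trans ?_
      set δ : ℝ := (1 / 2) ^ (2 * (N - i) + 1) with hδ
      have hδ0 : 0 < δ := by positivity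
      have h6 : Real.exp (2 * rs (I i)) ≤ Wb (I i) * Real.exp (4 * B0) := by
        calc Real.exp (2 * rs (I i)) ≤ Real.exp (2 * B0) :=
              Real.exp_le_exp.mpr (by linarith [hB0 i])
          _ = Real.exp (-(2 * B0)) * Real.exp (4 * B0) := by
              rw [← Real.exp_add]; congr 1; ring
          _ ≤ _ := mul_le_mul_of_nonneg_right hWB (Real.exp_pos _).le
      have h7 := Real.add_one_le_exp (δ * Real.exp (4 * B0))
      calc Wb (I i) + δ * Real.exp (2 * rs (I i)) ≤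
            Wb (I i) + δ * (Wb (I i) * Real.exp (4 * B0)) := by
              have := mul_le_mul_of_nonneg_left h6 hδ0.le
              linarith
        _ = Wb (I i) * (δ * Real.exp (4 * B0) + 1) := by ring
        _ ≤ _ := mul_le_mul_of_nonneg_left h7 hWpos.le
    · have h3 := VB_le (2 * (N - i)) (I i) (E ∩ I i)
      have hEne : (E ∩ I i).Nonempty := nonempty_iff_ne_empty.mpr h
      obtain ⟨p, hp⟩ := hEne
      have h4 : ∏ p ∈ E ∩ I i, 1 / (p : ℝ) ≤ 1 / w := by
        rw [← mul_prod_erase _ _ hp]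
        have hpw : (w : ℝ) ≤ p := by exact_mod_cast (hw i p (mem_inter.mp hp).2).le
        have h5 : 1 / (p : ℝ) ≤ 1 / w := one_div_le_one_div_of_le hw0 hpw
        have h6 : ∏ x ∈ (E ∩ I i).erase p, 1 / (x : ℝ) ≤ 1 := by
          apply prod_le_one
          · intro _ _; positivity
          · intro q hq
            have hq2 : (1 : ℝ) ≤ q := by
              have := h2 i q (mem_inter.mp (mem_of_mem_erase hq)).2
              exact_mod_cast (by omega : 1 ≤ q)
            rw [div_le_one (by linarith)]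
            exact hq2
        calc 1 / (p : ℝ) * ∏ x ∈ (E ∩ I i).erase p, 1 / (x : ℝ) ≤ 1 / w * 1 :=
              mul_le_mul h5 h6 (prod_nonneg fun _ _ => by positivity) (by positivity)
          _ = _ := by ring
      refine h3.trans ?_
      have h5 : Real.exp (rs (I i)) ≤ Wb (I i) * Real.exp (3 * B0) := by
        calc Real.exp (rs (I i)) ≤ Real.exp B0 := Real.exp_le_exp.mpr (hB0 i)
          _ = Real.exp (-(2 * B0)) * Real.exp (3 * B0) := by
              rw [← Real.exp_add]; congr 1; ring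
          _ ≤ _ := mul_le_mul_of_nonneg_right hWB (Real.exp_pos _).le
      have h6 : (1 : ℝ) ≤ Real.exp ((1 / 2) ^ (2 * (N - i) + 1) * Real.exp (4 * B0)) :=
        Real.one_le_exp (by positivity)
      calc (∏ p ∈ E ∩ I i, 1 / (p : ℝ)) * Real.exp (rs (I i)) ≤
            (1 / w) * (Wb (I i) * Real.exp (3 * B0)) :=
              mul_le_mul h4 h5 (Real.exp_pos _).le (by positivity)
        _ = Wb (I i) * 1 * (Real.exp (3 * B0) / w) := by ring
        _ ≤ _ := by
          apply mul_le_mul_of_nonneg_right _ (by positivity)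
          exact mul_le_mul_of_nonneg_left h6 hWpos.le
  refine (prod_le_prod (fun _ _ => abs_nonneg _) hterm).trans ?_
  rw [prod_mul_distrib, prod_mul_distrib, Wb_PI hdisj, ← Real.exp_sum]
  have hWP : 0 < Wb (PI I N) := by
    apply Wb_pos
    intro p hp
    obtain ⟨i, _, hpi⟩ := mem_PI.mp hp
    exact h2 i p hpi
  have hexp : Real.exp (∑ i ∈ range N, (1 / 2 : ℝ) ^ (2 * (N - i) + 1) * Real.exp (4 * B0)) ≤
      Real.exp (Real.exp (4 * B0)) := by
    apply Real.exp_le_exp.mpr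
    rw [← sum_mul]
    exact mul_le_of_le_one_left (Real.exp_pos _).le (sum_delta_le N)
  have hlast0 : 0 ≤ ∏ i ∈ range N, (if E ∩ I i = ∅ then (1 : ℝ) else Real.exp (3 * B0) / w) := by
    apply prod_nonneg
    intro i _
    split_ifs <;> positivity
  have hfac : ∀ i, (if E ∩ I i = ∅ then (1 : ℝ) else Real.exp (3 * B0) / w) ≤ 1 := by
    intro i
    split_ifs
    · exact le_rfl
    · rw [div_le_one hw0]; exact hwB
  have hlast : ∏ i ∈ range N, (if E ∩ I i = ∅ then (1 : ℝ) else Real.exp (3 * B0) / w) ≤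
      (if E = ∅ then 1 else Real.exp (3 * B0) / w) := by
    split_ifs with h
    · apply prod_le_one
      · intro i _
        split_ifs <;> positivity
      · intro i _; exact hfac i
    · obtain ⟨p, hp⟩ := nonempty_iff_ne_empty.mpr h
      obtain ⟨i, hi, hpi⟩ := mem_PI.mp (hE hp)
      rw [← mul_prod_erase _ _ (mem_range.mpr hi)]
      rw [if_neg (by
        intro h'
        have : p ∈ E ∩ I i := mem_inter.mpr ⟨hp, hpi⟩
        rw [h'] at this
        simp at this)]
      apply mul_le_of_le_one_right (by positivity)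
      apply prod_le_one
      · intro i _
        split_ifs <;> positivity
      · intro i _; exact hfac i
  calc _ ≤ Wb (PI I N) * Real.exp (Real.exp (4 * B0)) *
        ∏ i ∈ range N, (if E ∩ I i = ∅ then (1 : ℝ) else Real.exp (3 * B0) / w) := by
        apply mul_le_mul_of_nonneg_right _ hlast0
        exact mul_le_mul_of_nonneg_left hexp hWP.le
    _ ≤ _ := mul_le_mul_of_nonneg_left hlast (by positivity)

end main

end Pool.Agent.H78.OM
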