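import Pool.Agent.H78.OM.Fourier

/-!
# Exponential sums over arithmetic progressions
-/

namespace Pool.Agent.H78.OM

open Finset

/-- distance from `1` -/
theorem norm_ee_sub_one_ge {θ : ℝ} {δ : ℝ} (h : ∀ n : ℤ, δ ≤ |θ - n|) :
    4 * δ ≤ ‖ee θ - 1‖ := by
  -- reduce to `|θ'| ≤ 1/2`
  have h1 := abs_sub_round θ
  set r : ℝ := θ - round θ with hr
  have h2 : δ ≤ |r| := h (round θ)
  have h3 : ee θ = ee r := by
    have : θ = r + round θ := by rw [hr]; ring
    conv_lhs => rw [this]
    rw [ee_add, ee_int, mul_one]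
  have h4 : ‖ee r - 1‖ = 2 * |Real.sin (Real.pi * r)| := by
    unfold ee
    have : (2 * Real.pi * (r : ℂ) * Complex.I : ℂ) = Complex.I * ((2 * Real.pi * r : ℝ) : ℂ) := by
      push_cast; ring
    rw [this, Complex.norm_exp_I_mul_ofReal_sub_one]
    rw [norm_mul, Real.norm_eq_abs, Real.norm_eq_abs, abs_of_pos (by norm_num : (0:ℝ) < 2)]
    congr 3
    ring
  rw [h3, h4]
  have h5 : 2 * |r| ≤ |Real.sin (Real.pi * r)| := by
    have hle : |Real.pi * r| ≤ Real.pi / 2 := by
      rw [abs_mul, abs_of_pos Real.pi_pos]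
      have := Real.pi_pos
      nlinarith
    have := Real.mul_abs_le_abs_sin hle
    rw [abs_mul, abs_of_pos Real.pi_pos] at this
    have hpi := Real.pi_pos
    have e : 2 / Real.pi * (Real.pi * |r|) = 2 * |r| := by field_simp
    linarith
  linarith

/-- geometric sums -/
theorem geom_bound {θ δ : ℝ} (hδ : 0 < δ) (h : ∀ n : ℤ, δ ≤ |θ - n|) (N : ℕ) :
    ‖∑ j ∈ range N, ee (j * θ)‖ ≤ 1 / (2 * δ) := by
  have h1 := norm_ee_sub_one_ge h
  have h2 : ∑ j ∈ range N, ee (j * θ) = ∑ j ∈ range N, ee θ ^ j :=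
    sum_congr rfl fun j _ => ee_nsmul θ j
  have h3 := geom_sum_mul (ee θ) N
  rw [h2]
  have h4 : ‖∑ j ∈ range N, ee θ ^ j‖ * ‖ee θ - 1‖ ≤ 2 := by
    rw [← norm_mul, h3]
    refine (norm_sub_le _ _).trans ?_
    rw [norm_pow, norm_ee, one_pow, norm_one]; norm_num
  have h5 : ‖∑ j ∈ range N, ee θ ^ j‖ * (4 * δ) ≤ 2 :=
    (mul_le_mul_of_nonneg_left h1 (norm_nonneg _)).trans h4
  rw [le_div_iff₀ (by positivity)]
  linarith

/-- the progression as an image of a range -/
theorem ap_eq {q : ℕ} (hq : 0 < q) (c A B : ℕ) :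
    ∃ s N : ℕ, (Ioc A B).filter (fun n => n % q = c % q) =
      (range N).image (fun j => s + q * j) ∧ N ≤ (B - A) / q + 1 := by
  classical
  by_cases hne : ((Ioc A B).filter (fun n => n % q = c % q)).Nonempty
  · set s := ((Ioc A B).filter (fun n => n % q = c % q)).min' hne with hs
    have hsm := ((Ioc A B).filter (fun n => n % q = c % q)).min'_mem hne
    rw [← hs, mem_filter, mem_Ioc] at hsm
    obtain ⟨⟨hs1, hs2⟩, hs3⟩ := hsm
    refine ⟨s, (B - s) / q + 1, ?_, ?_⟩
    · ext n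
      rw [mem_filter, mem_Ioc, mem_image]
      constructor
      · rintro ⟨⟨h1, h2⟩, h3⟩
        have hsn : s ≤ n := min'_le _ _ (by rw [mem_filter, mem_Ioc]; exact ⟨⟨h1, h2⟩, h3⟩)
        have h4 : s ≡ n [MOD q] := by rw [Nat.ModEq, hs3, h3]
        obtain ⟨j, hj⟩ := (Nat.modEq_iff_dvd' hsn).mp h4
        refine ⟨j, ?_, by omega⟩
        rw [mem_range, Nat.lt_succ_iff, Nat.le_div_iff_mul_le hq, mul_comm]
        omega
      · rintro ⟨j, hj, rfl⟩
        rw [mem_range, Nat.lt_succ_iff, Nat.le_div_iff_mul_le hq, mul_comm] at hj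
        refine ⟨⟨by omega, by omega⟩, ?_⟩
        rw [Nat.add_mul_mod_self_left, hs3]
    · have : (B - s) / q ≤ (B - A) / q := Nat.div_le_div_right (by omega)
      omega
  · rw [not_nonempty_iff_eq_empty] at hne
    exact ⟨0, 0, by rw [hne]; simp, Nat.zero_le _⟩

/-- progression far from the integers -/
theorem ap_bound {q : ℕ} (hq : 0 < q) (c A B : ℕ) {t δ : ℝ} (hδ : 0 < δ)
    (h : ∀ n : ℤ, δ ≤ |q * t - n|) :
    ‖∑ n ∈ (Ioc A B).filter (fun n => n % q = c % q), ee (n * t)‖ ≤ 1 / (2 * δ) := by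
  obtain ⟨s, N, hN, _⟩ := ap_eq hq c A B
  rw [hN, sum_image]
  · have h1 : ∀ j ∈ range N, ee (((s + q * j : ℕ) : ℝ) * t) = ee (s * t) * ee (j * (q * t)) := by
      intro j _
      rw [← ee_add]; congr 1; push_cast; ring
    rw [sum_congr rfl h1, ← mul_sum, norm_mul, norm_ee, one_mul]
    exact geom_bound hδ h N
  · intro a _ b _ hab
    simp only at hab
    have : q * a = q * b := by omega
    exact Nat.eq_of_mul_eq_mul_left hq this

/-- comparison of consecutive classes -/
theorem ap_compare {q : ℕ} (hq : 0 < q) (c A B i : ℕ) {β : ℝ} (hi : i ≤ q) (hAB : A ≤ B) :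
    ‖∑ n ∈ (Ioc A B).filter (fun n => n % q = (c + i) % q), ee (n * β) -
      ∑ n ∈ (Ioc A B).filter (fun n => n % q = c % q), ee (n * β)‖ ≤
      2 + 2 * Real.pi * |β| * (B - A + q) := by
  classical
  set X := (Ioc A B).filter (fun n => n % q = c % q) with hX
  set Y := (Ioc A B).filter (fun n => n % q = (c + i) % q) with hY
  -- X' = elements of X whose shift stays in the interval
  set X' := X.filter (fun n => n + i ≤ B) with hX'
  have hsub : X'.image (fun n => n + i) ⊆ Y := by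
    intro n hn
    rw [mem_image] at hn
    obtain ⟨n', hn', rfl⟩ := hn
    rw [hX', hX, mem_filter, mem_filter, mem_Ioc] at hn'
    rw [hY, mem_filter, mem_Ioc]
    refine ⟨⟨by omega, hn'.2⟩, ?_⟩
    exact Nat.ModEq.add_right i hn'.1.2
  have hinj : Set.InjOn (fun n => n + i) (X' : Set ℕ) := fun a _ b _ h => by
    simp only at h; omega
  have e1 : ∑ n ∈ Y, ee (n * β) = ∑ n ∈ X', ee (((n + i : ℕ) : ℝ) * β) +
      ∑ n ∈ Y \ X'.image (fun n => n + i), ee (n * β) := by
    rw [← sum_sdiff hsub, sum_image hinj, add_comm]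
  have e2 : ∑ n ∈ X, ee (n * β) = ∑ n ∈ X', ee (n * β) + ∑ n ∈ X \ X', ee (n * β) := by
    rw [← sum_sdiff (filter_subset _ _ : X' ⊆ X), add_comm]
  -- the leftovers have at most one element each
  have hYc : (Y \ X'.image (fun n => n + i)).card ≤ 1 := by
    rw [card_le_one]
    intro a ha b hb
    rw [mem_sdiff] at ha hb
    have key : ∀ n ∈ Y, n ∉ X'.image (fun n => n + i) → n ≤ A + i := by
      intro n hn hn'
      by_contra hlt
      push Not at hlt
      apply hn'
      rw [hY, mem_filter, mem_Ioc] at hn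
      rw [mem_image]
      refine ⟨n - i, ?_, by omega⟩
      rw [hX', hX, mem_filter, mem_filter, mem_Ioc]
      refine ⟨⟨⟨by omega, by omega⟩, ?_⟩, by omega⟩
      have h1 : (n - i) + i ≡ c + i [MOD q] := by
        have : n - i + i = n := by omega
        rw [this]; exact hn.2
      exact Nat.ModEq.add_right_cancel' i h1
    have ha1 := key a ha.1 ha.2
    have hb1 := key b hb.1 hb.2
    rw [hY, mem_filter, mem_Ioc] at ha hb
    have hmod : a ≡ b [MOD q] := by rw [Nat.ModEq, ha.1.2, hb.1.2]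
    have hab : ∀ a b : ℕ, a ≡ b [MOD q] → A < a → b ≤ A + i → a ≤ b → a = b := by
      intro a b hm h1 h2 h3
      obtain ⟨z, hz⟩ := (Nat.modEq_iff_dvd' h3).mp hm
      rcases Nat.eq_zero_or_pos z with rfl | hz0
      · omega
      · have : q ≤ q * z := Nat.le_mul_of_pos_right q hz0
        omega
    rcases le_total a b with h | h
    · exact hab a b hmod ha.1.1.1 hb1 h
    · exact (hab b a hmod.symm hb.1.1.1 ha1 h).symm
  have hXc : (X \ X').card ≤ 1 := by
    rw [card_le_one]
    intro a ha b hb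
    rw [mem_sdiff] at ha hb
    have key : ∀ n ∈ X, n ∉ X' → B < n + i := by
      intro n hn hn'
      by_contra hlt
      push Not at hlt
      apply hn'
      rw [hX', mem_filter]
      exact ⟨hn, hlt⟩
    have ha1 := key a ha.1 ha.2
    have hb1 := key b hb.1 hb.2
    rw [hX, mem_filter, mem_Ioc] at ha hb
    have hmod : a ≡ b [MOD q] := by rw [Nat.ModEq, ha.1.2, hb.1.2]
    have hab : ∀ a b : ℕ, a ≡ b [MOD q] → b ≤ B → B < a + i → a ≤ b → a = b := by
      intro a b hm h1 h2 h3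
      obtain ⟨z, hz⟩ := (Nat.modEq_iff_dvd' h3).mp hm
      rcases Nat.eq_zero_or_pos z with rfl | hz0
      · omega
      · have : q ≤ q * z := Nat.le_mul_of_pos_right q hz0
        omega
    rcases le_total a b with h | h
    · exact hab a b hmod hb.1.1.2 ha1 h
    · exact (hab b a hmod.symm ha.1.1.2 hb1 h).symm
  have hnorm1 : ∀ S : Finset ℕ, S.card ≤ 1 → ‖∑ n ∈ S, ee (n * β)‖ ≤ 1 := by
    intro S hS
    refine (norm_sum_le _ _).trans ?_
    simp_rw [norm_ee]
    rw [sum_const, nsmul_eq_mul, mul_one]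
    exact_mod_cast hS
  have hX'c : (X'.card : ℝ) ≤ (B - A) / q + 1 := by
    obtain ⟨s, N, hN, hNle⟩ := ap_eq hq c A B
    have h1 : X'.card ≤ N := by
      calc X'.card ≤ X.card := card_le_card (filter_subset _ _)
        _ ≤ N := by
          rw [hX, hN]
          exact card_image_le.trans (by simp)
    have h2 : (X'.card : ℝ) ≤ ((B - A) / q + 1 : ℕ) := by exact_mod_cast h1.trans hNle
    push_cast at h2
    have h3 : (((B - A) / q : ℕ) : ℝ) ≤ ((B - A : ℕ) : ℝ) / q := Nat.cast_div_le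
    rw [Nat.cast_sub hAB] at h3
    linarith
  have hdiff : ‖∑ n ∈ X', ee (((n + i : ℕ) : ℝ) * β) - ∑ n ∈ X', ee (n * β)‖ ≤
      2 * Real.pi * |β| * (B - A + q) := by
    rw [← sum_sub_distrib]
    refine (norm_sum_le _ _).trans ?_
    have hterm : ∀ n ∈ X', ‖ee (((n + i : ℕ) : ℝ) * β) - ee (n * β)‖ ≤
        2 * Real.pi * (|β| * q) := by
      intro n _
      refine (norm_ee_sub_le _ _).trans ?_
      apply mul_le_mul_of_nonneg_left _ Real.two_pi_pos.le
      have : ((n + i : ℕ) : ℝ) * β - n * β = i * β := by push_cast; ring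
      rw [this, abs_mul, mul_comm]
      apply mul_le_mul_of_nonneg_left _ (abs_nonneg _)
      rw [abs_of_nonneg (Nat.cast_nonneg _)]
      exact_mod_cast hi
    refine (sum_le_sum hterm).trans ?_
    rw [sum_const, nsmul_eq_mul]
    have hqR : (0 : ℝ) < q := by exact_mod_cast hq
    calc (X'.card : ℝ) * (2 * Real.pi * (|β| * q)) ≤
          ((B - A) / q + 1) * (2 * Real.pi * (|β| * q)) := by
            apply mul_le_mul_of_nonneg_right hX'c
            have := Real.two_pi_pos
            positivity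
      _ = 2 * Real.pi * |β| * (B - A + q) := by field_simp
  rw [e1, e2]
  have e3 : (∑ n ∈ X', ee (((n + i : ℕ) : ℝ) * β) +
      ∑ n ∈ Y \ X'.image (fun n => n + i), ee (n * β)) -
      (∑ n ∈ X', ee (n * β) + ∑ n ∈ X \ X', ee (n * β)) =
      (∑ n ∈ X', ee (((n + i : ℕ) : ℝ) * β) - ∑ n ∈ X', ee (n * β)) +
      (∑ n ∈ Y \ X'.image (fun n => n + i), ee (n * β) - ∑ n ∈ X \ X', ee (n * β)) := by ring
  rw [e3]
  refine (norm_add_le _ _).trans ?_
  have h5 := (norm_sub_le (∑ n ∈ Y \ X'.image (fun n => n + i), ee (n * β))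
    (∑ n ∈ X \ X', ee (n * β)))
  have h6 := hnorm1 _ hYc
  have h7 := hnorm1 _ hXc
  linarith

/-- a progression compared with the full interval -/
theorem ap_full {q : ℕ} (hq : 0 < q) (c A B : ℕ) {β : ℝ} (hAB : A ≤ B) :
    ‖∑ n ∈ (Ioc A B).filter (fun n => n % q = c % q), ee (n * β) -
      (1 / q : ℂ) * ∑ n ∈ Ioc A B, ee (n * β)‖ ≤ 2 + 2 * Real.pi * |β| * (B - A + q) := by
  have hqR : (0 : ℝ) < q := by exact_mod_cast hq
  have hqC : (q : ℂ) ≠ 0 := by exact_mod_cast hq.ne'
  have h1 : ∑ n ∈ Ioc A B, ee (n * β) =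
      ∑ i ∈ range q, ∑ n ∈ (Ioc A B).filter (fun n => n % q = (c + i) % q), ee (n * β) := by
    rw [← sum_fiberwise_of_maps_to (s := Ioc A B) (t := range q)
      (g := fun n => (n + (q - 1) * c) % q) (fun n _ => mem_range.mpr (Nat.mod_lt _ hq))]
    refine sum_congr rfl fun i hi => ?_
    apply sum_congr _ fun _ _ => rfl
    ext n
    rw [mem_filter, mem_filter]
    apply and_congr_right
    intro _
    have hi' := mem_range.mp hi
    have hcc : (q - 1) * c + c ≡ 0 [MOD q] := by
      have : (q - 1) * c + c = q * c := by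
        obtain ⟨q', rfl⟩ := Nat.exists_eq_succ_of_ne_zero hq.ne'
        simp only [Nat.succ_eq_add_one, Nat.add_sub_cancel]; ring
      rw [this]
      exact Nat.modEq_zero_iff_dvd.mpr (Dvd.intro _ rfl)
    constructor
    · intro h
      have h2 : n + (q - 1) * c ≡ i [MOD q] := by
        rw [Nat.ModEq, h, Nat.mod_eq_of_lt hi']
      have h3 := h2.add_right c
      have h4 : n + (q - 1) * c + c ≡ n + 0 [MOD q] := by
        rw [add_assoc]; exact Nat.ModEq.add_left n hcc
      have h5 : n ≡ i + c [MOD q] := h4.symm.trans h3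
      rw [add_comm c i]; exact h5
    · intro h
      have h2 : n ≡ c + i [MOD q] := h
      have h3 := h2.add_right ((q - 1) * c)
      have h4 : c + i + (q - 1) * c ≡ i [MOD q] := by
        have : c + i + (q - 1) * c = i + ((q - 1) * c + c) := by ring
        rw [this]
        exact Nat.ModEq.add_left i hcc
      have h5 := h3.trans h4
      rw [Nat.ModEq, Nat.mod_eq_of_lt hi'] at h5
      exact h5
  have h2 : ∑ n ∈ (Ioc A B).filter (fun n => n % q = c % q), ee (n * β) -
      (1 / q : ℂ) * ∑ n ∈ Ioc A B, ee (n * β) =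
      (1 / q : ℂ) * ∑ i ∈ range q,
        (∑ n ∈ (Ioc A B).filter (fun n => n % q = c % q), ee (n * β) -
        ∑ n ∈ (Ioc A B).filter (fun n => n % q = (c + i) % q), ee (n * β)) := by
    rw [sum_sub_distrib, ← h1, sum_const, card_range, nsmul_eq_mul, mul_sub, ← mul_assoc,
      one_div_mul_cancel hqC, one_mul]
  rw [h2, norm_mul]
  have h3 : ‖(1 / q : ℂ)‖ = 1 / q := by rw [norm_div, norm_one, Complex.norm_natCast]
  rw [h3]
  have h4 : ‖∑ i ∈ range q,
        (∑ n ∈ (Ioc A B).filter (fun n => n % q = c % q), ee (n * β) -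
        ∑ n ∈ (Ioc A B).filter (fun n => n % q = (c + i) % q), ee (n * β))‖ ≤
      q * (2 + 2 * Real.pi * |β| * (B - A + q)) := by
    refine (norm_sum_le _ _).trans ?_
    have h5 : ∀ i ∈ range q, ‖∑ n ∈ (Ioc A B).filter (fun n => n % q = c % q), ee (n * β) -
        ∑ n ∈ (Ioc A B).filter (fun n => n % q = (c + i) % q), ee (n * β)‖ ≤
        2 + 2 * Real.pi * |β| * (B - A + q) := by
      intro i hi
      rw [norm_sub_rev]
      exact ap_compare hq c A B i (mem_range.mp hi).le hAB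
    refine (sum_le_sum h5).trans ?_
    rw [sum_const, card_range, nsmul_eq_mul]
  calc 1 / (q : ℝ) * _ ≤ 1 / (q : ℝ) * (q * (2 + 2 * Real.pi * |β| * (B - A + q))) :=
        mul_le_mul_of_nonneg_left h4 (by positivity)
    _ = _ := by field_simp

end Pool.Agent.H78.OM
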