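import Pool.Agent.H78.OM.Maj2
import Pool.Agent.CoprimeSieve.Mertens

/-!
# The sieve majorant: the blocks of primes
-/

namespace Pool.Agent.H78.OM

open Finset
open Pool.Agent.H6.Hooley

/-- product over a set of primes containing all small primes -/
theorem Wb_le_inv_log (s : Finset ℕ) (hs : ∀ p ∈ s, p.Prime) {z : ℕ} (hz : 2 ≤ z)
    (hz' : ∀ p, p.Prime → p ≤ z → p ∈ s) : Wb s ≤ 1 / Real.log z := by
  classical
  have hlogz : 0 < Real.log z := Real.log_pos (by exact_mod_cast (by omega : 1 < z))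
  let f : ℕ →* ℝ :=
    { toFun := fun n => (n : ℝ)⁻¹
      map_one' := by simp
      map_mul' := fun a b => by rw [Nat.cast_mul, mul_inv] }
  have hf : ∀ {p : ℕ}, p.Prime → ‖f p‖ < 1 := by
    intro p hp
    show ‖(p : ℝ)⁻¹‖ < 1
    rw [Real.norm_of_nonneg (by positivity)]
    exact inv_lt_one_of_one_lt₀ (by exact_mod_cast hp.one_lt)
  obtain ⟨hsum, hhas⟩ :=
    EulerProduct.summable_and_hasSum_factoredNumbers_prod_filter_prime_geometric hf s
  have hfilter : s.filter (fun p => p.Prime) = s := filter_true_of_mem hs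
  rw [hfilter] at hhas
  -- the harmonic sum is bounded by the product
  have hfin : ∑ n ∈ Icc 1 z, ((n : ℝ))⁻¹ ≤ ∏ p ∈ s, (1 - f p)⁻¹ := by
    rw [← hhas.tsum_eq]
    have hmem : ∀ n ∈ Icc 1 z, n ∈ Nat.factoredNumbers s := by
      intro n hn
      rw [mem_Icc] at hn
      rw [Nat.mem_factoredNumbers]
      refine ⟨by omega, fun p hp => ?_⟩
      have hpp := Nat.prime_of_mem_primeFactorsList hp
      have hple : p ≤ n := Nat.le_of_dvd (by omega) (Nat.dvd_of_mem_primeFactorsList hp)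
      exact hz' p hpp (by omega)
    have h1 : ∑ n ∈ Icc 1 z, ((n : ℝ))⁻¹ =
        ∑ m ∈ (Icc 1 z).attach.image (fun n => (⟨n.1, hmem n.1 n.2⟩ : Nat.factoredNumbers s)),
          f m := by
      rw [sum_image]
      · rw [← sum_attach]
        rfl
      · intro a _ b _ h
        have := congrArg Subtype.val h
        exact Subtype.ext this
    rw [h1]
    apply Summable.sum_le_tsum
    · intro m _
      show 0 ≤ ((m : ℕ) : ℝ)⁻¹
      positivity
    · exact hhas.summable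
  have hlog : Real.log z ≤ ∑ n ∈ Icc 1 z, ((n : ℝ))⁻¹ := by
    have h1 := log_add_one_le_harmonic z
    rw [harmonic_eq_sum_Icc] at h1
    push_cast at h1
    refine le_trans ?_ h1
    apply Real.log_le_log (by positivity)
    linarith
  have hprod : ∏ p ∈ s, (1 - f p)⁻¹ = (Wb s)⁻¹ := by
    unfold Wb
    rw [← prod_inv_distrib]
    refine prod_congr rfl fun p _ => ?_
    show (1 - (p : ℝ)⁻¹)⁻¹ = (1 - 1 / (p : ℝ))⁻¹
    rw [one_div]
  have hWpos : 0 < Wb s := Wb_pos s fun p hp => (hs p hp).two_le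
  have h2 : Real.log z ≤ (Wb s)⁻¹ := by
    rw [← hprod]; exact hlog.trans hfin
  rw [le_div_iff₀ hlogz]
  calc Wb s * Real.log z ≤ Wb s * (Wb s)⁻¹ := mul_le_mul_of_nonneg_left h2 hWpos.le
    _ = 1 := mul_inv_cancel₀ hWpos.ne'

/-- the blocks -/
def Ib (R : ℕ) (i : ℕ) : Finset ℕ :=
  (Ioc (2 ^ 2 ^ i) (2 ^ 2 ^ (i + 1))).filter (fun p => p.Prime ∧ ¬ p ∣ R)

theorem mem_Ib {R i p : ℕ} : p ∈ Ib R i ↔
    (2 ^ 2 ^ i < p ∧ p ≤ 2 ^ 2 ^ (i + 1)) ∧ p.Prime ∧ ¬ p ∣ R := by
  unfold Ib; rw [mem_filter, mem_Ioc]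

theorem Ib_prime {R i p : ℕ} (h : p ∈ Ib R i) : p.Prime := (mem_Ib.mp h).2.1

theorem Ib_disj (R : ℕ) (i j : ℕ) (hij : i ≠ j) : Disjoint (Ib R i) (Ib R j) := by
  rw [disjoint_left]
  intro p hp hp'
  rw [mem_Ib] at hp hp'
  have hmono : ∀ a b : ℕ, a ≤ b → 2 ^ 2 ^ a ≤ 2 ^ 2 ^ b := fun a b h =>
    Nat.pow_le_pow_right (by norm_num) (Nat.pow_le_pow_right (by norm_num) h)
  rcases Nat.lt_or_gt_of_ne hij with h | h
  · have := hmono (i + 1) j h
    omega
  · have := hmono (j + 1) i h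
    omega

/-- block sums are bounded -/
theorem exists_B0 : ∃ B0 : ℝ, 0 ≤ B0 ∧ ∀ R i, rs (Ib R i) ≤ B0 := by
  obtain ⟨C, hC, h⟩ := CoprimeSieve.mertens_second_upper
  have hlog2 : 0 < Real.log 2 := Real.log_pos (by norm_num)
  refine ⟨Real.log 2 + C / Real.log 2, by positivity, fun R i => ?_⟩
  have h2i : 1 ≤ 2 ^ i := Nat.one_le_pow _ _ (by norm_num)
  have ha : (2 : ℝ) ≤ 2 ^ 2 ^ i := by
    calc (2 : ℝ) = 2 ^ 1 := by norm_num
      _ ≤ 2 ^ 2 ^ i := pow_le_pow_right₀ (by norm_num) h2i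
  have hab : (2 : ℝ) ^ 2 ^ i ≤ 2 ^ 2 ^ (i + 1) :=
    pow_le_pow_right₀ (by norm_num) (Nat.pow_le_pow_right (by norm_num) (by omega))
  have h1 := h (2 ^ 2 ^ i) (2 ^ 2 ^ (i + 1)) ha hab
  have hloga : Real.log (2 ^ 2 ^ i) = 2 ^ i * Real.log 2 := by
    rw [Real.log_pow]; push_cast; ring
  have hlogb : Real.log (2 ^ 2 ^ (i + 1)) = 2 * (2 ^ i * Real.log 2) := by
    rw [Real.log_pow]; push_cast; ring
  rw [hloga, hlogb] at h1
  have hpos : (0 : ℝ) < 2 ^ i * Real.log 2 := by positivity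
  have e1 : 2 * (2 ^ i * Real.log 2) / (2 ^ i * Real.log 2) = 2 := by field_simp
  rw [e1] at h1
  have h3 : C / (2 ^ i * Real.log 2) ≤ C / Real.log 2 := by
    apply div_le_div_of_nonneg_left hC hlog2
    have : (1 : ℝ) ≤ 2 ^ i := one_le_pow₀ (by norm_num)
    nlinarith
  refine le_trans ?_ (h1.trans (by linarith))
  unfold rs
  apply sum_le_sum_of_subset_of_nonneg
  · intro p hp
    rw [mem_Ib] at hp
    rw [mem_filter, CoprimeSieve.mem_pr]
    refine ⟨⟨hp.2.1, ?_⟩, ?_⟩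
    · exact_mod_cast hp.1.2
    · exact_mod_cast hp.1.1
  · intro _ _ _; positivity

theorem size_sum (N : ℕ) : ∑ i ∈ range N, 2 ^ (i + 1) * (2 * (N - i)) + 4 * N + 8 ≤ 2 ^ (N + 3) := by
  induction N with
  | zero => simp
  | succ N ih =>
    rw [sum_range_succ']
    have h1 : ∑ i ∈ range N, 2 ^ (i + 1 + 1) * (2 * (N + 1 - (i + 1))) =
        2 * ∑ i ∈ range N, 2 ^ (i + 1) * (2 * (N - i)) := by
      rw [mul_sum]
      refine sum_congr rfl fun i _ => ?_
      have : N + 1 - (i + 1) = N - i := by omega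
      rw [this]; ring
    rw [h1]
    have h2 : 2 ^ (N + 1 + 3) = 2 * 2 ^ (N + 3) := by ring
    rw [h2]
    simp only [zero_add, pow_one, Nat.sub_zero]
    omega

/-- the divisors are small -/
theorem prod_A_le (R N : ℕ) {A : Finset ℕ} (hA : A ∈ famA (Ib R) (fun i => 2 * (N - i)) N) :
    ∏ p ∈ A, p ≤ 2 ^ 2 ^ (N + 3) := by
  rw [mem_famA] at hA
  rw [← prod_blocks (Ib_disj R) hA.1 (fun p => p)]
  calc ∏ i ∈ range N, ∏ p ∈ A ∩ Ib R i, p ≤ ∏ i ∈ range N, (2 ^ 2 ^ (i + 1)) ^ (2 * (N - i)) := by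
        apply prod_le_prod' fun i hi => ?_
        calc ∏ p ∈ A ∩ Ib R i, p ≤ ∏ _p ∈ A ∩ Ib R i, 2 ^ 2 ^ (i + 1) :=
              prod_le_prod' fun p hp => (mem_Ib.mp (mem_inter.mp hp).2).1.2
          _ = (2 ^ 2 ^ (i + 1)) ^ (A ∩ Ib R i).card := by rw [prod_const]
          _ ≤ _ := Nat.pow_le_pow_right (by positivity) (hA.2 i (mem_range.mp hi))
    _ = 2 ^ ∑ i ∈ range N, 2 ^ (i + 1) * (2 * (N - i)) := by
        rw [← prod_pow_eq_pow_sum]
        refine prod_congr rfl fun i _ => ?_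
        rw [← pow_mul]
    _ ≤ 2 ^ 2 ^ (N + 3) := Nat.pow_le_pow_right (by norm_num) (by
        have := size_sum N
        omega)

theorem card_famA_le (R N : ℕ) :
    (famA (Ib R) (fun i => 2 * (N - i)) N).card ≤ 2 ^ 2 ^ (N + 3) := by
  have hprime : ∀ A ∈ famA (Ib R) (fun i => 2 * (N - i)) N, ∀ p ∈ A, p.Prime := by
    intro A hA p hp
    obtain ⟨i, _, hpi⟩ := mem_PI.mp ((mem_famA.mp hA).1 hp)
    exact Ib_prime hpi
  have h1 : (famA (Ib R) (fun i => 2 * (N - i)) N).card ≤ (Icc 1 (2 ^ 2 ^ (N + 3))).card := by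
    apply card_le_card_of_injOn (fun A => ∏ p ∈ A, p)
    · intro A hA
      simp only [coe_Icc, Set.mem_Icc]
      exact ⟨Nat.succ_le_of_lt (prod_pos fun p hp => (hprime A hA p hp).pos), prod_A_le R N hA⟩
    · intro A hA A' hA' h
      simp only at h
      rw [← Nat.primeFactors_prod (hprime A hA), h, Nat.primeFactors_prod (hprime A' hA')]
  simpa using h1

theorem coprime_prod_A {R N : ℕ} {A : Finset ℕ}
    (hA : A ∈ famA (Ib R) (fun i => 2 * (N - i)) N) : Nat.Coprime (∏ p ∈ A, p) R := by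
  apply Nat.Coprime.prod_left
  intro p hp
  obtain ⟨i, _, hpi⟩ := mem_PI.mp ((mem_famA.mp hA).1 hp)
  exact (Nat.Prime.coprime_iff_not_dvd (Ib_prime hpi)).mpr (mem_Ib.mp hpi).2.2

/-- density of the unsieved integers -/
theorem Wb_PI_le {R N : ℕ} (hR : 0 < R) (h2R : 2 ∣ R) :
    Wb (PI (Ib R) N) / R ≤ 1 / (R.totient * Real.log (2 ^ 2 ^ N : ℕ)) := by
  classical
  set s := R.primeFactors ∪ PI (Ib R) N with hs
  have hprime : ∀ p ∈ s, p.Prime := by
    intro p hp
    rw [hs, mem_union] at hp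
    rcases hp with hp | hp
    · exact Nat.prime_of_mem_primeFactors hp
    · obtain ⟨i, _, hpi⟩ := mem_PI.mp hp
      exact Ib_prime hpi
  have hz : 2 ≤ 2 ^ 2 ^ N := by
    calc 2 = 2 ^ 1 := by norm_num
      _ ≤ 2 ^ 2 ^ N := Nat.pow_le_pow_right (by norm_num) (Nat.one_le_pow _ _ (by norm_num))
  have hall : ∀ p, p.Prime → p ≤ 2 ^ 2 ^ N → p ∈ s := by
    intro p hp hpz
    rw [hs, mem_union]
    by_cases hpR : p ∣ R
    · left; exact Nat.mem_primeFactors.mpr ⟨hp, hpR, hR.ne'⟩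
    · right
      have hp2 : 2 < p := by
        rcases hp.eq_two_or_odd' with h | h
        · rw [h] at hpR; exact absurd h2R hpR
        · have := hp.two_le
          rcases Nat.lt_or_ge 2 p with h' | h'
          · exact h'
          · have : p = 2 := by omega
            rw [this] at hpR; exact absurd h2R hpR
      -- find the block
      have hex : ∃ i, p ≤ 2 ^ 2 ^ (i + 1) := ⟨N, hpz.trans
        (Nat.pow_le_pow_right (by norm_num) (Nat.pow_le_pow_right (by norm_num) (by omega)))⟩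
      let i := Nat.find hex
      have hi : p ≤ 2 ^ 2 ^ (i + 1) := Nat.find_spec hex
      have hlow : 2 ^ 2 ^ i < p := by
        rcases Nat.eq_zero_or_pos i with h0 | h0
        · rw [h0]; simpa using hp2
        · have := Nat.find_min hex (m := i - 1) (by omega)
          push Not at this
          have e : i - 1 + 1 = i := by omega
          rw [e] at this
          exact this
      have hiN : i < N := by
        by_contra hge
        push Not at hge
        have : 2 ^ 2 ^ N ≤ 2 ^ 2 ^ i :=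
          Nat.pow_le_pow_right (by norm_num) (Nat.pow_le_pow_right (by norm_num) hge)
        omega
      exact mem_PI.mpr ⟨i, hiN, mem_Ib.mpr ⟨⟨hlow, hi⟩, hp, hpR⟩⟩
  have h1 := Wb_le_inv_log s hprime hz hall
  have hdisj : Disjoint R.primeFactors (PI (Ib R) N) := by
    rw [disjoint_left]
    intro p hp hp'
    obtain ⟨i, _, hpi⟩ := mem_PI.mp hp'
    exact (mem_Ib.mp hpi).2.2 (Nat.dvd_of_mem_primeFactors hp)
  have h2 : Wb s = Wb R.primeFactors * Wb (PI (Ib R) N) := by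
    rw [hs]; unfold Wb; exact prod_union hdisj
  have hRR : (0 : ℝ) < R := by exact_mod_cast hR
  have hφ : (0 : ℝ) < R.totient := by exact_mod_cast Nat.totient_pos.mpr hR
  have h3 : (R.totient : ℝ) = R * Wb R.primeFactors := by
    have := Nat.totient_eq_mul_prod_factors R
    have h4 : ((R.totient : ℚ) : ℝ) = ((R * ∏ p ∈ R.primeFactors, (1 - (p : ℚ)⁻¹) : ℚ) : ℝ) := by
      rw [this]
    push_cast at h4
    rw [h4]
    unfold Wb
    congr 1
    refine prod_congr rfl fun p _ => ?_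
    rw [one_div]
  have hlog : 0 < Real.log (2 ^ 2 ^ N : ℕ) := Real.log_pos (by
    exact_mod_cast (by omega : 1 < 2 ^ 2 ^ N))
  rw [h2] at h1
  rw [div_le_div_iff₀ hRR (by positivity), one_mul]
  rw [le_div_iff₀ hlog] at h1
  calc Wb (PI (Ib R) N) * (R.totient * Real.log (2 ^ 2 ^ N : ℕ)) =
        R * (Wb R.primeFactors * Wb (PI (Ib R) N) * Real.log (2 ^ 2 ^ N : ℕ)) := by
        rw [h3]; ring
    _ ≤ R * 1 := mul_le_mul_of_nonneg_left h1 hRR.le
    _ = R := mul_one _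

end Pool.Agent.H78.OM
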