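import Pool.Agent.H78.OM.Maj3
import Pool.Agent.H78.OM.Maj4

/-!
# The sieve majorant: exponential sums
-/

namespace Pool.Agent.H78.OM

open Finset
open Pool.Agent.H6.Hooley

/-- the family of divisors -/
def fam (R N : ℕ) : Finset (Finset ℕ) := famA (Ib R) (fun i => 2 * (N - i)) N

/-- the majorant -/
noncomputable def rhoR (R N n : ℕ) : ℝ := rhoM (Ib R) (fun i => 2 * (N - i)) N n

/-- the sum over multiples of `d` -/
noncomputable def inner (P R a d : ℕ) (t : ℝ) : ℂ :=
  ∑ n ∈ (Ioc P (2 * P)).filter (fun n => n % R = a % R ∧ d ∣ n), ee (n * t)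

theorem S_expand (R N P a : ℕ) (t : ℝ) :
    ∑ n ∈ (Ioc P (2 * P)).filter (fun n => n % R = a % R), (rhoR R N n : ℂ) * ee (n * t) =
      ∑ A ∈ fam R N, (-1 : ℂ) ^ A.card * inner P R a (∏ p ∈ A, p) t := by
  unfold rhoR inner
  have h1 : ∀ n, ((rhoM (Ib R) (fun i => 2 * (N - i)) N n : ℝ) : ℂ) =
      ∑ A ∈ fam R N, (-1 : ℂ) ^ A.card * (if (∏ p ∈ A, p) ∣ n then 1 else 0) := by
    intro n
    rw [rhoM_eq (Ib_disj R) (fun i p hp => Ib_prime hp)]
    push_cast
    refine sum_congr rfl fun A _ => ?_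
    congr 1
    split_ifs <;> simp
  simp_rw [h1, sum_mul]
  rw [sum_comm]
  refine sum_congr rfl fun A _ => ?_
  simp_rw [mul_assoc]
  rw [← mul_sum]
  congr 1
  rw [← filter_filter, sum_filter (s := filter _ _)]
  refine sum_congr rfl fun n _ => ?_
  split_ifs <;> simp

theorem inner_eq {P R a d : ℕ} (hc : Nat.Coprime d R) (t : ℝ) :
    inner P R a d t = ∑ n ∈ (Ioc P (2 * P)).filter
      (fun n => n % (d * R) = (Nat.chineseRemainder hc 0 a : ℕ) % (d * R)), ee (n * t) := by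
  unfold inner
  apply sum_congr _ fun _ _ => rfl
  ext n
  rw [mem_filter, mem_filter]
  apply and_congr_right
  intro _
  have h1 : (Nat.chineseRemainder hc 0 a : ℕ) ≡ 0 [MOD d] := (Nat.chineseRemainder hc 0 a).2.1
  have h2 : (Nat.chineseRemainder hc 0 a : ℕ) ≡ a [MOD R] := (Nat.chineseRemainder hc 0 a).2.2
  constructor
  · rintro ⟨h3, h4⟩
    have h5 : n ≡ (Nat.chineseRemainder hc 0 a : ℕ) [MOD d] :=
      (Nat.modEq_zero_iff_dvd.mpr h4).trans h1.symm
    have h6 : n ≡ (Nat.chineseRemainder hc 0 a : ℕ) [MOD R] := Nat.ModEq.trans h3 h2.symm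
    exact (Nat.modEq_and_modEq_iff_modEq_mul hc).mp ⟨h5, h6⟩
  · intro h3
    obtain ⟨h5, h6⟩ := (Nat.modEq_and_modEq_iff_modEq_mul hc).mpr h3
    exact ⟨h6.trans h2, Nat.modEq_zero_iff_dvd.mp (h5.trans h1)⟩

/-- divisors not divisible by the denominator -/
theorem inner_minor {P R a d e : ℕ} {u : ℤ} {t : ℝ} {D Z : ℕ} (hR : 0 < R) (hd : 0 < d)
    (hc : Nat.Coprime d R) (he : 0 < e) (heu : IsCoprime (e : ℤ) u) (hdD : d ≤ D)
    (hDZ : 2 * D ≤ Z + 1) (hβ : |R * t - u / e| ≤ 1 / ((Z + 1) * e)) (hed : ¬ e ∣ d) :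
    ‖inner P R a d t‖ ≤ e := by
  rw [inner_eq hc]
  have heR : (0 : ℝ) < e := by exact_mod_cast he
  have hδ : (0 : ℝ) < 1 / (2 * e) := by positivity
  have h1 := ap_bound (q := d * R) (Nat.mul_pos hd hR)
    (Nat.chineseRemainder hc 0 a : ℕ) P (2 * P) (t := t) hδ (by
      intro n
      have hne : (d : ℤ) * u - n * e ≠ 0 := by
        intro h
        apply hed
        have h2 : (e : ℤ) ∣ d * u := ⟨n, by linarith⟩
        have h3 : (e : ℤ) ∣ d := heu.dvd_of_dvd_mul_right h2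
        exact_mod_cast h3
      have h2 : (1 : ℝ) ≤ |(d : ℝ) * u - n * e| := by
        have := Int.one_le_abs hne
        exact_mod_cast this
      have h3 : ((d * R : ℕ) : ℝ) * t - n = d * (R * t - u / e) + (d * u - n * e) / e := by
        push_cast; field_simp; ring
      rw [h3]
      have h4 : |(d : ℝ) * (R * t - u / e)| ≤ 1 / (2 * e) := by
        rw [abs_mul, abs_of_nonneg (Nat.cast_nonneg _)]
        have hdR : (d : ℝ) ≤ D := by exact_mod_cast hdD
        have hDZ' : 2 * (D : ℝ) ≤ Z + 1 := by exact_mod_cast hDZ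
        calc (d : ℝ) * |R * t - u / e| ≤ D * (1 / ((Z + 1) * e)) :=
              mul_le_mul hdR hβ (abs_nonneg _) (Nat.cast_nonneg _)
          _ = D / ((Z + 1) * e) := by ring
          _ ≤ 1 / (2 * e) := by
              rw [div_le_div_iff₀ (by positivity) (by positivity)]
              nlinarith
      have h5 : 1 / (e : ℝ) ≤ |((d : ℝ) * u - n * e) / e| := by
        rw [abs_div, abs_of_pos heR]
        exact div_le_div_of_nonneg_right h2 heR.le
      have h6 := abs_add_le (((d : ℝ) * (R * t - u / e)) + ((d : ℝ) * u - n * e) / e)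
        (-((d : ℝ) * (R * t - u / e)))
      rw [abs_neg] at h6
      have h7 : (((d : ℝ) * (R * t - u / e)) + ((d : ℝ) * u - n * e) / e) +
        (-((d : ℝ) * (R * t - u / e))) = ((d : ℝ) * u - n * e) / e := by ring
      rw [h7] at h6
      have h8 : 1 / (e : ℝ) = 1 / (2 * e) + 1 / (2 * e) := by field_simp; ring
      linarith)
  refine h1.trans (le_of_eq ?_)
  field_simp

/-- divisors divisible by the denominator -/
theorem inner_major {P R a d e n0 : ℕ} {u : ℤ} {t : ℝ} (hR : 0 < R) (hd : 0 < d)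
    (hc : Nat.Coprime d R) (he : 0 < e) (hed : e ∣ d) (hn0 : n0 ≡ 0 [MOD e])
    (hn0' : n0 ≡ a [MOD R]) :
    ‖inner P R a d t - ee (n0 * (u / (e * R))) * ((1 / (d * R : ℕ) : ℂ) *
      ∑ n ∈ Ioc P (2 * P), ee (n * ((R * t - u / e) / R)))‖ ≤
      2 + 2 * Real.pi * |(R * t - u / e) / R| * (P + d * R) := by
  have heR : (e : ℝ) ≠ 0 := by exact_mod_cast he.ne'
  have hRR : (R : ℝ) ≠ 0 := by exact_mod_cast hR.ne'
  have hcop : Nat.Coprime e R := Nat.Coprime.coprime_dvd_left hed hc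
  set β : ℝ := (R * t - u / e) / R with hβ
  have h1 : inner P R a d t = ee (n0 * (u / (e * R))) * inner P R a d β := by
    unfold inner
    rw [mul_sum]
    refine sum_congr rfl fun n hn => ?_
    rw [mem_filter] at hn
    obtain ⟨_, hna, hdn⟩ := hn
    have h2 : n ≡ n0 [MOD e * R] := by
      apply (Nat.modEq_and_modEq_iff_modEq_mul hcop).mp
      exact ⟨(Nat.modEq_zero_iff_dvd.mpr (hed.trans hdn)).trans hn0.symm,
        Nat.ModEq.trans hna hn0'.symm⟩
    obtain ⟨z, hz⟩ := (Nat.modEq_iff_dvd.mp h2)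
    have hz' : (n0 : ℝ) = n + e * R * z := by
      have : (n0 : ℤ) = n + ((e * R : ℕ) : ℤ) * z := by linarith
      push_cast at this
      exact_mod_cast this
    rw [← ee_add]
    have h3 : (n : ℝ) * t = (n0 * (u / (e * R)) + n * β) + ((-(z * u) : ℤ) : ℝ) := by
      rw [hz', hβ]
      push_cast
      field_simp
      ring
    rw [h3, ee_add, ee_int, mul_one]
  rw [h1, ← mul_sub, norm_mul, norm_ee, one_mul, inner_eq hc]
  have h4 := ap_full (q := d * R) (Nat.mul_pos hd hR) (Nat.chineseRemainder hc 0 a : ℕ) P (2 * P)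
    (β := β) (by omega)
  refine h4.trans (le_of_eq ?_)
  push_cast
  ring

/-- main term for the denominator `e` -/
noncomputable def Ve (R N e : ℕ) : ℝ :=
  ∑ A ∈ fam R N, if e ∣ ∏ p ∈ A, p then (-1 : ℝ) ^ A.card * ∏ p ∈ A, 1 / (p : ℝ) else 0

theorem Ve_bound {B0 : ℝ} (hB0 : ∀ R i, rs (Ib R i) ≤ B0) {R N w e : ℕ}
    (hw : ∀ p, p.Prime → p ≤ w → p ∣ R) (hwB : Real.exp (3 * B0) ≤ w) (he : 0 < e) :
    |Ve R N e| ≤ Wb (PI (Ib R) N) * Real.exp (Real.exp (4 * B0)) *
      (if e = 1 then 1 else Real.exp (3 * B0) / w) := by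
  classical
  have hw0 : (0 : ℝ) < w := lt_of_lt_of_le (Real.exp_pos _) hwB
  have hIw : ∀ i, ∀ p ∈ Ib R i, w < p := by
    intro i p hp
    by_contra h
    push Not at h
    exact (mem_Ib.mp hp).2.2 (hw p (Ib_prime hp) h)
  have hWpos : 0 < Wb (PI (Ib R) N) := by
    apply Wb_pos
    intro p hp
    obtain ⟨i, _, hpi⟩ := mem_PI.mp hp
    exact (Ib_prime hpi).two_le
  by_cases hex : ∃ A ∈ fam R N, e ∣ ∏ p ∈ A, p
  · obtain ⟨A0, hA0, heA0⟩ := hex
    have hprime : ∀ A ∈ fam R N, ∀ p ∈ A, p.Prime := by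
      intro A hA p hp
      obtain ⟨i, _, hpi⟩ := mem_PI.mp ((mem_famA.mp hA).1 hp)
      exact Ib_prime hpi
    have hsqA : Squarefree (∏ p ∈ A0, p) := by
      apply Finset.squarefree_prod_of_pairwise_isCoprime
      · intro p hp q hq hne
        exact Nat.coprime_iff_isRelPrime.mp
          ((Nat.coprime_primes (hprime A0 hA0 p hp) (hprime A0 hA0 q hq)).mpr hne)
      · intro p hp
        exact (hprime A0 hA0 p hp).squarefree
    have hsq : Squarefree e := hsqA.squarefree_of_dvd heA0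
    have hE : e.primeFactors ⊆ PI (Ib R) N := by
      have h1 : e.primeFactors ⊆ (∏ p ∈ A0, p).primeFactors :=
        Nat.primeFactors_mono heA0 (prod_pos fun p hp => (hprime A0 hA0 p hp).pos).ne'
      rw [Nat.primeFactors_prod (hprime A0 hA0)] at h1
      exact h1.trans (mem_famA.mp hA0).1
    have h1 : Ve R N e = VE (Ib R) (fun i => 2 * (N - i)) N e.primeFactors := by
      unfold Ve VE fam
      refine sum_congr rfl fun A hA => ?_
      have h2 : e ∣ ∏ p ∈ A, p ↔ e.primeFactors ⊆ A := by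
        constructor
        · intro h
          have h3 := Nat.primeFactors_mono h
            (prod_pos fun p hp => (hprime A hA p hp).pos).ne'
          rwa [Nat.primeFactors_prod (hprime A hA)] at h3
        · intro h
          rw [← Nat.prod_primeFactors_of_squarefree hsq]
          exact prod_dvd_prod_of_subset _ _ _ h
      simp only [h2]
    rw [h1]
    refine (VE_bound (Ib_disj R) (fun i p hp => Ib_prime hp) (hB0 R) N hIw hwB _ hE).trans
      (le_of_eq ?_)
    congr 1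
    have h2 : e.primeFactors = ∅ ↔ e = 1 := by
      rw [Nat.primeFactors_eq_empty]
      constructor
      · rintro (h | h)
        · omega
        · exact h
      · intro h; exact Or.inr h
    simp only [h2]
  · push Not at hex
    have h1 : Ve R N e = 0 := by
      unfold Ve
      apply sum_eq_zero
      intro A hA
      rw [if_neg (hex A hA)]
    rw [h1, abs_zero]
    split_ifs <;> positivity

/-- the bound for the exponential sum -/
theorem S_bound {R N P a Z : ℕ} (hR : 0 < R) (hZ : 0 < Z)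
    (hDZ : 2 * 2 ^ 2 ^ (N + 3) ≤ Z + 1) (t : ℝ) :
    ∃ (e : ℕ) (u : ℤ), 0 < e ∧ e ≤ Z ∧ |R * t - u / e| ≤ 1 / ((Z + 1) * e) ∧
      ‖∑ n ∈ (Ioc P (2 * P)).filter (fun n => n % R = a % R), (rhoR R N n : ℂ) * ee (n * t)‖ ≤
        |Ve R N e| / R * ‖∑ n ∈ Ioc P (2 * P), ee (n * ((R * t - u / e) / R))‖ +
        ((2 ^ 2 ^ (N + 3) : ℕ) : ℝ) * (Z + 2 + 2 * Real.pi * |(R * t - u / e) / R| *
          (P + ((2 ^ 2 ^ (N + 3) : ℕ) : ℝ) * R)) := by
  classical
  obtain ⟨x, hx1, hx2⟩ := Real.exists_rat_abs_sub_le_and_den_le (R * t) hZ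
  set e : ℕ := x.den with he
  set u : ℤ := x.num with hu
  have hepos : 0 < e := x.den_pos
  have hxr : (x : ℝ) = u / e := by
    rw [hu, he]; exact Rat.cast_def x
  rw [hxr] at hx1
  have heu : IsCoprime (e : ℤ) u := by
    rw [Int.isCoprime_iff_gcd_eq_one]
    have := x.reduced
    rw [Int.gcd_comm]
    exact this
  refine ⟨e, u, hepos, hx2, hx1, ?_⟩
  set D : ℕ := 2 ^ 2 ^ (N + 3) with hD
  set β : ℝ := (R * t - u / e) / R with hβ
  set J : ℂ := ∑ n ∈ Ioc P (2 * P), ee (n * β) with hJ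
  have hRR : (0 : ℝ) < R := by exact_mod_cast hR
  -- reference point
  obtain ⟨n0, hn0⟩ : ∃ n0 : ℕ, Nat.Coprime e R → n0 ≡ 0 [MOD e] ∧ n0 ≡ a [MOD R] := by
    by_cases hc : Nat.Coprime e R
    · exact ⟨Nat.chineseRemainder hc 0 a, fun _ => (Nat.chineseRemainder hc 0 a).2⟩
    · exact ⟨0, fun h => absurd h hc⟩
  set ζ : ℂ := ee (n0 * (u / (e * R))) with hζ
  let G : Finset ℕ → ℂ := fun A => if e ∣ ∏ p ∈ A, p then
    ζ * ((1 / ((∏ p ∈ A, p) * R : ℕ) : ℂ) * J) else 0
  have hErr : ∀ A ∈ fam R N, ‖(-1 : ℂ) ^ A.card * inner P R a (∏ p ∈ A, p) t -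
      (-1 : ℂ) ^ A.card * G A‖ ≤ Z + 2 + 2 * Real.pi * |β| * (P + D * R) := by
    intro A hA
    have hdD : ∏ p ∈ A, p ≤ D := prod_A_le R N hA
    have hc := coprime_prod_A hA
    have hdpos : 0 < ∏ p ∈ A, p := prod_pos fun p hp => by
      obtain ⟨i, _, hpi⟩ := mem_PI.mp ((mem_famA.mp hA).1 hp)
      exact (Ib_prime hpi).pos
    rw [← mul_sub, norm_mul, norm_pow, norm_neg, norm_one, one_pow, one_mul]
    have hpos2 : 0 ≤ 2 * Real.pi * |β| * (P + D * R) := by
      have := Real.two_pi_pos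
      positivity
    by_cases hed : e ∣ ∏ p ∈ A, p
    · simp only [G]
      rw [if_pos hed]
      have hcop : Nat.Coprime e R := Nat.Coprime.coprime_dvd_left hed hc
      obtain ⟨h1, h2⟩ := hn0 hcop
      have h3 := inner_major (P := P) (a := a) (u := u) (t := t) hR hdpos hc hepos hed h1 h2
      rw [← hβ, ← hJ, ← hζ] at h3
      refine h3.trans ?_
      have h4 : ((∏ p ∈ A, p : ℕ) : ℝ) ≤ D := by exact_mod_cast hdD
      have h5 : 2 * Real.pi * |β| * (P + ((∏ p ∈ A, p : ℕ) : ℝ) * R) ≤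
          2 * Real.pi * |β| * (P + D * R) := by
        apply mul_le_mul_of_nonneg_left _ (by have := Real.two_pi_pos; positivity)
        have := mul_le_mul_of_nonneg_right h4 hRR.le
        linarith
      have hZ0 : (0 : ℝ) ≤ Z := Nat.cast_nonneg _
      linarith
    · simp only [G]
      rw [if_neg hed, sub_zero]
      have h3 := inner_minor (P := P) (a := a) hR hdpos hc hepos heu hdD hDZ hx1 hed
      have h4 : (e : ℝ) ≤ Z := by exact_mod_cast hx2
      linarith
  have hG : ∑ A ∈ fam R N, (-1 : ℂ) ^ A.card * G A = ζ * (J * ((Ve R N e / R : ℝ) : ℂ)) := by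
    have h1 : ((Ve R N e / R : ℝ) : ℂ) = ∑ A ∈ fam R N, (if e ∣ ∏ p ∈ A, p then
        (-1 : ℂ) ^ A.card * (1 / ((∏ p ∈ A, p) * R : ℕ) : ℂ) else 0) := by
      unfold Ve
      rw [sum_div]
      push_cast
      refine sum_congr rfl fun A _ => ?_
      split_ifs
      · push_cast
        rw [prod_div_distrib, prod_const_one]
        rw [mul_one_div, mul_one_div, div_div]
      · simp
    rw [h1, mul_sum, mul_sum]
    refine sum_congr rfl fun A _ => ?_
    simp only [G]
    split_ifs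
    · ring
    · simp
  rw [S_expand]
  have h1 : ∑ A ∈ fam R N, (-1 : ℂ) ^ A.card * inner P R a (∏ p ∈ A, p) t =
      (∑ A ∈ fam R N, ((-1 : ℂ) ^ A.card * inner P R a (∏ p ∈ A, p) t -
        (-1 : ℂ) ^ A.card * G A)) + ζ * (J * ((Ve R N e / R : ℝ) : ℂ)) := by
    rw [sum_sub_distrib, hG]; ring
  rw [h1]
  refine (norm_add_le _ _).trans ?_
  have h2 : ‖ζ * (J * ((Ve R N e / R : ℝ) : ℂ))‖ = |Ve R N e| / R * ‖J‖ := by
    rw [norm_mul, hζ, norm_ee, one_mul, norm_mul, Complex.norm_real, Real.norm_eq_abs, abs_div,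
      abs_of_pos hRR, mul_comm]
  rw [h2, add_comm]
  apply add_le_add le_rfl
  refine (norm_sum_le _ _).trans ((sum_le_sum hErr).trans ?_)
  rw [sum_const, nsmul_eq_mul]
  apply mul_le_mul_of_nonneg_right
  · have := card_famA_le R N
    have h3 : ((fam R N).card : ℝ) ≤ ((2 ^ 2 ^ (N + 3) : ℕ) : ℝ) := Nat.cast_le.mpr this
    exact h3
  · have := Real.two_pi_pos
    positivity

end Pool.Agent.H78.OM
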