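import Pool.Agent.H78.OM.OffBound

/-!
# The lower bound for one pair of classes
-/

namespace Pool.Agent.H78.OM

open Finset

/-- value of the conditional expectation on the cell `(r, j)` -/
noncomputable def cval (H R : ℕ) (G : ℕ → ℝ) (t : ℕ × ℕ) : ℝ :=
  (∑ c ∈ (range H).filter (fun c => cell H R c = t), G c) /
    (((range H).filter (fun c => cell H R c = t)).card : ℝ)

theorem EG_eq_cval (H R : ℕ) (G : ℕ → ℝ) (b : ℕ) : EG H R G b = cval H R G (cell H R b) := rfl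

theorem cval_nonneg {H R : ℕ} {G : ℕ → ℝ} (h0 : ∀ b, 0 ≤ G b) (t : ℕ × ℕ) : 0 ≤ cval H R G t := by
  unfold cval
  exact div_nonneg (sum_nonneg fun c _ => h0 c) (Nat.cast_nonneg _)

theorem cval_le_one {H R : ℕ} {G : ℕ → ℝ} (h1 : ∀ b, G b ≤ 1) (t : ℕ × ℕ) : cval H R G t ≤ 1 := by
  unfold cval
  apply div_le_one_of_le₀ _ (Nat.cast_nonneg _)
  refine (sum_le_sum fun c _ => h1 c).trans ?_
  simp

/-- few points are close to the end of their block -/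
theorem card_bad {M R s : ℕ} : ∑ b ∈ range (M * R), (if M ≤ b % M + s then (1 : ℝ) else 0) ≤
    R * s := by
  rw [sum_range_mul_period (f := fun b => if M ≤ b % M + s then (1 : ℝ) else 0)
    (fun k => by simp only [Nat.add_mod_right])]
  apply mul_le_mul_of_nonneg_left _ (Nat.cast_nonneg _)
  rw [sum_boole]
  have h : (range M).filter (fun b => M ≤ b % M + s) ⊆ (range M) \ range (M - s) := by
    intro b hb
    rw [mem_filter, mem_range] at hb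
    rw [mem_sdiff, mem_range, mem_range]
    rw [Nat.mod_eq_of_lt hb.1] at hb
    omega
  have h2 := card_le_card h
  rw [card_sdiff_of_subset (range_subset_range.mpr (Nat.sub_le _ _)), card_range, card_range] at h2
  have h3 : M - (M - s) ≤ s := by omega
  exact_mod_cast h2.trans h3

section tau

variable {H R R' : ℕ} {𝒬 : Finset ℕ} {ρ : ℕ → ℕ} {F G : ℕ → ℝ}

/-- the coarse part for one shift -/
theorem coarse_shift (hH : 0 < H) (hRH : R ∣ H) (hF0 : ∀ b, 0 ≤ F b) (hF1 : ∀ b, F b ≤ 1)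
    (hG0 : ∀ b, 0 ≤ G b) (hG1 : ∀ b, G b ≤ 1) {s δ : ℕ} (hs : s ≡ δ [MOD R]) :
    ∑ b ∈ range H, F b * cval H R G ((b + δ) % R, b / (H / R)) - R * s ≤
      ∑ b ∈ range H, F b * EG H R G (b + s) := by
  have hR : 0 < R := Nat.pos_of_dvd_of_pos hRH hH
  obtain ⟨M, rfl⟩ := hRH
  have hM : 0 < M := Nat.pos_of_mul_pos_left hH
  have e1 : R * M / R = M := Nat.mul_div_cancel_left _ hR
  have h1 : ∀ b ∈ range (R * M), F b * cval (R * M) R G ((b + δ) % R, b / (R * M / R)) ≤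
      F b * EG (R * M) R G (b + s) + (if M ≤ b % M + s then (1 : ℝ) else 0) := by
    intro b hb
    have hb' := mem_range.mp hb
    split_ifs with h
    · have h2 : F b * cval (R * M) R G ((b + δ) % R, b / (R * M / R)) ≤ 1 :=
        mul_le_one₀ (hF1 b) (cval_nonneg hG0 _) (cval_le_one hG1 _)
      have h3 : 0 ≤ F b * EG (R * M) R G (b + s) := mul_nonneg (hF0 b) (EG_nonneg hG0 _)
      linarith
    · push Not at h
      rw [add_zero, EG_eq_cval]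
      apply le_of_eq
      congr 2
      unfold cell
      rw [e1]
      have h5 := Nat.div_add_mod' b M
      have h6 : (b + s) / M = b / M := by
        rw [Nat.div_eq_of_lt_le]
        · omega
        · rw [add_mul, one_mul]; omega
      have h7 : b + s < R * M := by
        have : b / M < R := by rw [Nat.div_lt_iff_lt_mul hM]; exact hb'
        calc b + s < b / M * M + M := by omega
          _ = (b / M + 1) * M := by ring
          _ ≤ R * M := Nat.mul_le_mul_right _ this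
      rw [Nat.mod_eq_of_lt h7, h6]
      congr 1
      exact (Nat.ModEq.add_left b hs).symm
  have h2 := sum_le_sum h1
  rw [sum_add_distrib] at h2
  have h3 := card_bad (M := M) (R := R) (s := s)
  rw [mul_comm M R] at h3
  linarith

/-- the coarse part -/
theorem coarse_part (hH : 0 < H) (hRH : R ∣ H) (hp : ∀ q ∈ 𝒬, q.Prime)
    (hρ : ∀ q ∈ 𝒬, ρ q < q) (hd : ∀ q ∈ 𝒬, q ∣ H)
    (hF0 : ∀ b, 0 ≤ F b) (hF1 : ∀ b, F b ≤ 1)
    (hG0 : ∀ b, 0 ≤ G b) (hG1 : ∀ b, G b ≤ 1) {δ : ℕ} (Ps : Finset ℕ) (s : ℕ → ℕ → ℕ)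
    (hs : ∀ p ∈ Ps, ∀ q ∈ 𝒬, s q p ≡ δ [MOD R]) {smax : ℕ}
    (hsm : ∀ p ∈ Ps, ∀ q ∈ 𝒬, s q p ≤ smax) :
    (Ps.card : ℝ) * (recip 𝒬 * (∑ b ∈ range H, F b * cval H R G ((b + δ) % R, b / (H / R))) -
      H * Real.sqrt (recip 𝒬) - 𝒬.card * (R * smax)) ≤
    ∑ p ∈ Ps, ∑ b ∈ range H, ∑ q ∈ 𝒬, F b * (cls q (ρ q) b * EG H R G (b + s q p)) := by
  rw [← nsmul_eq_mul]
  apply card_nsmul_le_sum
  intro p hpP
  rw [sum_comm]
  have h1 : ∀ q ∈ 𝒬, ∑ b ∈ range H, F b * cls q (ρ q) b *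
      cval H R G ((b + δ) % R, b / (H / R)) - R * smax ≤
      ∑ b ∈ range H, F b * (cls q (ρ q) b * EG H R G (b + s q p)) := by
    intro q hq
    have := coarse_shift (F := fun b => F b * cls q (ρ q) b) hH hRH
      (fun b => mul_nonneg (hF0 b) (cls_nonneg _ _ _))
      (fun b => mul_le_one₀ (hF1 b) (cls_nonneg _ _ _) (cls_le_one _ _ _)) hG0 hG1
      (hs p hpP q hq)
    have h2 : (R : ℝ) * s q p ≤ R * smax :=
      mul_le_mul_of_nonneg_left (by exact_mod_cast hsm p hpP q hq) (Nat.cast_nonneg _)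
    simp only [mul_assoc] at this ⊢
    linarith
  refine le_trans ?_ (sum_le_sum h1)
  rw [sum_sub_distrib, sum_const, nsmul_eq_mul, sum_comm]
  have h3 : ∀ b ∈ range H, F b * cval H R G ((b + δ) % R, b / (H / R)) * recip 𝒬 -
      |om 𝒬 ρ b - recip 𝒬| ≤ ∑ q ∈ 𝒬, F b * cls q (ρ q) b *
        cval H R G ((b + δ) % R, b / (H / R)) := by
    intro b _
    have e : ∑ q ∈ 𝒬, F b * cls q (ρ q) b * cval H R G ((b + δ) % R, b / (H / R)) =
        F b * cval H R G ((b + δ) % R, b / (H / R)) * om 𝒬 ρ b := by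
      unfold om
      rw [mul_sum]
      exact sum_congr rfl fun q _ => by ring
    rw [e]
    set u := F b * cval H R G ((b + δ) % R, b / (H / R)) with hu
    have hu0 : 0 ≤ u := mul_nonneg (hF0 b) (cval_nonneg hG0 _)
    have hu1 : u ≤ 1 := mul_le_one₀ (hF1 b) (cval_nonneg hG0 _) (cval_le_one hG1 _)
    have h4 : u * (recip 𝒬 - om 𝒬 ρ b) ≤ |om 𝒬 ρ b - recip 𝒬| := by
      calc u * (recip 𝒬 - om 𝒬 ρ b) ≤ |u * (recip 𝒬 - om 𝒬 ρ b)| := le_abs_self _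
        _ = u * |om 𝒬 ρ b - recip 𝒬| := by rw [abs_mul, abs_of_nonneg hu0, abs_sub_comm]
        _ ≤ _ := mul_le_of_le_one_left (abs_nonneg _) hu1
    linarith
  have h4 := sum_le_sum h3
  rw [sum_sub_distrib, ← sum_mul] at h4
  have h5 := sum_abs_om_sub hp hρ hd
  linarith

/-- the fine part -/
theorem fine_part (hp : ∀ q ∈ 𝒬, q.Prime)
    (hρ : ∀ q ∈ 𝒬, ρ q < q) (hd : ∀ q ∈ 𝒬, q ∣ H)
    (hF0 : ∀ b, 0 ≤ F b) (hF1 : ∀ b, F b ≤ 1) (hK : 1 ≤ recip 𝒬) (φ : ℕ → ℝ)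
    (hφ : ∀ b, φ (b + H) = φ b) {ε : ℝ} (hf : ∑ b ∈ range H, φ b ^ 2 ≤ ε * H)
    (Ps : Finset ℕ) (s : ℕ → ℕ → ℕ) (hs : ∀ p ∈ Ps, ∀ q ∈ 𝒬, q ∣ s q p) :
    |∑ p ∈ Ps, ∑ b ∈ range H, ∑ q ∈ 𝒬, F b * (cls q (ρ q) b * φ (b + s q p))| ≤
      Ps.card * (H * recip 𝒬 * Real.sqrt (2 * ε)) := by
  have h1 : ∀ p ∈ Ps, |∑ b ∈ range H, ∑ q ∈ 𝒬, F b * (cls q (ρ q) b * φ (b + s q p))| ≤
      H * recip 𝒬 * Real.sqrt (2 * ε) := by
    intro p hpP
    refine (abs_sum_le_sum_abs _ _).trans ?_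
    have h2 : ∀ b ∈ range H, |∑ q ∈ 𝒬, F b * (cls q (ρ q) b * φ (b + s q p))| ≤
        ∑ q ∈ 𝒬, cls q (ρ q) b * |φ (b + s q p)| := by
      intro b _
      refine (abs_sum_le_sum_abs _ _).trans (sum_le_sum fun q _ => ?_)
      rw [abs_mul, abs_mul, abs_of_nonneg (hF0 b), abs_of_nonneg (cls_nonneg _ _ _)]
      exact mul_le_of_le_one_left (mul_nonneg (cls_nonneg _ _ _) (abs_nonneg _)) (hF1 b)
    refine (sum_le_sum h2).trans ?_
    rw [sum_comm]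
    have h3 : ∀ q ∈ 𝒬, ∑ b ∈ range H, cls q (ρ q) b * |φ (b + s q p)| =
        ∑ b ∈ range H, cls q (ρ q) b * |φ b| := by
      intro q hq
      rw [← sum_range_shift (f := fun b => cls q (ρ q) b * |φ b|)
        (fun b => by rw [cls_period (hd q hq), hφ]) (s q p)]
      refine sum_congr rfl fun b _ => ?_
      rw [cls_shift_self _ _ _ _ (hs p hpP q hq)]
    rw [sum_congr rfl h3, sum_comm]
    have h4 := sum_om_mul_abs hp hρ hd φ hK hf
    refine le_trans (le_of_eq ?_) h4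
    refine sum_congr rfl fun b _ => ?_
    unfold om
    rw [sum_mul]
  refine (abs_sum_le_sum_abs _ _).trans ((sum_le_sum h1).trans ?_)
  rw [sum_const, nsmul_eq_mul]

/-- the lower bound -/
theorem tau_lower {D R0 a0 δ : ℕ} {𝒩 Ps : Finset ℕ} {w : ℕ → ℝ}
    (hH : 0 < H) (hRH : R ∣ H) (hRR' : R ∣ R') (hR'H : R' ∣ H)
    (hp : ∀ q ∈ 𝒬, q.Prime) (hρ : ∀ q ∈ 𝒬, ρ q < q) (hd : ∀ q ∈ 𝒬, q ∣ H)
    (hq0 : ∀ q ∈ 𝒬, q ∣ R0) (hqR : ∀ q ∈ 𝒬, q ≡ 1 [MOD R]) (hRR0 : R ∣ R0)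
    (h𝒩 : ∀ n ∈ 𝒩, n ≡ a0 [MOD R0]) (hPs : Ps ⊆ 𝒩) (hδ : D * a0 ≡ δ [MOD R])
    (hw : ∀ n, 0 ≤ w n) (hw1 : ∀ n ∈ Ps, 1 ≤ w n)
    (hF0 : ∀ b, 0 ≤ F b) (hF1 : ∀ b, F b ≤ 1)
    (hG : ∀ b, G (b + H) = G b) (hG0 : ∀ b, 0 ≤ G b) (hG1 : ∀ b, G b ≤ 1)
    (hK : 1 ≤ recip 𝒬) {ε2 εo A : ℝ} (hεo : 0 ≤ εo)
    (hgap : energy H R' G - energy H R G ≤ ε2 * H)
    (hA : ∑ n ∈ 𝒩, w n ≤ A)
    (hoff : ∀ q ∈ 𝒬, ∀ q' ∈ 𝒬, q < q' → ∀ f : ℕ → ℝ, (∀ b, |f b| ≤ 1) →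
      |∑ n ∈ 𝒩, w n * ∑ c ∈ range H, f c * (fun b => G b - EG H R' G b)
        (c + (D * (q' - q)) * n)| ≤ εo * H)
    {smax : ℕ} (hsm : ∀ p ∈ Ps, ∀ q ∈ 𝒬, D * q * p ≤ smax) :
    (Ps.card : ℝ) * (recip 𝒬 * (∑ b ∈ range H, F b * cval H R G ((b + δ) % R, b / (H / R))) -
      H * Real.sqrt (recip 𝒬) - 𝒬.card * (R * smax) - H * recip 𝒬 * Real.sqrt (2 * ε2)) -
      H * Real.sqrt (Ps.card * (A * recip 𝒬 + (𝒬.card : ℝ) ^ 2 * εo)) ≤
    ∑ p ∈ Ps, ∑ b ∈ range H, ∑ q ∈ 𝒬, F b * (cls q (ρ q) b * G (b + D * q * p)) := by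
  have hF' : ∀ b, |F b| ≤ 1 := fun b => by rw [abs_of_nonneg (hF0 b)]; exact hF1 b
  -- coarse
  have hc := coarse_part (R := R) hH hRH hp hρ hd hF0 hF1 hG0 hG1 (δ := δ) Ps
    (fun q p => D * q * p) (by
      intro p hpP q hq
      have h1 : p ≡ a0 [MOD R] := (h𝒩 p (hPs hpP)).of_dvd hRR0
      have h2 : D * q * p ≡ D * 1 * a0 [MOD R] := ((hqR q hq).mul_left D).mul h1
      rw [mul_one] at h2
      exact h2.trans hδ) hsm
  -- fine
  have hf := fine_part (ε := ε2) hp hρ hd hF0 hF1 hK (fun b => EG H R' G b - EG H R G b)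
    (fun b => by simp only [EG_period hR'H, EG_period hRH])
    (by rw [energy_sub hH hRR' hR'H]; exact hgap) Ps (fun q p => D * q * p)
    (fun p _ q _ => ⟨D * p, by ring⟩)
  -- oscillating
  have hψ1 : ∀ b, |(fun b => G b - EG H R' G b) b| ≤ 1 := by
    intro b
    simp only
    rw [abs_le]
    have a1 := hG0 b; have a2 := hG1 b
    have a3 := EG_nonneg (H := H) (R := R') hG0 b
    have a4 := EG_le_one (H := H) (R := R') hG1 b
    constructor <;> linarith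
  have hb := bilinear (D := D) (w := w) (ψ := fun b => G b - EG H R' G b) hρ hd hq0 h𝒩 hw
    (fun b => by simp only [EG_period hR'H, hG]) hψ1 hεo hA hoff
  have hg := bilinear_cs (H := H) (𝒬 := 𝒬) (ρ := ρ) (𝒩 := 𝒩) (w := w) (D := D)
    (ψ := fun b => G b - EG H R' G b) (B := A * recip 𝒬 + (𝒬.card : ℝ) ^ 2 * εo)
    F hF' Ps hPs hw hw1 hb
  have hterm : ∀ p b q, F b * (cls q (ρ q) b * G (b + D * q * p)) =
      F b * (cls q (ρ q) b * EG H R G (b + D * q * p)) +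
      F b * (cls q (ρ q) b * (fun b => EG H R' G b - EG H R G b) (b + D * q * p)) +
      F b * (cls q (ρ q) b * (fun b => G b - EG H R' G b) (b + D * q * p)) := by
    intro p b q
    simp only
    ring
  have e : ∑ p ∈ Ps, ∑ b ∈ range H, ∑ q ∈ 𝒬, F b * (cls q (ρ q) b * G (b + D * q * p)) =
      ∑ p ∈ Ps, ∑ b ∈ range H, ∑ q ∈ 𝒬, F b * (cls q (ρ q) b * EG H R G (b + D * q * p)) +
      ∑ p ∈ Ps, ∑ b ∈ range H, ∑ q ∈ 𝒬, F b * (cls q (ρ q) b *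
        (fun b => EG H R' G b - EG H R G b) (b + D * q * p)) +
      ∑ p ∈ Ps, ∑ b ∈ range H, ∑ q ∈ 𝒬, F b * (cls q (ρ q) b *
        (fun b => G b - EG H R' G b) (b + D * q * p)) := by
    rw [← sum_add_distrib, ← sum_add_distrib]
    refine sum_congr rfl fun p _ => ?_
    rw [← sum_add_distrib, ← sum_add_distrib]
    refine sum_congr rfl fun b _ => ?_
    rw [← sum_add_distrib, ← sum_add_distrib]
    exact sum_congr rfl fun q _ => hterm p b q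
  rw [e]
  have hf' := (abs_le.mp hf).1
  have hg' := (abs_le.mp hg).1
  clear hterm e hb hψ1 hoff hf hg
  generalize ∑ p ∈ Ps, ∑ b ∈ range H, ∑ q ∈ 𝒬, F b * (cls q (ρ q) b *
    EG H R G (b + D * q * p)) = S1 at *
  generalize ∑ p ∈ Ps, ∑ b ∈ range H, ∑ q ∈ 𝒬, F b * (cls q (ρ q) b *
        (fun b => EG H R' G b - EG H R G b) (b + D * q * p)) = S2 at *
  generalize ∑ p ∈ Ps, ∑ b ∈ range H, ∑ q ∈ 𝒬, F b * (cls q (ρ q) b *
        (fun b => G b - EG H R' G b) (b + D * q * p)) = S3 at *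
  generalize H * Real.sqrt (Ps.card * (A * recip 𝒬 + (𝒬.card : ℝ) ^ 2 * εo)) = T3 at *
  generalize H * recip 𝒬 * Real.sqrt (2 * ε2) = T2 at *
  have e3 : ∀ X : ℝ, (Ps.card : ℝ) * (X - T2) = Ps.card * X - Ps.card * T2 := fun X => by ring
  rw [e3]
  linarith

end tau

end Pool.Agent.H78.OM
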