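import Pool.Agent.H78.OM.Recip
import Pool.Agent.H78.OM.Tau
import Pool.Agent.H78.OM.Defs

/-!
# One step of the energy increment, for one pair of classes
-/

namespace Pool.Agent.H78.OM

open Finset

/-- the sieve majorant -/
def MAJ : Prop := ∃ C2 : ℝ, 0 < C2 ∧ ∀ ε : ℝ, 0 < ε → ∃ w : ℕ, ∀ R : ℕ, 0 < R →
  (∀ p, p.Prime → p ≤ w → p ∣ R) →
  ∃ κ0 : ℝ, 0 < κ0 ∧ ∃ P0 : ℕ, ∀ P : ℕ, P0 ≤ P → ∃ ρ : ℕ → ℝ, (∀ n, 0 ≤ ρ n) ∧
    (∀ n, n.Prime → P < n → 1 ≤ ρ n) ∧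
    ∀ a : ℕ, Nat.Coprime a R → ∀ t : ℝ,
      ‖∑ n ∈ (Ioc P (2 * P)).filter (fun n => n % R = a % R), (ρ n : ℂ) * ee (n * t)‖ ≤
        C2 * P / (Nat.totient R * Real.log P) ∧
      ((∀ v : ℤ, κ0 / P ≤ |t - v / R|) →
        ‖∑ n ∈ (Ioc P (2 * P)).filter (fun n => n % R = a % R), (ρ n : ℂ) * ee (n * t)‖ ≤
          ε * P / (Nat.totient R * Real.log P))

/-- numerical part -/
theorem final_ineq {Pc H K M QRs A εQ c0 C2 c1 T : ℝ} (hPc : 0 ≤ Pc) (hH : 0 ≤ H) (hK : 1 ≤ K)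
    (hc0 : 0 < c0) (hc1 : 0 < c1) (hM : c1 * H ≤ M) (hQ : QRs ≤ c1 / 8 * H)
    (hA : A ≤ C2 / c0 * Pc) (hA0 : 0 ≤ A) (hεQ : εQ ≤ A)
    (hK1 : 64 / c1 ^ 2 ≤ K) (hK2 : 128 * C2 / (c0 * c1 ^ 2) ≤ K)
    (hT : Pc * (K * M - H * Real.sqrt K - QRs - H * K * Real.sqrt (2 * (c1 ^ 2 / 32))) -
      H * Real.sqrt (Pc * (A * K + εQ)) ≤ T) : 3 / 8 * c1 * Pc * H ≤ T := by
  have h1 : Real.sqrt (2 * (c1 ^ 2 / 32)) = c1 / 4 := by
    rw [show 2 * (c1 ^ 2 / 32) = (c1 / 4) ^ 2 by ring, Real.sqrt_sq (by positivity)]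
  have h2 : Real.sqrt K ≤ K * c1 / 8 := by
    apply Real.sqrt_le_iff.mpr
    refine ⟨by positivity, ?_⟩
    rw [div_le_iff₀ (by positivity)] at hK1
    nlinarith
  have h3 : Real.sqrt (Pc * (A * K + εQ)) ≤ Pc * (K * c1 / 8) := by
    apply Real.sqrt_le_iff.mpr
    refine ⟨by positivity, ?_⟩
    rw [div_le_iff₀ (by positivity)] at hK2
    have h4 : A * K + εQ ≤ 2 * K * (C2 / c0 * Pc) := by nlinarith
    have h5 : 2 * (C2 / c0) * 64 ≤ K * c1 ^ 2 := by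
      rw [mul_div_assoc', div_mul_eq_mul_div, div_le_iff₀ hc0]
      linarith
    calc Pc * (A * K + εQ) ≤ Pc * (2 * K * (C2 / c0 * Pc)) := mul_le_mul_of_nonneg_left h4 hPc
      _ = (2 * (C2 / c0) * 64) * (K * Pc ^ 2 / 64) := by ring
      _ ≤ (K * c1 ^ 2) * (K * Pc ^ 2 / 64) := mul_le_mul_of_nonneg_right h5 (by positivity)
      _ = (Pc * (K * c1 / 8)) ^ 2 := by ring
  rw [h1] at hT
  have h6 : K * (c1 * H) ≤ K * M := mul_le_mul_of_nonneg_left hM (by linarith)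
  have h7 : H * Real.sqrt K ≤ H * (K * c1 / 8) := mul_le_mul_of_nonneg_left h2 hH
  have h8 : H * Real.sqrt (Pc * (A * K + εQ)) ≤ H * (Pc * (K * c1 / 8)) :=
    mul_le_mul_of_nonneg_left h3 hH
  have h9 : QRs ≤ K * c1 / 8 * H := by
    have : c1 / 8 * H ≤ K * (c1 / 8 * H) := le_mul_of_one_le_left (by positivity) hK
    linarith
  have h10 : K * M - H * Real.sqrt K - QRs - H * K * (c1 / 4) ≥ K * (c1 * H) * (1 / 2) := by
    nlinarith
  have h11 : Pc * (K * (c1 * H) * (1 / 2)) ≤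
      Pc * (K * M - H * Real.sqrt K - QRs - H * K * (c1 / 4)) :=
    mul_le_mul_of_nonneg_left h10 hPc
  have h12 : 3 / 8 * c1 * Pc * H ≤ K * (3 / 8 * c1 * Pc * H) :=
    le_mul_of_one_le_left (by positivity) hK
  nlinarith

/-- the points which wrap around -/
theorem wrap_count (H s : ℕ) : ∑ b ∈ range H, (if H ≤ b + s then (1 : ℝ) else 0) ≤ s := by
  rw [sum_boole]
  have h : (range H).filter (fun b => H ≤ b + s) ⊆ range H \ range (H - s) := by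
    intro b hb
    rw [mem_filter, mem_range] at hb
    rw [mem_sdiff, mem_range, mem_range]
    omega
  have h2 := card_le_card h
  rw [card_sdiff_of_subset (range_subset_range.mpr (Nat.sub_le _ _)), card_range, card_range] at h2
  have h3 : H - (H - s) ≤ s := by omega
  exact_mod_cast h2.trans h3

/-- lift of a unit -/
theorem exists_lift {R R0 a : ℕ} (hR0 : 0 < R0) (h : R ∣ R0) (ha : a.Coprime R) :
    ∃ a0 : ℕ, a0.Coprime R0 ∧ a0 ≡ a [MOD R] := by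
  have : NeZero R0 := ⟨hR0.ne'⟩
  obtain ⟨u, hu⟩ := ZMod.unitsMap_surjective h (ZMod.unitOfCoprime a ha)
  refine ⟨(u : ZMod R0).val, ZMod.val_coe_unit_coprime u, ?_⟩
  rw [← ZMod.natCast_eq_natCast_iff]
  have h2 := congrArg (fun v : (ZMod R)ˣ => (v : ZMod R)) hu
  simp only [ZMod.unitsMap_val, ZMod.coe_unitOfCoprime] at h2
  rw [← h2]
  rw [ZMod.natCast_val]


/-- the pairs found -/
noncomputable def Gd (M0 D R Bq C0 H : ℕ) (F G : ℕ → ℝ) : Finset (ℕ × ℕ) :=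
  open Classical in
  (range H ×ˢ PS M0 C0 H).filter (fun x => ∃ q, q.Prime ∧ q ≤ Bq ∧ q ≡ 1 [MOD R] ∧
    q ∣ x.1 ^ 2 + 1 ∧ x.1 + D * q * x.2 < H ∧ F x.1 ≠ 0 ∧ G (x.1 + D * q * x.2) ≠ 0)

theorem mem_Gd {M0 D R Bq C0 H : ℕ} {F G : ℕ → ℝ} {x : ℕ × ℕ} : x ∈ Gd M0 D R Bq C0 H F G ↔
    (x.1 ∈ range H ∧ x.2 ∈ PS M0 C0 H) ∧ ∃ q, q.Prime ∧ q ≤ Bq ∧ q ≡ 1 [MOD R] ∧
    q ∣ x.1 ^ 2 + 1 ∧ x.1 + D * q * x.2 < H ∧ F x.1 ≠ 0 ∧ G (x.1 + D * q * x.2) ≠ 0 := by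
  classical
  unfold Gd
  rw [mem_filter, mem_product]

/-- from triples to pairs -/
theorem count_pairs {M0 H R D Bq C0 smax : ℕ} {𝒬 : Finset ℕ} {ρ : ℕ → ℕ} {F G : ℕ → ℝ}
    {Ps : Finset ℕ} (hq : ∀ q ∈ 𝒬, q.Prime ∧ q ≤ Bq ∧ q ≡ 1 [MOD R] ∧ q ∣ ρ q ^ 2 + 1)
    (hPs : ∀ p ∈ Ps, p ∈ PS M0 C0 H)
    (hF1 : ∀ b, F b ≤ 1) (hG0 : ∀ b, 0 ≤ G b) (hG1 : ∀ b, G b ≤ 1)
    (hsm : ∀ p ∈ Ps, ∀ q ∈ 𝒬, D * q * p ≤ smax) :
    ∑ p ∈ Ps, ∑ b ∈ range H, ∑ q ∈ 𝒬, F b * (cls q (ρ q) b * G (b + D * q * p)) ≤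
      𝒬.card * ((Gd M0 D R Bq C0 H F G).card : ℝ) + Ps.card * (𝒬.card * smax) := by
  classical
  have h1 : ∀ p ∈ Ps, ∑ b ∈ range H, ∑ q ∈ 𝒬, F b * (cls q (ρ q) b * G (b + D * q * p)) ≤
      ∑ b ∈ range H, 𝒬.card * (if (b, p) ∈ Gd M0 D R Bq C0 H F G then (1 : ℝ) else 0) +
        𝒬.card * smax := by
    intro p hp
    have h2 : ∀ b ∈ range H, ∑ q ∈ 𝒬, F b * (cls q (ρ q) b * G (b + D * q * p)) ≤
        𝒬.card * (if (b, p) ∈ Gd M0 D R Bq C0 H F G then (1 : ℝ) else 0) +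
        ∑ q ∈ 𝒬, (if H ≤ b + D * q * p then (1 : ℝ) else 0) := by
      intro b hb
      rw [← nsmul_eq_mul, ← sum_const, ← sum_add_distrib]
      refine sum_le_sum fun q hqQ => ?_
      have hle : F b * (cls q (ρ q) b * G (b + D * q * p)) ≤ 1 :=
        mul_le_one₀ (hF1 b) (mul_nonneg (cls_nonneg _ _ _) (hG0 _))
          (mul_le_one₀ (cls_le_one _ _ _) (hG0 _) (hG1 _))
      by_cases h3 : H ≤ b + D * q * p
      · rw [if_pos h3]
        split_ifs <;> linarith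
      · rw [if_neg h3]
        by_cases h4 : F b * (cls q (ρ q) b * G (b + D * q * p)) = 0
        · rw [h4]; split_ifs <;> norm_num
        · rw [if_pos]
          · linarith
          · rw [mem_Gd]
            have h5 := left_ne_zero_of_mul h4
            have h6 := right_ne_zero_of_mul h4
            have h7 := left_ne_zero_of_mul h6
            have h8 := right_ne_zero_of_mul h6
            obtain ⟨a1, a2, a3, a4⟩ := hq q hqQ
            refine ⟨⟨hb, hPs p hp⟩, q, a1, a2, a3, ?_, by simpa using h3, h5, h8⟩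
            have h9 : b % q = ρ q := by
              by_contra h10
              apply h7
              unfold cls; rw [if_neg h10]
            have h10 : b ^ 2 + 1 ≡ ρ q ^ 2 + 1 [MOD q] := by
              have : b ≡ ρ q [MOD q] := by
                show b % q = ρ q % q
                rw [h9, ← h9, Nat.mod_mod]
              gcongr
            exact (Nat.ModEq.dvd_iff h10 (dvd_refl q)).mpr a4
    refine (sum_le_sum h2).trans ?_
    rw [sum_add_distrib]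
    apply add_le_add le_rfl
    rw [sum_comm]
    have h3 : ∀ q ∈ 𝒬, ∑ b ∈ range H, (if H ≤ b + D * q * p then (1 : ℝ) else 0) ≤ smax := by
      intro q hqQ
      exact (wrap_count H (D * q * p)).trans (by exact_mod_cast hsm p hp q hqQ)
    refine (sum_le_sum h3).trans ?_
    rw [sum_const, nsmul_eq_mul]
  refine (sum_le_sum h1).trans ?_
  rw [sum_add_distrib, sum_const, nsmul_eq_mul]
  apply add_le_add _ le_rfl
  simp_rw [← mul_sum]
  apply mul_le_mul_of_nonneg_left _ (Nat.cast_nonneg _)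
  rw [← sum_product' (f := fun p b => if (b, p) ∈ Gd M0 D R Bq C0 H F G then (1 : ℝ) else 0)]
  rw [sum_boole]
  have h2 : ((Ps ×ˢ range H).filter (fun x => (x.2, x.1) ∈ Gd M0 D R Bq C0 H F G)).card ≤
      (Gd M0 D R Bq C0 H F G).card := by
    apply card_le_card_of_injOn (fun x => (x.2, x.1))
    · intro x hx
      exact (mem_filter.mp hx).2
    · rintro ⟨a, b⟩ _ ⟨c, d⟩ _ h
      simp only [Prod.mk.injEq] at h ⊢
      exact ⟨h.2, h.1⟩
  exact_mod_cast h2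

end Pool.Agent.H78.OM
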