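import Pool.Agent.H78.OM.Maj5
import Pool.Agent.H78.OM.Step1

/-!
# The sieve majorant
-/

namespace Pool.Agent.H78.OM

open Finset
open Pool.Agent.H6.Hooley

theorem ev_log (c : ℝ) (hc : 0 < c) : ∃ P0 : ℕ, ∀ P : ℕ, P0 ≤ P →
    Real.log P ≤ c * (P : ℝ) ^ (3 / 8 : ℝ) := by
  have h := (isLittleO_log_rpow_atTop (show (0 : ℝ) < 3 / 8 by norm_num)).def hc
  have h2 := (tendsto_natCast_atTop_atTop (R := ℝ)).eventually h
  rw [Filter.eventually_atTop] at h2
  obtain ⟨P0, hP0⟩ := h2
  refine ⟨P0, fun P hP => ?_⟩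
  have h3 := hP0 P hP
  rw [Real.norm_eq_abs, Real.norm_eq_abs] at h3
  rw [abs_of_nonneg (Real.rpow_nonneg (Nat.cast_nonneg _) _)] at h3
  exact (le_abs_self _).trans h3

/-- choice of the number of blocks -/
theorem exists_N {P : ℕ} (hP : 2 ^ 64 ≤ P) : ∃ N : ℕ, (2 ^ 2 ^ (N + 3)) ^ 8 ≤ P ∧
    Real.log P ≤ 128 * Real.log (2 ^ 2 ^ N : ℕ) := by
  have hP0 : P ≠ 0 := by
    have : 0 < 2 ^ 64 := by positivity
    omega
  set M := Nat.log 2 P with hM
  have hM64 : 64 ≤ M := (Nat.le_log_iff_pow_le (by norm_num) hP0).mpr hP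
  set K := Nat.log 2 M with hK
  have hK6 : 6 ≤ K := by
    apply (Nat.le_log_iff_pow_le (by norm_num) (by omega)).mpr
    norm_num; exact hM64
  have h1 : 2 ^ K ≤ M := Nat.pow_log_le_self 2 (by omega)
  have h2 : M < 2 ^ (K + 1) := Nat.lt_pow_succ_log_self (by norm_num) M
  have h3 : 2 ^ M ≤ P := Nat.pow_log_le_self 2 hP0
  have h4 : P < 2 ^ (M + 1) := Nat.lt_pow_succ_log_self (by norm_num) P
  refine ⟨K - 6, ?_, ?_⟩
  · rw [← pow_mul]
    have e : 2 ^ (K - 6 + 3) * 8 = 2 ^ K := by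
      have : K = K - 6 + 3 + 3 := by omega
      conv_rhs => rw [this, pow_succ, pow_succ, pow_succ]
      ring
    rw [e]
    exact (Nat.pow_le_pow_right (by norm_num) h1).trans h3
  · have hlog2 : 0 < Real.log 2 := Real.log_pos (by norm_num)
    have h5 : Real.log P ≤ (M + 1) * Real.log 2 := by
      have : (P : ℝ) ≤ 2 ^ (M + 1) := by exact_mod_cast h4.le
      calc Real.log P ≤ Real.log (2 ^ (M + 1)) := Real.log_le_log (by
            have : 0 < P := by omega
            exact_mod_cast this) this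
        _ = (M + 1) * Real.log 2 := by rw [Real.log_pow]; push_cast; ring
    have h6 : ((M : ℝ) + 1) ≤ 128 * 2 ^ (K - 6) := by
      have : M + 1 ≤ 128 * 2 ^ (K - 6) := by
        have e : 2 ^ (K + 1) = 128 * 2 ^ (K - 6) := by
          have : K + 1 = 7 + (K - 6) := by omega
          rw [this, pow_add]; norm_num
        omega
      exact_mod_cast this
    have h7 : Real.log (2 ^ 2 ^ (K - 6) : ℕ) = 2 ^ (K - 6) * Real.log 2 := by
      push_cast
      rw [Real.log_pow]; push_cast; ring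
    rw [h7]
    calc Real.log P ≤ (M + 1) * Real.log 2 := h5
      _ ≤ (128 * 2 ^ (K - 6)) * Real.log 2 := mul_le_mul_of_nonneg_right h6 hlog2.le
      _ = _ := by ring

/-- the error term -/
theorem err_le {D Z R P : ℕ} {β c φ : ℝ} (hZ : Z = Nat.sqrt P) (hD : D ^ 8 ≤ P) (hP : 1 ≤ P)
    (hR : R ^ 2 ≤ P) (hβ : |β| ≤ 1 / (Z + 1)) (hφ : 0 < φ)
    (hlog : Real.log P ≤ (c / (32 * φ)) * (P : ℝ) ^ (3 / 8 : ℝ)) (hlogpos : 0 < Real.log P) :
    (D : ℝ) * (Z + 2 + 2 * Real.pi * |β| * (P + D * R)) ≤ c * P / (φ * Real.log P) := by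
  have hPR : (1 : ℝ) ≤ P := by exact_mod_cast hP
  have hP0 : (0 : ℝ) < P := by linarith
  have hD0 : (0 : ℝ) ≤ D := Nat.cast_nonneg _
  have hDR : (D : ℝ) ≤ (P : ℝ) ^ (1 / 8 : ℝ) := by
    have h1 : (D : ℝ) ^ (8 : ℕ) ≤ P := by exact_mod_cast hD
    have h2 : (D : ℝ) = ((D : ℝ) ^ (8 : ℕ)) ^ (1 / 8 : ℝ) := by
      rw [← Real.rpow_natCast, ← Real.rpow_mul hD0]; norm_num
    rw [h2]
    exact Real.rpow_le_rpow (by positivity) h1 (by norm_num)
  have hZ1 : (Z : ℝ) + 1 ≤ 2 * (P : ℝ) ^ (1 / 2 : ℝ) := by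
    have h1 : Z ^ 2 ≤ P := by rw [hZ]; exact Nat.sqrt_le' P
    have h2 : (Z : ℝ) ≤ (P : ℝ) ^ (1 / 2 : ℝ) := by
      rw [← Real.sqrt_eq_rpow]
      apply Real.le_sqrt_of_sq_le
      exact_mod_cast h1
    have h3 : (1 : ℝ) ≤ (P : ℝ) ^ (1 / 2 : ℝ) := Real.one_le_rpow hPR (by norm_num)
    linarith
  have hZ2 : (P : ℝ) ≤ (Z + 1) ^ 2 := by
    have h1 : P < (Z + 1) ^ 2 := by rw [hZ]; exact Nat.lt_succ_sqrt' P
    exact_mod_cast h1.le
  have hDRP : (D : ℝ) * R ≤ P := by
    have h1 : D ^ 2 ≤ P := by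
      rcases Nat.eq_zero_or_pos D with h | h
      · rw [h]; simp
      · exact (Nat.pow_le_pow_right h (by norm_num)).trans hD
    have h2 : (D * R) ^ 2 ≤ P ^ 2 := by
      rw [mul_pow, pow_two P]; exact Nat.mul_le_mul h1 hR
    have h3 : D * R ≤ P := (Nat.pow_le_pow_iff_left two_ne_zero).mp h2
    exact_mod_cast h3
  have hZp : (0 : ℝ) < (Z : ℝ) + 1 := by positivity
  have hpi : Real.pi ≤ 3.15 := Real.pi_lt_d2.le
  have hpi0 := Real.pi_pos
  have h1 : 2 * Real.pi * |β| * (P + D * R) ≤ 13 * (Z + 1) := by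
    have h2 : |β| * (P + D * R) ≤ 2 * (Z + 1) := by
      calc |β| * (P + D * R) ≤ (1 / (Z + 1)) * (2 * (Z + 1) ^ 2) := by
            apply mul_le_mul hβ _ (by positivity) (by positivity)
            linarith
        _ = 2 * (Z + 1) := by field_simp
    calc 2 * Real.pi * |β| * (P + D * R) = 2 * Real.pi * (|β| * (P + D * R)) := by ring
      _ ≤ 2 * Real.pi * (2 * (Z + 1)) := mul_le_mul_of_nonneg_left h2 (by positivity)
      _ ≤ 13 * (Z + 1) := by nlinarith
  have h2 : (Z : ℝ) + 2 + 2 * Real.pi * |β| * (P + D * R) ≤ 16 * (Z + 1) := by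
    have : (0 : ℝ) ≤ Z := Nat.cast_nonneg _
    linarith
  have h3 : (D : ℝ) * (Z + 2 + 2 * Real.pi * |β| * (P + D * R)) ≤
      32 * (P : ℝ) ^ (5 / 8 : ℝ) := by
    calc (D : ℝ) * (Z + 2 + 2 * Real.pi * |β| * (P + D * R)) ≤
          (P : ℝ) ^ (1 / 8 : ℝ) * (16 * (2 * (P : ℝ) ^ (1 / 2 : ℝ))) := by
          apply mul_le_mul hDR (h2.trans (by linarith)) _ (by positivity)
          have : (0 : ℝ) ≤ Z := Nat.cast_nonneg _
          positivity
      _ = 32 * ((P : ℝ) ^ (1 / 8 : ℝ) * (P : ℝ) ^ (1 / 2 : ℝ)) := by ring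
      _ = _ := by rw [← Real.rpow_add hP0]; norm_num
  refine h3.trans ?_
  rw [le_div_iff₀ (by positivity)]
  calc 32 * (P : ℝ) ^ (5 / 8 : ℝ) * (φ * Real.log P) =
        32 * (P : ℝ) ^ (5 / 8 : ℝ) * φ * Real.log P := by ring
    _ ≤ 32 * (P : ℝ) ^ (5 / 8 : ℝ) * φ * ((c / (32 * φ)) * (P : ℝ) ^ (3 / 8 : ℝ)) :=
        mul_le_mul_of_nonneg_left hlog (by positivity)
    _ = c * ((P : ℝ) ^ (5 / 8 : ℝ) * (P : ℝ) ^ (3 / 8 : ℝ)) := by field_simp
    _ = c * P := by
        rw [← Real.rpow_add hP0]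
        norm_num

theorem maj : MAJ := by
  classical
  obtain ⟨B0, hB00, hB0⟩ := exists_B0
  set CV : ℝ := Real.exp (Real.exp (4 * B0)) with hCV
  set E3 : ℝ := Real.exp (3 * B0) with hE3
  have hCVpos : 0 < CV := Real.exp_pos _
  have hE3pos : 0 < E3 := Real.exp_pos _
  refine ⟨128 * CV + 1, by positivity, fun ε hε => ?_⟩
  set w : ℕ := ⌈256 * CV * E3 / ε⌉₊ + ⌈E3⌉₊ + 2 with hw
  refine ⟨w, fun R hR hRp => ?_⟩
  have h2R : 2 ∣ R := hRp 2 Nat.prime_two (by omega)
  have hwE : E3 ≤ w := by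
    have h1 := Nat.le_ceil E3
    have h2 : (⌈E3⌉₊ : ℝ) ≤ w := by
      have : ⌈E3⌉₊ ≤ w := by omega
      exact_mod_cast this
    linarith
  have hw0 : (0 : ℝ) < w := lt_of_lt_of_le hE3pos hwE
  have hwε : 128 * CV * (E3 / w) ≤ ε / 2 := by
    have h1 := Nat.le_ceil (256 * CV * E3 / ε)
    have h2 : (⌈256 * CV * E3 / ε⌉₊ : ℝ) ≤ w := by
      have : ⌈256 * CV * E3 / ε⌉₊ ≤ w := by omega
      exact_mod_cast this
    have h3 := h1.trans h2
    rw [div_le_iff₀ hε] at h3
    rw [mul_div_assoc', div_le_iff₀ hw0]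
    linarith
  have hφ : (0 : ℝ) < R.totient := by exact_mod_cast Nat.totient_pos.mpr hR
  set c : ℝ := min 1 (ε / 2) with hc
  have hcpos : 0 < c := lt_min one_pos (by linarith)
  obtain ⟨P1, hP1⟩ := ev_log (c / (32 * R.totient)) (by positivity)
  set κ0 : ℝ := 128 * CV / ε with hκ0
  have hκpos : 0 < κ0 := by positivity
  refine ⟨κ0, hκpos, 2 ^ 64 + P1 + R ^ 2, fun P hP => ?_⟩
  have hP64 : 2 ^ 64 ≤ P := by omega
  have hPP1 : P1 ≤ P := by omega
  have hPR2 : R ^ 2 ≤ P := by omega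
  have hPpos : 1 ≤ P := le_trans (by norm_num) hP64
  have hP0R : (0 : ℝ) < P := by exact_mod_cast hPpos
  have hlogP : 0 < Real.log P := Real.log_pos (by
    have : 1 < P := lt_of_lt_of_le (by norm_num) hP64
    exact_mod_cast this)
  obtain ⟨N, hN8, hNlog⟩ := exists_N hP64
  set D : ℕ := 2 ^ 2 ^ (N + 3) with hD
  have hD2 : 2 ≤ D := by
    rw [hD]
    calc 2 = 2 ^ 1 := by norm_num
      _ ≤ 2 ^ 2 ^ (N + 3) := Nat.pow_le_pow_right (by norm_num) (Nat.one_le_pow _ _ (by norm_num))
  set Z : ℕ := Nat.sqrt P with hZ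
  have hDZ : 2 * D ≤ Z + 1 := by
    have h1 : (2 * D) ^ 2 ≤ P := by
      calc (2 * D) ^ 2 = 4 * D ^ 2 := by ring
        _ ≤ D ^ 2 * D ^ 2 := Nat.mul_le_mul_right _ (by nlinarith)
        _ = D ^ 4 := by ring
        _ ≤ D ^ 8 := Nat.pow_le_pow_right (by omega) (by norm_num)
        _ ≤ P := hN8
    have h2 : 2 * D ≤ Z := by
      rw [hZ]; exact Nat.le_sqrt'.mpr h1
    omega
  have hZpos : 0 < Z := by omega
  refine ⟨rhoR R N, fun n => ?_, fun n hn hPn => ?_, fun a ha t => ?_⟩
  · exact rhoM_nonneg (fun i => ⟨N - i, by ring⟩) N n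
  · apply one_le_rhoM (fun i => ⟨N - i, by ring⟩)
    intro i hi p hp hpn
    rw [mem_Ib] at hp
    have h1 : p = n := (Nat.prime_dvd_prime_iff_eq hp.2.1 hn).mp hpn
    have h2 : p ≤ D := by
      refine hp.1.2.trans ?_
      rw [hD]
      exact Nat.pow_le_pow_right (by norm_num) (Nat.pow_le_pow_right (by norm_num) (by omega))
    have h3 : D ≤ P := by
      calc D = D ^ 1 := (pow_one D).symm
        _ ≤ D ^ 8 := Nat.pow_le_pow_right (by omega) (by norm_num)
        _ ≤ P := hN8
    omega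
  · obtain ⟨e, u, he, heZ, hβ, hS⟩ := S_bound (P := P) (a := a) hR hZpos hDZ t
    set β : ℝ := (R * t - u / e) / R with hβdef
    set J : ℂ := ∑ n ∈ Ioc P (2 * P), ee (n * β) with hJ
    have hRR : (0 : ℝ) < R := by exact_mod_cast hR
    have hR1 : (1 : ℝ) ≤ R := by exact_mod_cast hR
    have he1 : (1 : ℝ) ≤ e := by exact_mod_cast he
    have hβ1 : |β| ≤ 1 / (Z + 1) := by
      rw [hβdef, abs_div, abs_of_pos hRR, div_le_iff₀ hRR]
      refine hβ.trans ?_
      have hZ1 : (0 : ℝ) < (Z : ℝ) + 1 := by positivity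
      rw [div_mul_eq_mul_div, one_mul, div_le_div_iff₀ (by positivity) hZ1, one_mul]
      have : (1 : ℝ) ≤ R * e := by nlinarith
      nlinarith
    have hErr := err_le (D := D) (Z := Z) (R := R) (P := P) (β := β) (c := c) (φ := R.totient) rfl
      hN8 hPpos hPR2 hβ1 hφ (hP1 P hPP1) hlogP
    have hV := Ve_bound (N := N) hB0 hRp hwE he
    have hW : Wb (PI (Ib R) N) / R ≤ 128 / (R.totient * Real.log P) := by
      refine (Wb_PI_le hR h2R).trans ?_
      have hlz : 0 < Real.log (2 ^ 2 ^ N : ℕ) := by linarith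
      rw [div_le_div_iff₀ (by positivity) (by positivity), one_mul]
      calc (R.totient : ℝ) * Real.log P ≤ R.totient * (128 * Real.log (2 ^ 2 ^ N : ℕ)) :=
            mul_le_mul_of_nonneg_left hNlog hφ.le
        _ = _ := by ring
    have hJP : ‖J‖ ≤ P := by
      rw [hJ]
      refine (norm_sum_le _ _).trans ?_
      simp_rw [norm_ee]
      rw [sum_const, Nat.card_Ioc, nsmul_eq_mul, mul_one]
      have : 2 * P - P = P := by omega
      rw [this]
    have hVR : ∀ f : ℝ, 0 ≤ f → |Ve R N e| ≤ Wb (PI (Ib R) N) * CV * f →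
        |Ve R N e| / R ≤ 128 * CV * f / (R.totient * Real.log P) := by
      intro f hf hv
      calc |Ve R N e| / R ≤ (Wb (PI (Ib R) N) * CV * f) / R :=
            div_le_div_of_nonneg_right hv hRR.le
        _ = (Wb (PI (Ib R) N) / R) * (CV * f) := by ring
        _ ≤ (128 / (R.totient * Real.log P)) * (CV * f) :=
            mul_le_mul_of_nonneg_right hW (by positivity)
        _ = _ := by ring
    have hfac1 : (if e = 1 then (1 : ℝ) else E3 / w) ≤ 1 := by
      split_ifs
      · exact le_rfl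
      · rw [div_le_one hw0]; exact hwE
    have hfac0 : 0 ≤ (if e = 1 then (1 : ℝ) else E3 / w) := by
      split_ifs <;> positivity
    have hcle1 : c ≤ 1 := min_le_left _ _
    have hcle2 : c ≤ ε / 2 := min_le_right _ _
    have hX : 0 < (P : ℝ) / (R.totient * Real.log P) := by positivity
    constructor
    · refine hS.trans ?_
      have h1 := hVR _ hfac0 hV
      have h2 : |Ve R N e| / R * ‖J‖ ≤ 128 * CV * 1 / (R.totient * Real.log P) * P := by
        apply mul_le_mul _ hJP (norm_nonneg _) (by positivity)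
        refine h1.trans ?_
        apply div_le_div_of_nonneg_right _ (by positivity)
        exact mul_le_mul_of_nonneg_left hfac1 (by positivity)
      have h3 : c * P / (R.totient * Real.log P) ≤ 1 * P / (R.totient * Real.log P) := by
        apply div_le_div_of_nonneg_right _ (by positivity)
        exact mul_le_mul_of_nonneg_right hcle1 hP0R.le
      calc _ ≤ 128 * CV * 1 / (R.totient * Real.log P) * P +
            1 * P / (R.totient * Real.log P) := add_le_add h2 (hErr.trans h3)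
        _ = (128 * CV + 1) * P / (R.totient * Real.log P) := by ring
    · intro hfar
      refine hS.trans ?_
      have h3 : c * P / (R.totient * Real.log P) ≤ (ε / 2) * P / (R.totient * Real.log P) := by
        apply div_le_div_of_nonneg_right _ (by positivity)
        exact mul_le_mul_of_nonneg_right hcle2 hP0R.le
      have hmain : |Ve R N e| / R * ‖J‖ ≤ (ε / 2) * P / (R.totient * Real.log P) := by
        by_cases hee : e = 1
        · rw [if_pos hee] at hV
          have h1 := hVR 1 zero_le_one hV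
          have hJ2 : ‖J‖ ≤ P / (2 * κ0) := by
            have h4 := ap_bound (q := 1) one_pos 0 P (2 * P) (t := β) (δ := κ0 / P)
              (by positivity) (by
                intro n
                have h5 := hfar (u + n * R)
                have h6 : ((1 : ℕ) : ℝ) * β - n = t - ((u + n * R : ℤ) : ℝ) / R := by
                  rw [hβdef, hee]
                  push_cast
                  field_simp
                  ring
                rw [h6]
                exact h5)
            have h7 : (Ioc P (2 * P)).filter (fun n => n % 1 = 0 % 1) = Ioc P (2 * P) := by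
              apply filter_true_of_mem
              intro n _
              simp [Nat.mod_one]
            rw [h7] at h4
            refine h4.trans (le_of_eq ?_)
            field_simp
          calc |Ve R N e| / R * ‖J‖ ≤ (128 * CV * 1 / (R.totient * Real.log P)) * (P / (2 * κ0)) :=
                mul_le_mul h1 hJ2 (norm_nonneg _) (by positivity)
            _ = (ε / 2) * P / (R.totient * Real.log P) := by
                rw [hκ0]; field_simp
        · rw [if_neg hee] at hV
          have h1 := hVR (E3 / w) (by positivity) hV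
          calc |Ve R N e| / R * ‖J‖ ≤ (128 * CV * (E3 / w) / (R.totient * Real.log P)) * P :=
                mul_le_mul h1 hJP (norm_nonneg _) (by positivity)
            _ ≤ ((ε / 2) / (R.totient * Real.log P)) * P := by
                apply mul_le_mul_of_nonneg_right _ hP0R.le
                exact div_le_div_of_nonneg_right hwε (by positivity)
            _ = _ := by ring
      calc _ ≤ (ε / 2) * P / (R.totient * Real.log P) + (ε / 2) * P / (R.totient * Real.log P) :=
            add_le_add hmain (hErr.trans h3)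
        _ = ε * P / (R.totient * Real.log P) := by ring

end Pool.Agent.H78.OM
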