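import Pool.Agent.H78.OM.Bilinear

/-!
# Bound for the off-diagonal terms
-/

namespace Pool.Agent.H78.OM

open Finset

theorem card_near (s : Finset ℕ) {x y : ℝ} (hy : 0 ≤ y) (h : ∀ a ∈ s, |(a : ℝ) - x| ≤ y) :
    (s.card : ℝ) ≤ 2 * y + 1 := by
  rcases s.eq_empty_or_nonempty with rfl | hne
  · simp; linarith
  · have h1 := s.min'_mem hne
    have h2 := s.max'_mem hne
    have h3 : s ⊆ Icc (s.min' hne) (s.max' hne) := by
      intro a ha
      rw [mem_Icc]
      exact ⟨s.min'_le a ha, s.le_max' a ha⟩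
    have h4 := card_le_card h3
    rw [Nat.card_Icc] at h4
    have h5 := h _ h1
    have h6 := h _ h2
    rw [abs_le] at h5 h6
    have h7 : s.min' hne ≤ s.max' hne := s.min'_le _ h2
    have h8 : (s.card : ℝ) ≤ ((s.max' hne + 1 - s.min' hne : ℕ) : ℝ) := by exact_mod_cast h4
    rw [Nat.cast_sub (by omega)] at h8
    push_cast at h8
    linarith

open Classical in
/-- the major arcs -/
noncomputable def major (H R : ℕ) (β : ℝ) : Finset ℕ :=
  (range H).filter (fun ξ : ℕ => ∃ u : ℤ, |(ξ : ℝ) / H - u / R| ≤ β)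

theorem mem_major {H R : ℕ} {β : ℝ} {ξ : ℕ} : ξ ∈ major H R β ↔
    ξ ∈ range H ∧ ∃ u : ℤ, |(ξ : ℝ) / H - u / R| ≤ β := by
  classical
  unfold major; rw [mem_filter]

theorem card_major {H R : ℕ} (hH : 0 < H) (hR : 0 < R) {β : ℝ} (hβ : 0 ≤ β) (hβ1 : β ≤ 1) :
    ((major H R β).card : ℝ) ≤ (3 * R + 1) * (2 * β * H + 1) := by
  classical
  have hHR : (0 : ℝ) < H := by exact_mod_cast hH
  have hRR : (0 : ℝ) < R := by exact_mod_cast hR
  have hsub : major H R β ⊆ (Icc (-(R : ℤ)) (2 * R)).biUnion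
      (fun u => (range H).filter (fun ξ : ℕ => |(ξ : ℝ) / H - u / R| ≤ β)) := by
    intro ξ hξ
    rw [mem_major] at hξ
    obtain ⟨h1, u, hu⟩ := hξ
    rw [mem_biUnion]
    refine ⟨u, ?_, mem_filter.mpr ⟨h1, hu⟩⟩
    rw [mem_Icc]
    rw [abs_le] at hu
    have h2 : (0 : ℝ) ≤ (ξ : ℝ) / H := by positivity
    have h3 : (ξ : ℝ) / H ≤ 1 := by
      rw [div_le_one hHR]
      exact_mod_cast (mem_range.mp h1).le
    constructor
    · have h4 : (-1 : ℝ) ≤ u / R := by linarith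
      rw [le_div_iff₀ hRR] at h4
      have : (((-(R : ℤ)) : ℤ) : ℝ) ≤ u := by push_cast; linarith
      exact_mod_cast this
    · have h4 : (u : ℝ) / R ≤ 2 := by linarith
      rw [div_le_iff₀ hRR] at h4
      have : (u : ℝ) ≤ ((2 * (R : ℤ) : ℤ) : ℝ) := by push_cast; linarith
      exact_mod_cast this
  have h1 : ((major H R β).card : ℝ) ≤ ∑ u ∈ Icc (-(R : ℤ)) (2 * R),
      (((range H).filter (fun ξ : ℕ => |(ξ : ℝ) / H - u / R| ≤ β)).card : ℝ) := by
    have := (card_le_card hsub).trans card_biUnion_le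
    exact_mod_cast this
  refine h1.trans ?_
  have h2 : ∀ u ∈ Icc (-(R : ℤ)) (2 * R),
      (((range H).filter (fun ξ : ℕ => |(ξ : ℝ) / H - u / R| ≤ β)).card : ℝ) ≤ 2 * β * H + 1 := by
    intro u _
    have := card_near ((range H).filter (fun ξ : ℕ => |(ξ : ℝ) / H - u / R| ≤ β))
      (x := u / R * H) (y := β * H) (by positivity) (by
        intro a ha
        have h3 := (mem_filter.mp ha).2
        have : (a : ℝ) - u / R * H = (a / H - u / R) * H := by field_simp
        rw [this, abs_mul, abs_of_pos hHR]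
        exact mul_le_mul_of_nonneg_right h3 hHR.le)
    linarith
  refine (sum_le_sum h2).trans (le_of_eq ?_)
  rw [sum_const, nsmul_eq_mul, Int.card_Icc]
  congr 1
  have : ((2 * (R : ℤ) + 1 - -(R : ℤ)).toNat : ℤ) = 3 * R + 1 := by
    rw [Int.toNat_of_nonneg (by omega)]; ring
  exact_mod_cast this

theorem off_bound {H R' R0 k P : ℕ} {κ0 ν A B : ℝ} (hH : 0 < H) (hR' : R' ∣ H) (hk : 0 < k)
    (hR0 : 0 < R0) (hkR : k * R0 ∣ R') (G : ℕ → ℝ) (hG : ∀ b, G (b + H) = G b)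
    (h0 : ∀ b, 0 ≤ G b) (h1 : ∀ b, G b ≤ 1) (hκ0 : 0 < κ0) (hP : 0 < P) (hκP : κ0 ≤ P)
    (hν : (H : ℝ) ≤ ν * P) (hB : 0 ≤ B) (𝒩 : Finset ℕ) (w : ℕ → ℝ)
    (hA : ∀ t : ℝ, ‖∑ n ∈ 𝒩, (w n : ℂ) * ee (n * t)‖ ≤ A)
    (hmin : ∀ t : ℝ, (∀ v : ℤ, κ0 / P ≤ |t - v / R0|) →
      ‖∑ n ∈ 𝒩, (w n : ℂ) * ee (n * t)‖ ≤ B)
    (f : ℕ → ℝ) (hf : ∀ b, |f b| ≤ 1) :
    |∑ n ∈ 𝒩, w n * ∑ c ∈ range H, f c * (fun b => G b - EG H R' G b) (c + k * n)| ≤
      (B + A * (4 * Real.pi * κ0 * ν * Real.sqrt (2 * κ0 * ν + 1) / Real.sqrt R')) * H := by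
  have hR'0 : 0 < R' := Nat.pos_of_dvd_of_pos hR' hH
  have hHR : (0 : ℝ) < H := by exact_mod_cast hH
  have hRR : (0 : ℝ) < R' := by exact_mod_cast hR'0
  have hPR : (0 : ℝ) < P := by exact_mod_cast hP
  have hkR' : (0 : ℝ) < k := by exact_mod_cast hk
  have hR0R : (0 : ℝ) < R0 := by exact_mod_cast hR0
  have hν0 : 0 < ν := by
    by_contra h
    push Not at h
    nlinarith
  set β : ℝ := κ0 / P with hβ
  have hβ0 : 0 < β := by positivity
  have hβ1 : β ≤ 1 := by rw [hβ, div_le_one hPR]; exact hκP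
  have hβν : β * H ≤ κ0 * ν := by
    rw [hβ, div_mul_eq_mul_div, div_le_iff₀ hPR]
    nlinarith
  have hA0 : 0 ≤ A := (norm_nonneg _).trans (hA 0)
  have hG1 : ∀ b, |(fun b => G b - EG H R' G b) b| ≤ 1 := by
    intro b
    simp only
    rw [abs_le]
    have a1 := h0 b; have a2 := h1 b
    have a3 := EG_nonneg (H := H) (R := R') h0 b
    have a4 := EG_le_one (H := H) (R := R') h1 b
    constructor <;> linarith
  have hmain := corr_bound hH 𝒩 w k f (fun b => G b - EG H R' G b)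
    (fun b => by rw [hG, EG_period hR']) hf hG1 (major H R' β)
    (A := A) (B := B) (δ := 2 * Real.pi * β * (H / R')) hB (by positivity) hA
    (by
      intro ξ hξ hnot
      apply hmin
      intro v
      by_contra hlt
      push Not at hlt
      apply hnot
      rw [mem_major]
      refine ⟨hξ, ?_⟩
      obtain ⟨s, hs⟩ := hkR
      refine ⟨v * s, ?_⟩
      have hs0 : (0 : ℝ) < s := by
        have : 0 < s := by
          rcases Nat.eq_zero_or_pos s with h | h
          · rw [h, mul_zero] at hs; omega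
          · exact h
        exact_mod_cast this
      have e1 : (ξ : ℝ) / H - ((v * s : ℤ) : ℝ) / R' = (k * (ξ / H) - v / R0) / k := by
        rw [hs]; push_cast; field_simp
      rw [e1, abs_div, abs_of_pos hkR', div_le_iff₀ hkR']
      have hk1 : (1 : ℝ) ≤ k := by exact_mod_cast hk
      have : β ≤ β * k := le_mul_of_one_le_right hβ0.le hk1
      linarith)
    (by
      intro ξ hξ
      rw [mem_major] at hξ
      obtain ⟨_, u, hu⟩ := hξ
      exact hat_decay hH hR' G h0 h1 hu)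
  refine hmain.trans ?_
  apply mul_le_mul_of_nonneg_right _ hHR.le
  apply add_le_add le_rfl
  rw [mul_assoc]
  apply mul_le_mul_of_nonneg_left _ hA0
  have hcard := card_major (H := H) (R := R') hH hR'0 hβ0.le hβ1
  have hR1 : (1 : ℝ) ≤ R' := by exact_mod_cast hR'0
  have h2 : ((major H R' β).card : ℝ) ≤ 4 * R' * (2 * κ0 * ν + 1) := by
    refine hcard.trans ?_
    apply mul_le_mul _ _ (by positivity) (by positivity)
    · linarith
    · nlinarith
  have h3 : Real.sqrt (major H R' β).card ≤ 2 * Real.sqrt R' * Real.sqrt (2 * κ0 * ν + 1) := by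
    refine (Real.sqrt_le_sqrt h2).trans (le_of_eq ?_)
    rw [Real.sqrt_mul (by positivity), Real.sqrt_mul (by norm_num)]
    have : Real.sqrt 4 = 2 := by
      rw [show (4 : ℝ) = 2 ^ 2 by norm_num, Real.sqrt_sq (by norm_num)]
    rw [this]
  have h4 : 2 * Real.pi * β * (H / R') ≤ 2 * Real.pi * (κ0 * ν) / R' := by
    have : 2 * Real.pi * β * (H / R') = 2 * Real.pi * (β * H) / R' := by ring
    rw [this]
    apply div_le_div_of_nonneg_right _ hRR.le
    exact mul_le_mul_of_nonneg_left hβν Real.two_pi_pos.le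
  have hsq : Real.sqrt R' * Real.sqrt R' = R' := Real.mul_self_sqrt hRR.le
  have hsqpos : 0 < Real.sqrt R' := Real.sqrt_pos.mpr hRR
  calc 2 * Real.pi * β * (H / R') * Real.sqrt (major H R' β).card ≤
      (2 * Real.pi * (κ0 * ν) / R') * (2 * Real.sqrt R' * Real.sqrt (2 * κ0 * ν + 1)) :=
        mul_le_mul h4 h3 (Real.sqrt_nonneg _) (by positivity)
    _ = 4 * Real.pi * κ0 * ν * Real.sqrt (2 * κ0 * ν + 1) / Real.sqrt R' := by
        rw [eq_div_iff hsqpos.ne', div_mul_eq_mul_div, div_mul_eq_mul_div, div_eq_iff hRR.ne']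
        calc _ = (4 * Real.pi * κ0 * ν * Real.sqrt (2 * κ0 * ν + 1)) *
              (Real.sqrt R' * Real.sqrt R') := by ring
          _ = _ := by rw [hsq]

end Pool.Agent.H78.OM
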