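import Pool.Agent.MertensAP.Main

/-!
# Many primes in arithmetic progressions at suitable scales
-/

namespace Pool.Agent.H78.OM

open Finset

theorem log_div_le_log_div {M n : ℕ} (hM : 3 ≤ M) (h : M ≤ n) :
    Real.log n / n ≤ Real.log M / M := by
  have he : Real.exp 1 ≤ M := by
    have h1 := Real.exp_one_lt_d9
    have : (3 : ℝ) ≤ M := by exact_mod_cast hM
    linarith
  have hMn : (M : ℝ) ≤ n := by exact_mod_cast h
  exact Real.log_div_self_antitoneOn (Set.mem_ofPred.mpr he) (Set.mem_ofPred.mpr (he.trans hMn)) hMn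

theorem pap : ∃ c0 : ℝ, 0 < c0 ∧ ∀ R : ℕ, 0 < R → ∃ C1 P0 : ℕ, 0 < C1 ∧ ∀ a : ℕ, a.Coprime R →
    ∀ P, P0 ≤ P → ∃ P', P ≤ P' ∧ P' ≤ C1 * P ∧
      c0 * P' / (R.totient * Real.log P') ≤
        (((Ioc P' (2 * P')).filter (fun p => p.Prime ∧ p ≡ a [MOD R])).card : ℝ) := by
  refine ⟨1 / 4, by norm_num, fun R hR => ?_⟩
  obtain ⟨C, hC0, hC⟩ := MertensAP.mertens_ap_mod R hR
  have hφ : (0 : ℝ) < R.totient := by exact_mod_cast Nat.totient_pos.mpr hR
  obtain ⟨J, hJ⟩ := exists_nat_gt (8 * C * R.totient)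
  refine ⟨2 ^ J, 3, by positivity, fun a ha P hP => ?_⟩
  by_contra hno
  push Not at hno
  let g : ℕ → ℝ := fun n => if n.Prime ∧ n ≡ a [MOD R] then Real.log n / n else 0
  have hS : ∀ N : ℕ, 1 ≤ N → |∑ n ∈ Ioc 0 N, g n - Real.log N / R.totient| ≤ C := by
    intro N hN
    have h := hC a ha N (by exact_mod_cast hN)
    rw [Nat.floor_natCast, sum_filter] at h
    have e : Ioc 0 N = Icc 1 N := by ext x; simp [Nat.succ_le_iff]
    rw [e]
    exact h
  have hdy : ∀ j < J, ∑ n ∈ Ioc (2 ^ j * P) (2 ^ (j + 1) * P), g n ≤ 1 / 4 / R.totient := by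
    intro j hj
    have hM3 : 3 ≤ 2 ^ j * P := le_trans hP (Nat.le_mul_of_pos_left _ (by positivity))
    have h1 := hno (2 ^ j * P) (Nat.le_mul_of_pos_left _ (by positivity))
      (Nat.mul_le_mul_right _ (Nat.pow_le_pow_right (by norm_num) hj.le))
    have e2 : 2 * (2 ^ j * P) = 2 ^ (j + 1) * P := by rw [pow_succ]; ring
    rw [e2] at h1
    set M := 2 ^ j * P with hM
    have hMR : (0 : ℝ) < M := by
      have : 0 < M := by omega
      exact_mod_cast this
    have hlog : 0 < Real.log M := Real.log_pos (by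
      have : 1 < M := by omega
      exact_mod_cast this)
    simp only [g]
    rw [← sum_filter]
    have h3 : ∀ n ∈ (Ioc M (2 ^ (j + 1) * P)).filter (fun p => p.Prime ∧ p ≡ a [MOD R]),
        Real.log n / n ≤ Real.log M / M := by
      intro n hn
      exact log_div_le_log_div hM3 (mem_Ioc.mp (mem_filter.mp hn).1).1.le
    refine (sum_le_sum h3).trans ?_
    rw [sum_const, nsmul_eq_mul]
    calc _ ≤ (1 / 4 * (M : ℝ) / (R.totient * Real.log M)) * (Real.log M / M) :=
          mul_le_mul_of_nonneg_right h1.le (by positivity)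
      _ = 1 / 4 / R.totient := by field_simp
  have htel : ∀ i ≤ J, ∑ n ∈ Ioc 0 (2 ^ i * P), g n ≤
      ∑ n ∈ Ioc 0 P, g n + i * (1 / 4 / R.totient) := by
    intro i
    induction i with
    | zero => intro _; simp
    | succ i ih =>
      intro hi
      have h1 := ih (by omega)
      have h2 := hdy i (by omega)
      have h3 : ∑ n ∈ Ioc 0 (2 ^ (i + 1) * P), g n = ∑ n ∈ Ioc 0 (2 ^ i * P), g n +
          ∑ n ∈ Ioc (2 ^ i * P) (2 ^ (i + 1) * P), g n :=
        (sum_Ioc_consecutive g (Nat.zero_le _)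
          (Nat.mul_le_mul_right _ (Nat.pow_le_pow_right (by norm_num) (by omega)))).symm
      rw [h3]
      push_cast
      linarith
  have h1 := htel J le_rfl
  have hP1 : 1 ≤ P := by omega
  have h2 := hS P hP1
  have h3 := hS (2 ^ J * P) (Nat.mul_pos (by positivity) (by omega))
  have hPR : (0 : ℝ) < P := by exact_mod_cast hP1
  push_cast at h3
  rw [Real.log_mul (by positivity) hPR.ne', Real.log_pow, add_div] at h3
  rw [abs_le] at h2 h3
  have hlog2 : (0.69 : ℝ) < Real.log 2 := by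
    have := Real.log_two_gt_d9
    linarith
  have h4 : (J : ℝ) * Real.log 2 / R.totient ≤ 2 * C + J * (1 / 4 / R.totient) := by linarith
  have h5 : (J : ℝ) * Real.log 2 ≤ 2 * C * R.totient + J * (1 / 4) := by
    rw [div_le_iff₀ hφ] at h4
    have : (2 * C + J * (1 / 4 / R.totient)) * (R.totient : ℝ) =
        2 * C * R.totient + J * (1 / 4) := by field_simp
    linarith
  have hJ0 : (0 : ℝ) ≤ J := Nat.cast_nonneg _
  nlinarith

end Pool.Agent.H78.OM
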