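import Mathlib

/-!
# The pigeonhole lemma for colourings of subsets
-/

namespace Pool.Agent.H78.OM

open Finset

theorem exists_rank (J : Finset ℕ) : ∀ r < J.card, ∃ θ ∈ J, (J.filter (· < θ)).card = r := by
  induction J using Finset.induction_on_max with
  | empty => intro r hr; simp at hr
  | insert a J ha ih =>
    intro r hr
    have hnot : a ∉ J := fun h => lt_irrefl _ (ha a h)
    rw [card_insert_of_notMem hnot] at hr
    rcases Nat.lt_succ_iff_lt_or_eq.mp hr with h | h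
    · obtain ⟨θ, hθ, hc⟩ := ih r h
      refine ⟨θ, mem_insert_of_mem hθ, ?_⟩
      rw [← hc]
      congr 1
      ext k
      simp only [mem_filter, mem_insert]
      constructor
      · rintro ⟨rfl | hk, hlt⟩
        · exact absurd (ha θ hθ) (by omega)
        · exact ⟨hk, hlt⟩
      · rintro ⟨hk, hlt⟩
        exact ⟨Or.inr hk, hlt⟩
    · refine ⟨a, mem_insert_self a J, ?_⟩
      rw [h]
      congr 1
      ext k
      simp only [mem_filter, mem_insert]
      constructor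
      · rintro ⟨rfl | hk, hlt⟩
        · exact absurd hlt (lt_irrefl _)
        · exact hk
      · intro hk
        exact ⟨Or.inr hk, ha k hk⟩

theorem exists_rank_mod {m : ℕ} [NeZero m] (J : Finset ℕ) (hJ : m ≤ J.card) (t : ZMod m) :
    ∃ θ ∈ J, ((J.filter (· < θ)).card : ZMod m) = t := by
  obtain ⟨θ, hθ, hc⟩ := exists_rank J t.val (lt_of_lt_of_le (ZMod.val_lt t) hJ)
  exact ⟨θ, hθ, by rw [hc, ZMod.natCast_zmod_val]⟩

/-- popular colour -/
theorem exists_popular {m N : ℕ} [NeZero m] (K : Finset ℕ) (hK : m * N ≤ K.card)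
    (χ : ℕ → ZMod m) : ∃ J ⊆ K, N ≤ J.card ∧ ∃ y, ∀ k ∈ J, χ k = y := by
  classical
  have h : (univ : Finset (ZMod m)).card * N ≤ K.card := by
    rw [card_univ, ZMod.card]; exact hK
  obtain ⟨y, _, hy⟩ := exists_le_card_fiber_of_mul_le_card_of_maps_to
    (s := K) (t := (univ : Finset (ZMod m))) (f := χ) (fun _ _ => mem_univ _) ⟨0, mem_univ _⟩ h
  exact ⟨K.filter (fun k => χ k = y), filter_subset _ _, hy, y, fun k hk => (mem_filter.mp hk).2⟩

/-- transversal sets -/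
def Tr (K : Finset ℕ) (f : ℕ → ℕ) : Finset ℕ := K.image (fun k => 3 * k + f k)

theorem card_range_inter_Tr (K : Finset ℕ) (f : ℕ → ℕ) (hf : ∀ k, f k < 3) (κ : ℕ) :
    (Tr K f ∩ range (3 * κ)).card = (K.filter (· < κ)).card := by
  have : Tr K f ∩ range (3 * κ) = (K.filter (· < κ)).image (fun k => 3 * k + f k) := by
    ext a
    unfold Tr
    simp only [mem_inter, mem_image, mem_range, mem_filter]
    constructor
    · rintro ⟨⟨k, hk, rfl⟩, h⟩
      exact ⟨k, ⟨hk, by omega⟩, rfl⟩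
    · rintro ⟨k, ⟨hk, h⟩, rfl⟩
      have := hf k
      exact ⟨⟨k, hk, rfl⟩, by omega⟩
  rw [this, card_image_of_injOn]
  intro a _ b _ h
  simp only at h
  have h1 := hf a; have h2 := hf b
  omega

theorem card_Tr_inter_Tr (K : Finset ℕ) (f g : ℕ → ℕ) (hf : ∀ k, f k < 3) (hg : ∀ k, g k < 3) :
    (Tr K f ∩ Tr K g).card = (K.filter (fun k => f k = g k)).card := by
  have : Tr K f ∩ Tr K g = (K.filter (fun k => f k = g k)).image (fun k => 3 * k + f k) := by
    ext a
    unfold Tr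
    simp only [mem_inter, mem_image, mem_filter]
    constructor
    · rintro ⟨⟨k, hk, rfl⟩, ⟨l, hl, h⟩⟩
      have h1 := hf k; have h2 := hg l
      have hkl : k = l := by omega
      subst hkl
      exact ⟨k, ⟨hk, by omega⟩, rfl⟩
    · rintro ⟨k, ⟨hk, h⟩, rfl⟩
      exact ⟨⟨k, hk, rfl⟩, ⟨k, hk, by omega⟩⟩
  rw [this, card_image_of_injOn]
  intro a _ b _ h
  simp only at h
  have h1 := hf a; have h2 := hf b
  omega

theorem Tr_subset {K : Finset ℕ} {f : ℕ → ℕ} {N : ℕ} (hK : K ⊆ range N) (hf : ∀ k, f k < 3) :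
    Tr K f ⊆ range (3 * N) := by
  intro a ha
  unfold Tr at ha
  simp only [mem_image] at ha
  obtain ⟨k, hk, rfl⟩ := ha
  have := mem_range.mp (hK hk)
  have := hf k
  rw [mem_range]; omega

/-- two elements of `ZMod m` with equal parity of representatives have an even sum -/
theorem even_of_not {m : ℕ} [NeZero m] {a b c : ZMod m} (h1 : ¬ ∃ v : ZMod m, a + c = 2 * v)
    (h2 : ¬ ∃ v : ZMod m, b + c = 2 * v) : ∃ v : ZMod m, a + b = 2 * v := by
  have key : ∀ a b : ZMod m, (a.val + b.val) % 2 = 0 → ∃ v : ZMod m, a + b = 2 * v := by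
    intro a b h
    refine ⟨(((a.val + b.val) / 2 : ℕ) : ZMod m), ?_⟩
    have h3 : 2 * ((a.val + b.val) / 2) = a.val + b.val := by omega
    have h4 : ((2 * ((a.val + b.val) / 2) : ℕ) : ZMod m) = ((a.val + b.val : ℕ) : ZMod m) := by
      rw [h3]
    push_cast at h4
    rw [ZMod.natCast_zmod_val, ZMod.natCast_zmod_val] at h4
    exact h4.symm
  apply key
  have h3 : ¬ (a.val + c.val) % 2 = 0 := fun h => h1 (key _ _ h)
  have h4 : ¬ (b.val + c.val) % 2 = 0 := fun h => h2 (key _ _ h)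
  omega

/-- the pigeonhole lemma -/
theorem pigeon {m : ℕ} [NeZero m] (χ : ℕ → Finset ℕ → ZMod m) (c01 c12 c02 : ZMod m) :
    ∃ S ⊆ range (3 * (m * (m * m))), ∃ T ⊆ range (3 * (m * (m * m))),
      (χ 0 S + χ 1 T = 2 * (((S ∩ T).card : ZMod m) + c01)) ∨
      (χ 1 S + χ 2 T = 2 * (((S ∩ T).card : ZMod m) + c12)) ∨
      (χ 0 S + χ 2 T = 2 * (((S ∩ T).card : ZMod m) + c02)) := by
  by_contra hno
  push Not at hno
  set N := m * (m * m) with hN
  -- monochromatic chain on side 2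
  obtain ⟨K, hK, hKc, y2, hy2⟩ := exists_popular (m := m) (N := m * m) (range N)
    (by rw [card_range]) (fun k => χ 2 (range (3 * k)))
  have hKm : m ≤ K.card := le_trans (Nat.le_mul_of_pos_left _ (NeZero.pos m)) hKc
  have hS : ∀ κ ∈ K, range (3 * κ) ⊆ range (3 * N) := by
    intro κ hκ
    have := mem_range.mp (hK hκ)
    exact range_subset_range.mpr (by omega)
  have claim0 : ∀ f : ℕ → ℕ, (∀ k, f k < 3) → ¬ ∃ v : ZMod m, χ 0 (Tr K f) + y2 = 2 * v := by
    rintro f hf ⟨v, hv⟩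
    obtain ⟨κ, hκ, hr⟩ := exists_rank_mod K hKm (v - c02)
    apply (hno (Tr K f) (Tr_subset hK hf) (range (3 * κ)) (hS κ hκ)).2.2
    rw [card_range_inter_Tr K f hf, hr, hy2 κ hκ, hv]
    ring
  have claim1 : ∀ f : ℕ → ℕ, (∀ k, f k < 3) → ¬ ∃ v : ZMod m, χ 1 (Tr K f) + y2 = 2 * v := by
    rintro f hf ⟨v, hv⟩
    obtain ⟨κ, hκ, hr⟩ := exists_rank_mod K hKm (v - c12)
    apply (hno (Tr K f) (Tr_subset hK hf) (range (3 * κ)) (hS κ hκ)).2.1
    rw [card_range_inter_Tr K f hf, hr, hy2 κ hκ, hv]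
    ring
  let fA : ℕ → ℕ → ℕ := fun θ k => if k < θ then 0 else 1
  have hfA : ∀ θ k, fA θ k < 3 := by
    intro θ k; simp only [fA]; split_ifs <;> norm_num
  obtain ⟨J, hJ, hJc, α, hα⟩ := exists_popular (m := m) (N := m) K hKc
    (fun θ => χ 0 (Tr K (fA θ)))
  let g : ℕ → ℕ := fun k => if k ∈ J then 0 else 2
  have hg : ∀ k, g k < 3 := by
    intro k; simp only [g]; split_ifs <;> norm_num
  have hJne : J.Nonempty := by
    rw [← card_pos]; exact lt_of_lt_of_le (NeZero.pos m) hJc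
  obtain ⟨θ0, hθ0⟩ := hJne
  have h1 := claim0 (fA θ0) (hfA θ0)
  rw [hα θ0 hθ0] at h1
  have h2 := claim1 g hg
  obtain ⟨v, hv⟩ := even_of_not h1 h2
  obtain ⟨θ, hθ, hr⟩ := exists_rank_mod J hJc (v - c01)
  apply (hno (Tr K (fA θ)) (Tr_subset hK (hfA θ)) (Tr K g) (Tr_subset hK hg)).1
  rw [hα θ hθ, card_Tr_inter_Tr K _ _ (hfA θ) hg]
  have h3 : K.filter (fun k => fA θ k = g k) = J.filter (· < θ) := by
    ext k
    simp only [mem_filter, fA, g]
    constructor
    · rintro ⟨hk, h⟩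
      by_cases h4 : k < θ <;> by_cases h5 : k ∈ J <;> simp [h4, h5] at h ⊢
    · rintro ⟨hk, h⟩
      exact ⟨hJ hk, by simp [hk, h]⟩
  rw [h3, hr, hv]
  ring

end Pool.Agent.H78.OM
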