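import Pool.Agent.H78.OM.Tau
import Pool.Agent.H78.OM.Pigeon
import Pool.Agent.H78.OM.Base

/-!
# Popular configurations
-/

namespace Pool.Agent.H78.OM

open Finset

/-- indicator of a colour, made periodic -/
noncomputable def Gc {m : ℕ} (H : ℕ) (x : ℕ → ZMod m) (y : ZMod m) (b : ℕ) : ℝ :=
  if x (b % H) = y then 1 else 0

theorem Gc_nonneg {m H : ℕ} (x : ℕ → ZMod m) (y : ZMod m) (b : ℕ) : 0 ≤ Gc H x y b := by
  unfold Gc; split_ifs <;> norm_num

theorem Gc_le_one {m H : ℕ} (x : ℕ → ZMod m) (y : ZMod m) (b : ℕ) : Gc H x y b ≤ 1 := by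
  unfold Gc; split_ifs <;> norm_num

theorem Gc_period {m H : ℕ} (x : ℕ → ZMod m) (y : ZMod m) (b : ℕ) :
    Gc H x y (b + H) = Gc H x y b := by
  unfold Gc; rw [Nat.add_mod_right]

theorem sum_Gc {m : ℕ} [NeZero m] {H : ℕ} (x : ℕ → ZMod m) (b : ℕ) :
    ∑ y : ZMod m, Gc H x y b = 1 := by
  unfold Gc
  rw [sum_ite_eq (univ : Finset (ZMod m)) (x (b % H))]
  simp

/-- a popular colour in a cell -/
theorem exists_colour {m : ℕ} [NeZero m] {H R : ℕ} (hH : 0 < H) (hRH : R * R ∣ H)
    (x : ℕ → ZMod m) {r j : ℕ} (hr : r < R) (hj : j < R) :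
    ∃ y : ZMod m, 1 / (m : ℝ) ≤ cval H R (Gc H x y) (r, j) := by
  have hcard := card_cell hH hRH hr hj
  have hpos : 0 < H / (R * R) := Nat.div_pos (Nat.le_of_dvd hH hRH) (by
    have : 0 < R := by omega
    positivity)
  have hsum : ∑ y : ZMod m, cval H R (Gc H x y) (r, j) = 1 := by
    unfold cval
    rw [← sum_div, sum_comm]
    simp_rw [sum_Gc]
    rw [sum_const, nsmul_eq_mul, mul_one, div_self]
    rw [hcard]
    exact_mod_cast hpos.ne'
  by_contra hno
  push Not at hno
  have hm : (0 : ℝ) < m := by exact_mod_cast NeZero.pos m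
  have h1 : ∑ y : ZMod m, cval H R (Gc H x y) (r, j) < ∑ _y : ZMod m, 1 / (m : ℝ) :=
    sum_lt_sum_of_nonempty univ_nonempty fun y _ => hno y
  rw [hsum, sum_const, card_univ, ZMod.card, nsmul_eq_mul] at h1
  have : (m : ℝ) * (1 / m) = 1 := by field_simp
  linarith

/-- number of configurations -/
def Ncfg (m L : ℕ) : ℕ := 3 * ((2 ^ L * 2 ^ L) * (m * m))

theorem popular {m : ℕ} [NeZero m] {M0 : ℕ} (B : BP M0) (cs : ℕ → ZMod m)
    (x : ℕ → ZMod m) {R H : ℕ} {L : ℕ}
    (hL : L = 3 * (m * (m * m))) (hR : 0 < R)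
    (hQR : B.Qs L ∣ R) (hRH : R * R ∣ H) (hH : 0 < H) (base e : ℕ → Finset ℕ → ℕ)
    (he : ∀ i < 3, ∀ T ⊆ range L, e i T ≡ base i T [MOD B.Qs L]) :
    ∃ i g : ℕ, 1 ≤ g ∧ i + g ≤ 2 ∧ ∃ S ⊆ range L, ∃ T ⊆ range L, ∃ y y' : ZMod m,
      y + y' = 2 * (((S ∩ T).card : ZMod m) + cs g) ∧
      ∀ δ, δ + e i S ≡ e (i + g) T [MOD R] →
        1 / (B.Qs L * Ncfg m L * m ^ 2 : ℝ) * H ≤
          ∑ b ∈ range H, (if x b = y ∧ b % B.Qs L = base i S % B.Qs L then (1 : ℝ) else 0) *
            cval H R (Gc H x y') ((b + δ) % R, b / (H / R)) := by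
  classical
  set Q := B.Qs L with hQ
  have hQpos : 0 < Q := B.Qs_pos L
  have hm : (0 : ℝ) < m := by exact_mod_cast NeZero.pos m
  -- colours of the cells
  have hcol : ∀ (t j i : ℕ) (T : Finset ℕ), ∃ y : ZMod m, j < R →
      1 / (m : ℝ) ≤ cval H R (Gc H x y) ((e i T + Q * t) % R, j) := by
    intro t j i T
    by_cases hj : j < R
    · obtain ⟨y, hy⟩ := exists_colour hH hRH x (Nat.mod_lt (e i T + Q * t) hR) hj
      exact ⟨y, fun _ => hy⟩
    · exact ⟨0, fun h => absurd h hj⟩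
  choose χ hχ using hcol
  -- configurations
  let X : Finset ((ℕ × ℕ) × (Finset ℕ × Finset ℕ) × (ZMod m × ZMod m)) :=
    {(0, 1), (1, 1), (0, 2)} ×ˢ ((range L).powerset ×ˢ (range L).powerset) ×ˢ
      ((univ : Finset (ZMod m)) ×ˢ (univ : Finset (ZMod m)))
  have hXc : X.card = Ncfg m L := by
    simp only [X, card_product, card_powerset, card_range, card_univ, ZMod.card]
    rfl
  have hcfg : ∀ t : ℕ × ℕ, ∃ c ∈ X, c.2.2.1 = χ t.1 t.2 c.1.1 c.2.1.1 ∧
      c.2.2.2 = χ t.1 t.2 (c.1.1 + c.1.2) c.2.1.2 ∧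
      c.2.2.1 + c.2.2.2 = 2 * (((c.2.1.1 ∩ c.2.1.2).card : ZMod m) + cs c.1.2) := by
    rintro ⟨t, j⟩
    obtain ⟨S, hS, T, hT, h⟩ := pigeon (m := m) (χ t j) (cs 1) (cs 1) (cs 2)
    rw [← hL] at hS hT
    rcases h with h | h | h
    · refine ⟨((0, 1), (S, T), (χ t j 0 S, χ t j 1 T)), ?_, rfl, rfl, ?_⟩
      · simp [X, mem_product, mem_powerset, hS, hT]
      · exact h
    · refine ⟨((1, 1), (S, T), (χ t j 1 S, χ t j 2 T)), ?_, rfl, rfl, ?_⟩
      · simp [X, mem_product, mem_powerset, hS, hT]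
      · exact h
    · refine ⟨((0, 2), (S, T), (χ t j 0 S, χ t j 2 T)), ?_, rfl, rfl, ?_⟩
      · simp [X, mem_product, mem_powerset, hS, hT]
      · exact h
  choose cfg hcfgX hcfg1 hcfg2 hcfg3 using hcfg
  let I : Finset (ℕ × ℕ) := range (R / Q) ×ˢ range R
  have hXne : X.Nonempty := ⟨cfg (0, 0), hcfgX _⟩
  have hXpos : (0 : ℝ) < X.card := by exact_mod_cast card_pos.mpr hXne
  obtain ⟨c, hcX, hc⟩ := exists_le_card_fiber_of_nsmul_le_card_of_maps_to
    (s := I) (t := X) (f := cfg) (b := (I.card : ℝ) / X.card) (fun t _ => hcfgX t) hXne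
    (by rw [nsmul_eq_mul]; apply le_of_eq; field_simp)
  obtain ⟨⟨i, g⟩, ⟨S, T⟩, ⟨y, y'⟩⟩ := c
  simp only [X, mem_product, mem_powerset, mem_insert, mem_singleton, mem_univ, and_true,
    Prod.mk.injEq] at hcX
  obtain ⟨hig, hS, hT⟩ := hcX
  have hg1 : 1 ≤ g := by rcases hig with h | h | h <;> omega
  have hig2 : i + g ≤ 2 := by rcases hig with h | h | h <;> omega
  set J := I.filter (fun t => cfg t = ((i, g), (S, T), (y, y'))) with hJ
  have hJne : J.Nonempty := by
    rw [← card_pos]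
    have h1 : 0 < (I.card : ℝ) / X.card := by
      apply div_pos _ hXpos
      have h2 : 0 < R / Q := Nat.div_pos (Nat.le_of_dvd hR hQR) hQpos
      have : 0 < I.card := by
        simp only [I, card_product, card_range]
        exact Nat.mul_pos h2 hR
      exact_mod_cast this
    have h2 := h1.trans_le hc
    exact_mod_cast h2
  refine ⟨i, g, hg1, hig2, S, hS, T, hT, y, y', ?_, ?_⟩
  · obtain ⟨t, ht⟩ := hJne
    have h1 := (mem_filter.mp ht).2
    have h2 := hcfg3 t
    rw [h1] at h2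
    exact h2
  intro δ hδ
  -- lower bound on each cell
  have hRR : (0 : ℝ) < R := by exact_mod_cast hR
  have hQRR : (0 : ℝ) < Q := by exact_mod_cast hQpos
  have hHR : (0 : ℝ) < H := by exact_mod_cast hH
  set f : ℕ → ℝ := fun b => (if x b = y ∧ b % Q = base i S % Q then (1 : ℝ) else 0) *
            cval H R (Gc H x y') ((b + δ) % R, b / (H / R)) with hf
  have hf0 : ∀ b, 0 ≤ f b := by
    intro b
    apply mul_nonneg _ (cval_nonneg (Gc_nonneg x y') _)
    split_ifs <;> norm_num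
  have hcell : ∀ t ∈ J, (H : ℝ) / (R * R) * (1 / m) * (1 / m) ≤
      ∑ b ∈ (range H).filter (fun b => cell H R b = ((e i S + Q * t.1) % R, t.2)), f b := by
    rintro ⟨t, j⟩ ht
    obtain ⟨htI, htc⟩ := mem_filter.mp ht
    simp only [I, mem_product, mem_range] at htI
    have h1 := hcfg1 (t, j)
    have h2 := hcfg2 (t, j)
    rw [htc] at h1 h2
    simp only at h1 h2
    have h3 := hχ t j i S htI.2
    have h4 := hχ t j (i + g) T htI.2
    rw [← h1] at h3
    rw [← h2] at h4
    have hterm : ∀ b ∈ (range H).filter (fun b => cell H R b = ((e i S + Q * t) % R, j)),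
        Gc H x y b * (1 / m) ≤ f b := by
      intro b hb
      rw [mem_filter, mem_range] at hb
      obtain ⟨hbH, hbc⟩ := hb
      unfold cell at hbc
      rw [Prod.mk.injEq, Nat.mod_eq_of_lt hbH] at hbc
      obtain ⟨hb1, hb2⟩ := hbc
      simp only [hf]
      have e1 : b % Q = base i S % Q := by
        have h5 : b ≡ e i S + Q * t [MOD R] := hb1
        have h6 : b ≡ e i S + Q * t [MOD Q] := h5.of_dvd hQR
        have h7 : e i S + Q * t ≡ e i S + 0 [MOD Q] :=
          Nat.ModEq.add_left _ (Nat.modEq_zero_iff_dvd.mpr (Dvd.intro _ rfl))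
        exact (h6.trans h7).trans (he i (by omega) S hS)
      have e2 : (b + δ) % R = (e (i + g) T + Q * t) % R := by
        have h5 : b ≡ e i S + Q * t [MOD R] := hb1
        have h6 : b + δ ≡ (e i S + Q * t) + δ [MOD R] := h5.add_right δ
        have h7 : (e i S + Q * t) + δ = (δ + e i S) + Q * t := by ring
        rw [h7] at h6
        exact h6.trans (hδ.add_right (Q * t))
      have e3 : Gc H x y b = if x b = y then 1 else 0 := by
        unfold Gc; rw [Nat.mod_eq_of_lt hbH]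
      rw [e2, hb2, e3]
      have e4 : (if x b = y ∧ b % Q = base i S % Q then (1 : ℝ) else 0) =
          if x b = y then 1 else 0 := by
        simp [e1]
      rw [e4]
      apply mul_le_mul_of_nonneg_left h4
      split_ifs <;> norm_num
    refine le_trans ?_ (sum_le_sum hterm)
    rw [← sum_mul]
    apply mul_le_mul_of_nonneg_right _ (by positivity)
    have hc2 := card_cell hH hRH (Nat.mod_lt (e i S + Q * t) hR) htI.2
    have hc3 : (((range H).filter (fun b => cell H R b = ((e i S + Q * t) % R, j))).card : ℝ) =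
        (H : ℝ) / (R * R) := by
      rw [hc2, Nat.cast_div hRH (by positivity)]
      push_cast; ring
    unfold cval at h3
    rw [hc3, le_div_iff₀ (by positivity)] at h3
    linarith
  -- sum over the cells
  have hdisj : Set.PairwiseDisjoint (J : Set (ℕ × ℕ)) (fun t : ℕ × ℕ =>
      (range H).filter (fun b => cell H R b = ((e i S + Q * t.1) % R, t.2))) := by
    rintro ⟨t, j⟩ ht ⟨t', j'⟩ ht' hne
    rw [Function.onFun, disjoint_left]
    intro b hb hb'
    apply hne
    have h1 := (mem_filter.mp hb).2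
    have h2 := (mem_filter.mp hb').2
    rw [h1, Prod.mk.injEq] at h2
    simp only at h2
    have h3 : Q * t ≡ Q * t' [MOD R] := Nat.ModEq.add_left_cancel' _ h2.1
    have htI := (mem_filter.mp ht).1
    have htI' := (mem_filter.mp ht').1
    simp only [I, mem_product, mem_range] at htI htI'
    obtain ⟨s, hs⟩ := hQR
    have hs' : R / Q = s := by rw [hs]; exact Nat.mul_div_cancel_left _ hQpos
    rw [hs'] at htI htI'
    have h4 : Q * t < R := by rw [hs]; exact Nat.mul_lt_mul_of_pos_left htI.1 hQpos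
    have h5 : Q * t' < R := by rw [hs]; exact Nat.mul_lt_mul_of_pos_left htI'.1 hQpos
    have h6 := Nat.ModEq.eq_of_lt_of_lt h3 h4 h5
    have h7 := Nat.eq_of_mul_eq_mul_left hQpos h6
    rw [h7, h2.2]
  calc 1 / (Q * Ncfg m L * m ^ 2 : ℝ) * H =
        ((I.card : ℝ) / X.card) * ((H : ℝ) / (R * R) * (1 / m) * (1 / m)) := by
        rw [hXc]
        simp only [I, card_product, card_range]
        rw [Nat.cast_mul, Nat.cast_div hQR hQRR.ne']
        have hN : (Ncfg m L : ℝ) ≠ 0 := by rw [← hXc]; exact hXpos.ne'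
        field_simp
    _ ≤ J.card * ((H : ℝ) / (R * R) * (1 / m) * (1 / m)) :=
        mul_le_mul_of_nonneg_right hc (by positivity)
    _ = ∑ _t ∈ J, ((H : ℝ) / (R * R) * (1 / m) * (1 / m)) := by rw [sum_const, nsmul_eq_mul]
    _ ≤ ∑ t ∈ J, ∑ b ∈ (range H).filter
          (fun b => cell H R b = ((e i S + Q * t.1) % R, t.2)), f b := sum_le_sum hcell
    _ = ∑ b ∈ J.biUnion (fun t => (range H).filter
          (fun b => cell H R b = ((e i S + Q * t.1) % R, t.2))), f b := (sum_biUnion hdisj).symm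
    _ ≤ ∑ b ∈ range H, f b := by
        apply sum_le_sum_of_subset_of_nonneg
        · intro b hb
          rw [mem_biUnion] at hb
          obtain ⟨t, _, hb⟩ := hb
          exact (mem_filter.mp hb).1
        · intro b _ _; exact hf0 b

end Pool.Agent.H78.OM
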