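import Pool.Agent.H78.OM.PAP
import Pool.Agent.H78.OM.Counts

/-!
# Sets of primes `≡ 1 (mod R)` with large reciprocal sum
-/

namespace Pool.Agent.H78.OM

open Finset

theorem exists_Q (R : ℕ) (hR : 0 < R) (K : ℝ) : ∃ 𝒬 : Finset ℕ,
    (∀ q ∈ 𝒬, q.Prime ∧ q ≡ 1 [MOD R]) ∧ K ≤ recip 𝒬 := by
  classical
  by_contra hno
  push Not at hno
  let f : ℕ → ℝ := fun n => if n.Prime ∧ n ≡ 1 [MOD R] then 1 / (n : ℝ) else 0
  have hf0 : ∀ n, 0 ≤ f n := by
    intro n; simp only [f]; split_ifs <;> positivity
  have hsum : Summable f := by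
    apply summable_of_sum_le hf0 (c := K)
    intro u
    have h1 : ∑ n ∈ u, f n = recip (u.filter (fun n => n.Prime ∧ n ≡ 1 [MOD R])) := by
      unfold recip
      rw [sum_filter]
    rw [h1]
    exact (hno _ (fun q hq => (mem_filter.mp hq).2)).le
  have hφ : (0 : ℝ) < R.totient := by exact_mod_cast Nat.totient_pos.mpr hR
  obtain ⟨s, hs⟩ := summable_iff_vanishing_norm.mp hsum (1 / (2 * R.totient)) (by positivity)
  obtain ⟨C, hC0, hC⟩ := MertensAP.mertens_ap_mod R hR
  set Cs : ℝ := ∑ p ∈ s, |Real.log p / p| with hCs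
  -- choose x large
  obtain ⟨X, hX⟩ := exists_nat_gt (Real.exp (2 * R.totient * (C + Cs)))
  have hX1 : (1 : ℝ) ≤ X := by
    have h0 : (0 : ℝ) ≤ Cs := sum_nonneg fun _ _ => abs_nonneg _
    have : (1 : ℝ) ≤ Real.exp (2 * R.totient * (C + Cs)) := Real.one_le_exp (by positivity)
    linarith
  have h1 := hC 1 (Nat.coprime_one_left R) X hX1
  rw [Nat.floor_natCast] at h1
  have h2 : ∑ p ∈ (Icc 1 X).filter (fun p : ℕ => p.Prime ∧ p ≡ 1 [MOD R]), Real.log p / p ≤
      Cs + Real.log X * (1 / (2 * R.totient)) := by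
    set A := (Icc 1 X).filter (fun p : ℕ => p.Prime ∧ p ≡ 1 [MOD R]) with hA
    rw [← sum_filter_add_sum_filter_not A (· ∈ s)]
    apply add_le_add
    · calc ∑ p ∈ A.filter (· ∈ s), Real.log p / p ≤ ∑ p ∈ A.filter (· ∈ s), |Real.log p / p| :=
            sum_le_sum fun _ _ => le_abs_self _
        _ ≤ ∑ p ∈ s, |Real.log p / p| := by
            apply sum_le_sum_of_subset_of_nonneg
            · intro p hp; exact (mem_filter.mp hp).2
            · intro _ _ _; exact abs_nonneg _
    · have h3 : ∀ p ∈ A.filter (fun p => ¬ p ∈ s), Real.log p / p ≤ Real.log X * f p := by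
        intro p hp
        have hp1 := mem_filter.mp hp
        have hp2 := mem_filter.mp hp1.1
        have hp3 := mem_Icc.mp hp2.1
        simp only [f]
        rw [if_pos hp2.2]
        have hp0 : (0 : ℝ) < p := by exact_mod_cast hp3.1
        rw [mul_one_div]
        apply div_le_div_of_nonneg_right _ hp0.le
        exact Real.log_le_log hp0 (by exact_mod_cast hp3.2)
      refine (sum_le_sum h3).trans ?_
      rw [← mul_sum]
      apply mul_le_mul_of_nonneg_left _ (Real.log_nonneg hX1)
      have h4 := hs (A.filter (fun p => ¬ p ∈ s)) (by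
        rw [disjoint_left]
        intro a ha
        exact (mem_filter.mp ha).2)
      rw [Real.norm_eq_abs] at h4
      exact (le_abs_self _).trans h4.le
  have h5 := (abs_le.mp h1).1
  have h6 : Real.log X / R.totient ≤ C + Cs + Real.log X * (1 / (2 * R.totient)) := by linarith
  have h7 : Real.log X ≤ 2 * R.totient * (C + Cs) := by
    have e : Real.log X / R.totient = Real.log X * (1 / (2 * R.totient)) +
        Real.log X * (1 / (2 * R.totient)) := by field_simp; ring
    rw [e] at h6
    have h8 : Real.log X * (1 / (2 * R.totient)) ≤ C + Cs := by linarith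
    rw [mul_one_div, div_le_iff₀ (by positivity)] at h8
    linarith
  have h9 : (X : ℝ) ≤ Real.exp (2 * R.totient * (C + Cs)) := by
    rw [← Real.log_le_iff_le_exp (by linarith)]
    exact h7
  linarith

end Pool.Agent.H78.OM
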