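import Pool.Agent.H78.OM.Defs
import Pool.Agent.H78.OM.Avg

/-!
# Valid colourings of nested windows
-/

namespace Pool.Agent.H78.OM

open Finset

/-- data of the scales -/
structure Sc where
  /-- number of colours -/
  m : ℕ
  /-- the additive function -/
  π : Par m
  /-- bound for the small divisors -/
  Dm : ℕ
  /-- ratio of consecutive scales -/
  C : ℕ
  /-- modulus -/
  W : ℕ
  /-- first scale -/
  h0 : ℕ
  hm : 0 < m
  hC : 2 ≤ C
  hW : 0 < W
  hh0 : C ≤ h0
  hD : ∀ D, 0 < D → D ≤ Dm → D ∣ W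

namespace Sc

variable (S : Sc)

/-- `h j` -/
def h (j : ℕ) : ℕ := S.h0 * S.C ^ j
/-- length of the window -/
def H (j : ℕ) : ℕ := S.W * S.h j

theorem h_succ (j : ℕ) : S.h (j + 1) = S.C * S.h j := by
  unfold h; rw [pow_succ]; ring

theorem H_succ (j : ℕ) : S.H (j + 1) = S.C * S.H j := by
  unfold H; rw [h_succ]; ring

theorem C_pos : 0 < S.C := lt_of_lt_of_le two_pos S.hC

theorem h_pos (j : ℕ) : 0 < S.h j := by
  unfold h
  exact Nat.mul_pos (lt_of_lt_of_le S.C_pos S.hh0) (Nat.pow_pos S.C_pos)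

theorem H_pos (j : ℕ) : 0 < S.H j := Nat.mul_pos S.hW (S.h_pos j)

/-- the new constraints at scale `j` -/
def New (j k : ℕ) (x : ℕ → ZMod S.m) : Prop :=
  ∀ p ∈ PS S.π.M0 S.C (S.H j), ∀ b, Conf S.π (S.H j) S.Dm x b p → ¬ p ∣ (S.W * k + b) ^ 2 + 1

/-- valid colourings of the window of length `H j` at position `W * k` -/
def Good : ℕ → ℕ → (ℕ → ZMod S.m) → Prop
  | 0, _, _ => True
  | j + 1, k, x => (∀ i < S.C, Good j (k + i * S.h j) (fun b => x (i * S.H j + b))) ∧
      S.New (j + 1) k x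

theorem W_lt {j p : ℕ} (hp : p ∈ PS S.π.M0 S.C (S.H j)) : S.W < p := by
  unfold PS at hp
  simp only [mem_filter, mem_range] at hp
  obtain ⟨_, _, _, h⟩ := hp
  have h1 : S.C ≤ S.h j := by
    unfold Sc.h
    calc S.C ≤ S.h0 := S.hh0
      _ = S.h0 * 1 := by ring
      _ ≤ S.h0 * S.C ^ j := Nat.mul_le_mul_left _ (Nat.one_le_pow _ _ S.C_pos)
  have h2 : S.W * S.C ≤ S.H j := Nat.mul_le_mul_left _ h1
  have h3 : S.W * S.C < S.C * p := lt_of_le_of_lt h2 h
  rw [mul_comm S.W] at h3
  exact lt_of_mul_lt_mul_left h3 (Nat.zero_le _)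

theorem prime_of_mem {j p : ℕ} (hp : p ∈ PS S.π.M0 S.C (S.H j)) : p.Prime := by
  unfold PS at hp
  simp only [mem_filter, mem_range] at hp
  exact hp.2.1

theorem mod_of_mem {j p : ℕ} (hp : p ∈ PS S.π.M0 S.C (S.H j)) : p ≡ 1 [MOD S.π.M0] := by
  unfold PS at hp
  simp only [mem_filter, mem_range] at hp
  exact hp.2.2.1

theorem coprime_W {j p : ℕ} (hp : p ∈ PS S.π.M0 S.C (S.H j)) : Nat.Coprime p S.W :=
  (Nat.Prime.coprime_iff_not_dvd (S.prime_of_mem hp)).mpr fun h =>
    absurd (Nat.le_of_dvd S.hW h) (not_le.mpr (S.W_lt hp))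

theorem good_of_free (j : ℕ) : ∀ (k : ℕ) (x : ℕ → ZMod S.m),
    (∀ b d, 0 < d → b + d < S.H j → Adm S.π.M0 d → d ∣ (S.W * k + b) ^ 2 + 1 →
      x b + x (b + d) ≠ 2 * S.π.v d) → S.Good j k x := by
  induction j with
  | zero => intro k x _; trivial
  | succ j ih =>
    intro k x hx
    refine ⟨?_, ?_⟩
    · intro i hi
      apply ih
      intro b d hd hb hadm hdvd
      have e1 : S.W * (k + i * S.h j) + b = S.W * k + (i * S.H j + b) := by
        unfold H; ring
      rw [e1] at hdvd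
      have h1 : i * S.H j + b + d < S.H (j + 1) := by
        rw [H_succ]
        calc i * S.H j + b + d = i * S.H j + (b + d) := by ring
          _ < i * S.H j + S.H j := by omega
          _ = (i + 1) * S.H j := by ring
          _ ≤ S.C * S.H j := Nat.mul_le_mul_right _ hi
      have := hx (i * S.H j + b) d hd h1 hadm hdvd
      simpa [add_assoc] using this
    · intro p hp b hc hdvd
      obtain ⟨D, hD0, hD, hDa, hDb, hlt, heq⟩ := hc
      have hDW : D ∣ S.W := S.hD D hD0 hD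
      have h1 : D ∣ (S.W * k + b) ^ 2 + 1 := by
        have : (S.W * k + b) ^ 2 + 1 = S.W * (k * (S.W * k + 2 * b)) + (b ^ 2 + 1) := by ring
        rw [this]
        exact dvd_add (dvd_mul_of_dvd_left hDW _) hDb
      have hpp := S.prime_of_mem hp
      have hcop : Nat.Coprime D p := by
        apply Nat.Coprime.symm
        exact Nat.Coprime.coprime_dvd_right hDW (S.coprime_W hp)
      refine hx b (D * p) (Nat.mul_pos hD0 hpp.pos) hlt ?_
        (hcop.mul_dvd_of_dvd_of_dvd h1 hdvd) heq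
      intro r hr hrd
      rcases (Nat.Prime.dvd_mul hr).mp hrd with h | h
      · exact hDa r hr h
      · right
        rw [(Nat.prime_dvd_prime_iff_eq hr hpp).mp h]
        exact S.mod_of_mem hp

theorem conf_congr {m H Dm : ℕ} {π : Par m} {x y : ℕ → ZMod m} (hxy : ∀ b < H, x b = y b)
    (b p : ℕ) : Conf π H Dm x b p → Conf π H Dm y b p := by
  rintro ⟨D, h0, h1, ha, h2, h3, h4⟩
  refine ⟨D, h0, h1, ha, h2, h3, ?_⟩
  rw [← hxy b (by omega), ← hxy _ h3]; exact h4

theorem good_congr (j : ℕ) : ∀ (k : ℕ) (x y : ℕ → ZMod S.m),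
    (∀ b < S.H j, x b = y b) → S.Good j k x → S.Good j k y := by
  induction j with
  | zero => intros; trivial
  | succ j ih =>
    rintro k x y hxy ⟨h1, h2⟩
    refine ⟨?_, ?_⟩
    · intro i hi
      refine ih _ _ _ ?_ (h1 i hi)
      intro b hb
      apply hxy
      rw [H_succ]
      calc i * S.H j + b < i * S.H j + S.H j := by omega
          _ = (i + 1) * S.H j := by ring
          _ ≤ S.C * S.H j := Nat.mul_le_mul_right _ hi
    · intro p hp b hc
      exact h2 p hp b (conf_congr (fun b hb => (hxy b hb).symm) b p hc)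

/-- product of the primes of the scale -/
def M (j : ℕ) : ℕ := ∏ p ∈ PS S.π.M0 S.C (S.H j), p

/-- period -/
def N : ℕ → ℕ
  | 0 => 1
  | j + 1 => N j * S.M (j + 1)

theorem M_pos (j : ℕ) : 0 < S.M j := prod_pos fun _ hp => (S.prime_of_mem hp).pos

theorem N_pos (j : ℕ) : 0 < S.N j := by
  induction j with
  | zero => simp [N]
  | succ j ih => exact Nat.mul_pos ih (S.M_pos _)

theorem dvd_shift_iff {p W k M b : ℕ} (h : p ∣ M) :
    p ∣ (W * (k + M) + b) ^ 2 + 1 ↔ p ∣ (W * k + b) ^ 2 + 1 := by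
  have : (W * (k + M) + b) ^ 2 + 1 = M * (W * (2 * (W * k + b) + W * M)) + ((W * k + b) ^ 2 + 1) := by
    ring
  rw [this]
  exact Nat.dvd_add_right (dvd_mul_of_dvd_left h _)

theorem new_period (j k : ℕ) (x : ℕ → ZMod S.m) {Q : ℕ} (hQ : S.M j ∣ Q) :
    S.New j (k + Q) x ↔ S.New j k x := by
  unfold New
  refine forall_congr' fun p => forall_congr' fun hp => forall_congr' fun b => forall_congr' fun _ => ?_
  rw [dvd_shift_iff ((dvd_prod_of_mem _ hp).trans hQ)]

theorem good_period (j : ℕ) : ∀ (k : ℕ) (x : ℕ → ZMod S.m) {Q : ℕ}, S.N j ∣ Q →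
    (S.Good j (k + Q) x ↔ S.Good j k x) := by
  induction j with
  | zero => intro k x Q _; exact Iff.rfl
  | succ j ih =>
    intro k x Q hQ
    have h1 : S.N j ∣ Q := (Dvd.intro _ rfl).trans hQ
    have h2 : S.M (j + 1) ∣ Q := (Dvd.intro_left _ rfl).trans hQ
    show ((∀ i < S.C, S.Good j (k + Q + i * S.h j) (fun b => x (i * S.H j + b))) ∧
      S.New (j + 1) (k + Q) x) ↔ ((∀ i < S.C, S.Good j (k + i * S.h j)
        (fun b => x (i * S.H j + b))) ∧ S.New (j + 1) k x)
    rw [new_period S (j + 1) k x h2]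
    refine and_congr_left fun _ => forall_congr' fun i => forall_congr' fun _ => ?_
    have e : k + Q + i * S.h j = (k + i * S.h j) + Q := by ring
    rw [e, ih _ _ h1]

theorem le_of_mem_N (j : ℕ) : ∀ p, p.Prime → p ∣ S.N j → p ≤ S.H j := by
  induction j with
  | zero => intro p hp h; simp [N] at h; exact absurd h hp.ne_one
  | succ j ih =>
    intro p hp h
    rw [H_succ]
    rcases (Nat.Prime.dvd_mul hp).mp h with h | h
    · exact (ih p hp h).trans (Nat.le_mul_of_pos_left _ S.C_pos)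
    · obtain ⟨q, hq, hpq⟩ := (Prime.dvd_finsetProd_iff hp.prime _).mp h
      have : p = q := (Nat.prime_dvd_prime_iff_eq hp (S.prime_of_mem hq)).mp hpq
      subst this
      unfold PS at hq
      simp only [mem_filter, mem_range, H_succ] at hq
      omega

theorem coprime_N_M (j : ℕ) : Nat.Coprime (S.N j) (S.M (j + 1)) := by
  apply Nat.Coprime.prod_right
  intro p hp
  apply Nat.Coprime.symm
  rw [Nat.Prime.coprime_iff_not_dvd (S.prime_of_mem hp)]
  intro h
  have h1 := S.le_of_mem_N j p (S.prime_of_mem hp) h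
  unfold PS at hp
  simp only [mem_filter, mem_range, H_succ] at hp
  have h2 : S.C * S.H j < S.C * p := hp.2.2.2
  have h3 := lt_of_mul_lt_mul_left h2 (Nat.zero_le _)
  omega

end Sc

end Pool.Agent.H78.OM
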